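import Pool.Agent.Q240.GS.Slim

/-!
# A class of L-functions with a functional equation; the local data
-/

set_option autoImplicit false

open Complex Set MeasureTheory Filter Topology Metric
open scoped ComplexConjugate NNReal ENNReal

namespace Q240.OW

open Pool.Agent.W169.HF H353.E H353.F Q240.GS

variable {m : ℕ}

/-- entire functions with a functional equation, and two-sided bounds for `Re s ≥ 2` -/
structure WL (B N : ℝ) (μ : Fin m → ℂ) (Λ : ℂ → ℂ) : Prop where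
  one_le : 1 ≤ N
  re_le : ∀ j, (μ j).re ≤ 1 / 2
  entire : Differentiable ℂ Λ
  slow : Slow (XX N Λ)
  fe : ∃ ε : ℂ, ‖ε‖ = 1 ∧ ∀ s : ℂ, XX N Λ s = ε * conj (XX N Λ (1 - conj s))
  hi : ∀ s : ℂ, 2 ≤ s.re → ‖XX N Λ s‖ ≤ B * ‖gaf N μ s‖
  lo : ∀ s : ℂ, 2 ≤ s.re → ‖gaf N μ s‖ ≤ B * ‖XX N Λ s‖
  nz : ∀ s : ℂ, 1 < s.re → Λ s ≠ 0

variable {B N : ℝ} {μ : Fin m → ℂ} {Λ : ℂ → ℂ}

theorem WL.mono (h : WL B N μ Λ) {B' : ℝ} (hB : B ≤ B') : WL B' N μ Λ :=
  ⟨h.one_le, h.re_le, h.entire, h.slow, h.fe,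
    fun s hs => (h.hi s hs).trans (mul_le_mul_of_nonneg_right hB (norm_nonneg _)),
    fun s hs => (h.lo s hs).trans (mul_le_mul_of_nonneg_right hB (norm_nonneg _)), h.nz⟩

/-- Phragmén-Lindelöf with a Gaussian factor -/
lemma strip {f : ℂ → ℂ} (hf : Slow f) {K ϑ0 A : ℝ} (hK : 0 < K) (hϑ : 0 < ϑ0)
    (hA : ∀ u : ℂ, |u.re| = ϑ0 → ‖f u‖ ≤ A * Real.exp (K * (1 + ‖u‖ ^ 2))) {u : ℂ} (hu : |u.re| ≤ ϑ0) :
    ‖f u‖ ≤ A * Real.exp (K * (1 + 2 * ϑ0 ^ 2 + ‖u‖ ^ 2)) := by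
  have hre : ∀ z : ℂ, (K * z ^ 2 : ℂ).re = K * (z.re ^ 2 - z.im ^ 2) := by
    intro z
    rw [Complex.re_ofReal_mul]
    congr 1
    simp [sq, Complex.mul_re]
  have hn : ∀ z : ℂ, ‖z‖ ^ 2 = z.re ^ 2 + z.im ^ 2 := by
    intro z
    rw [Complex.sq_norm, Complex.normSq_apply]
    ring
  have hedge : ∀ z : ℂ, |z.re| = ϑ0 → ‖f z * cexp (K * z ^ 2)‖ ≤ A * Real.exp (K * (1 + 2 * ϑ0 ^ 2)) := by
    intro z hz
    have hz2 : z.re ^ 2 = ϑ0 ^ 2 := by rw [← hz, sq_abs]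
    rw [norm_mul, Complex.norm_exp, hre]
    calc ‖f z‖ * Real.exp (K * (z.re ^ 2 - z.im ^ 2))
        ≤ A * Real.exp (K * (1 + ‖z‖ ^ 2)) * Real.exp (K * (z.re ^ 2 - z.im ^ 2)) := by
          have := hA z hz
          gcongr
      _ = A * Real.exp (K * (1 + 2 * ϑ0 ^ 2)) := by
          rw [mul_assoc, ← Real.exp_add, hn, hz2]
          congr 2
          ring
  have hPL := PhragmenLindelof.vertical_strip (a := -ϑ0) (b := ϑ0)
    (f := fun z => f z * cexp (K * z ^ 2)) (C := A * Real.exp (K * (1 + 2 * ϑ0 ^ 2))) (z := u) ?_ ?_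
    (fun z hz => hedge z (by rw [hz, abs_neg, abs_of_pos hϑ]))
    (fun z hz => hedge z (by rw [hz, abs_of_pos hϑ])) (abs_le.1 hu).1 (abs_le.1 hu).2
  · rw [norm_mul, Complex.norm_exp, hre] at hPL
    calc ‖f u‖ = ‖f u‖ * Real.exp (K * (u.re ^ 2 - u.im ^ 2)) * Real.exp (-(K * (u.re ^ 2 - u.im ^ 2))) := by
          rw [mul_assoc, ← Real.exp_add]; simp
      _ ≤ A * Real.exp (K * (1 + 2 * ϑ0 ^ 2)) * Real.exp (-(K * (u.re ^ 2 - u.im ^ 2))) := by gcongr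
      _ = A * Real.exp (K * (1 + 2 * ϑ0 ^ 2) + -(K * (u.re ^ 2 - u.im ^ 2))) := by
          rw [mul_assoc, ← Real.exp_add]
      _ ≤ _ := by
          have hA0 : 0 ≤ A := by
            have h1 := hA ϑ0 (by simp [abs_of_pos hϑ])
            by_contra hneg
            push Not at hneg
            have : A * Real.exp (K * (1 + ‖(ϑ0 : ℂ)‖ ^ 2)) < 0 :=
              mul_neg_of_neg_of_pos hneg (Real.exp_pos _)
            linarith [norm_nonneg (f ϑ0)]
          have : K * (1 + 2 * ϑ0 ^ 2) + -(K * (u.re ^ 2 - u.im ^ 2)) ≤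
              K * (1 + 2 * ϑ0 ^ 2 + ‖u‖ ^ 2) := by
            rw [hn]
            nlinarith [mul_nonneg hK.le (sq_nonneg u.re)]
          gcongr
  · exact (hf.1.mul (by fun_prop)).diffContOnCl
  · refine ⟨0, div_pos Real.pi_pos (by linarith), 0, ?_⟩
    obtain ⟨K', hK', h⟩ := hf.2 K hK
    refine Asymptotics.IsBigO.of_bound (K' * Real.exp (2 * K * ϑ0 ^ 2)) ?_
    refine (Filter.Eventually.filter_mono inf_le_right ?_)
    rw [Filter.eventually_principal]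
    intro z hz
    have hz1 : -ϑ0 < z.re ∧ z.re < ϑ0 := hz
    have hz2 : z.re ^ 2 ≤ ϑ0 ^ 2 := by
      apply sq_le_sq'
      · linarith [hz1.1]
      · linarith [hz1.2]
    rw [norm_mul, Complex.norm_exp, hre]
    simp only [zero_mul, Real.exp_zero, norm_one, mul_one]
    calc ‖f z‖ * Real.exp (K * (z.re ^ 2 - z.im ^ 2))
        ≤ K' * Real.exp (K * ‖z‖ ^ 2) * Real.exp (K * (z.re ^ 2 - z.im ^ 2)) := by
          have := h z
          gcongr
      _ = K' * Real.exp (2 * K * z.re ^ 2) := by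
          rw [mul_assoc, ← Real.exp_add, hn]
          congr 2
          ring
      _ ≤ _ := by gcongr

/-- the unconditional data of `X(1/2 + i y + u)` -/
theorem ud_of (hm : 1 ≤ m) (hB : 1 ≤ B) (h : WL B N μ Λ) (y : ℝ) :
    UD (11 / 2 * (Real.log B + 24 * m)) (3 / 2) (gaD N μ (3 / 2 + y * I)).re
      (‖gaf N μ (3 / 2 + y * I)‖ * Real.exp (-(gaD N μ (3 / 2 + y * I)).re))
      (fun u : ℂ => XX N Λ (1 / 2 + (y : ℂ) * I + u)) := by
  have hm' : (1 : ℝ) ≤ m := by exact_mod_cast hm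
  have gp := gaf_GP hm h.one_le h.re_le
  have hlogB : 0 ≤ Real.log B := Real.log_nonneg hB
  have hBexp : B = Real.exp (Real.log B) := (Real.exp_log (by linarith)).symm
  obtain ⟨ε, hε, hfe⟩ := h.fe
  obtain ⟨ℓ, hℓ⟩ : ∃ ℓ : ℝ, ℓ = (gaD N μ (3 / 2 + y * I)).re := ⟨_, rfl⟩
  obtain ⟨G, hG⟩ : ∃ G : ℝ, G = ‖gaf N μ (3 / 2 + y * I)‖ * Real.exp (-ℓ) := ⟨_, rfl⟩
  obtain ⟨k, hk⟩ : ∃ k : ℝ, k = Real.log B + 24 * m := ⟨_, rfl⟩
  have hk0 : 0 < k := by rw [hk]; positivity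
  have hre : ∀ u : ℂ, (1 / 2 + (y : ℂ) * I + u : ℂ).re = 1 / 2 + u.re := fun u => by simp
  have hfe' : ∀ u : ℂ, XX N Λ (1 / 2 + (y : ℂ) * I + u) =
      ε * conj (XX N Λ (1 / 2 + (y : ℂ) * I + -conj u)) := by
    intro u
    rw [hfe]
    congr 3
    simp only [map_add, map_mul, map_div₀, map_one, map_ofNat, conj_ofReal, conj_I]
    ring
  rw [← hℓ, ← hG, ← hk]
  have hGpos : 0 < G := by
    rw [hG]
    have := norm_pos_iff.2 (gp.ne (3 / 2 + y * I) (by simp; norm_num))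
    positivity
  -- far to the right
  have hup0 : ∀ u : ℂ, 3 / 2 ≤ u.re → ‖XX N Λ (1 / 2 + (y : ℂ) * I + u)‖ ≤
      G * Real.exp (ℓ * u.re + k * (1 + ‖u‖ ^ 2)) := by
    intro u hu
    have hu2 : 0 ≤ ‖u‖ ^ 2 := by positivity
    have h1 := h.hi (1 / 2 + (y : ℂ) * I + u) (by rw [hre]; linarith)
    have h2 := (gam_loc gp y (u := u) (by linarith)).1
    rw [← hℓ, ← hG] at h2
    calc ‖XX N Λ (1 / 2 + (y : ℂ) * I + u)‖ ≤ B * ‖gaf N μ (1 / 2 + (y : ℂ) * I + u)‖ := h1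
      _ ≤ B * (G * Real.exp (ℓ * u.re + 4 * (6 * m) * (1 + ‖u‖ ^ 2))) := by gcongr
      _ = G * Real.exp (Real.log B + (ℓ * u.re + 4 * (6 * m) * (1 + ‖u‖ ^ 2))) := by
          rw [Real.exp_add (Real.log B), ← hBexp]; ring
      _ ≤ _ := by
          apply mul_le_mul_of_nonneg_left _ hGpos.le
          apply Real.exp_le_exp.2
          rw [hk]
          nlinarith [mul_nonneg hlogB hu2]
  have hup1 : ∀ u : ℂ, 3 / 2 ≤ |u.re| → ‖XX N Λ (1 / 2 + (y : ℂ) * I + u)‖ ≤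
      G * Real.exp (ℓ * |u.re| + k * (1 + ‖u‖ ^ 2)) := by
    intro u hu
    rcases le_total 0 u.re with h0 | h0
    · rw [abs_of_nonneg h0] at hu ⊢
      exact hup0 u hu
    · rw [abs_of_nonpos h0] at hu ⊢
      have h1 := hup0 (-conj u) (by rw [neg_re, conj_re]; exact hu)
      rw [norm_neg, Complex.norm_conj, neg_re, conj_re] at h1
      rw [hfe' u, norm_mul, hε, one_mul, Complex.norm_conj]
      exact h1
  have hslow : Slow (fun u : ℂ => XX N Λ (1 / 2 + (y : ℂ) * I + u)) := by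
    have := slow_shift h.slow (1 / 2 + (y : ℂ) * I)
    have e : (fun w : ℂ => XX N Λ (w + (1 / 2 + (y : ℂ) * I))) =
        fun u : ℂ => XX N Λ (1 / 2 + (y : ℂ) * I + u) := by
      funext w
      rw [add_comm]
    rw [← e]
    exact this
  refine { slow := hslow, fe := ⟨ε, hε, fun u => hfe' u⟩, hG := hGpos, up := fun u => ?_, lo := fun u hu => ?_ }
  · show ‖XX N Λ (1 / 2 + (y : ℂ) * I + u)‖ ≤ _
    have hu2 : 0 ≤ ‖u‖ ^ 2 := by positivity
    rcases le_total (3 / 2) |u.re| with h0 | h0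
    · rw [max_eq_left h0]
      refine (hup1 u h0).trans ?_
      apply mul_le_mul_of_nonneg_left _ hGpos.le
      apply Real.exp_le_exp.2
      have : 0 ≤ k * (1 + ‖u‖ ^ 2) := by positivity
      linarith
    · rw [max_eq_right h0]
      have h1 := strip hslow (K := k) (ϑ0 := 3 / 2) (A := G * Real.exp (ℓ * (3 / 2))) hk0 (by norm_num)
        (fun u hu => by
          have := hup1 u hu.symm.le
          rw [hu, Real.exp_add, ← mul_assoc] at this
          exact this) h0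
      refine h1.trans ?_
      rw [mul_assoc, ← Real.exp_add]
      apply mul_le_mul_of_nonneg_left _ hGpos.le
      apply Real.exp_le_exp.2
      nlinarith
  · show _ ≤ ‖XX N Λ (1 / 2 + (y : ℂ) * I + u)‖
    have hu2 : 0 ≤ ‖u‖ ^ 2 := by positivity
    have h1 := h.lo (1 / 2 + (y : ℂ) * I + u) (by rw [hre]; linarith)
    have h2 := (gam_loc gp y (u := u) (by linarith)).2
    rw [← hℓ, ← hG] at h2
    have h3 := h2.trans h1
    have h4 : G * Real.exp (ℓ * u.re - 11 / 2 * k * (1 + ‖u‖ ^ 2)) * B ≤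
        G * Real.exp (ℓ * u.re - 4 * (6 * m) * (1 + ‖u‖ ^ 2)) := by
      calc G * Real.exp (ℓ * u.re - 11 / 2 * k * (1 + ‖u‖ ^ 2)) * B =
          G * Real.exp (ℓ * u.re - 11 / 2 * k * (1 + ‖u‖ ^ 2) + Real.log B) := by
            rw [Real.exp_add, ← hBexp]; ring
        _ ≤ _ := by
            apply mul_le_mul_of_nonneg_left _ hGpos.le
            apply Real.exp_le_exp.2
            rw [hk]
            nlinarith [mul_nonneg hlogB hu2]
    have hB0 : 0 < B := by linarith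
    rw [← mul_le_mul_iff_left₀ hB0]
    refine h4.trans (h3.trans (le_of_eq (mul_comm _ _)))

/-- the local data -/
theorem ndW (m : ℕ) (hm : 1 ≤ m) (B : ℝ) (hB : 1 ≤ B) : ∃ K : ℝ, 1 ≤ K ∧ ∀ (N : ℝ) (μ : Fin m → ℂ)
    (Λ : ℂ → ℂ), WL B N μ Λ → ∀ y : ℝ, ND K (el N μ y) (fn N μ Λ y) := by
  have hm' : (1 : ℝ) ≤ m := by exact_mod_cast hm
  have hlogB : 0 ≤ Real.log B := Real.log_nonneg hB
  refine ⟨11 / 2 * (Real.log B + 24 * m), by linarith, fun N μ Λ h y => ?_⟩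
  have ud1 := ud_scale (ud_of hm hB h y)
  have hright : ∀ u : ℂ, fn N μ Λ y u = 0 → u.re ≤ 1 / 2 := by
    intro u hu
    rw [fn_zero hm h.one_le h.re_le] at hu
    by_contra hcon
    push Not at hcon
    refine h.nz _ ?_ hu
    simp
    linarith
  refine ⟨ud1, fun u hu => ?_⟩
  rw [abs_le]
  refine ⟨?_, hright u hu⟩
  obtain ⟨ε, hε, h1⟩ := ud1.fe
  have h2 : fn N μ Λ y (-conj u) = 0 := by
    have h3 := h1 (-conj u)
    have e1 : -conj (-conj u) = u := by simp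
    rw [e1] at h3
    have h4 : fn N μ Λ y (-conj u) = ε * conj (fn N μ Λ y u) := h3
    rw [h4, hu, map_zero, mul_zero]
  have h3 := hright _ h2
  simp at h3
  linarith

/-- the reflected zero -/
theorem WL.refl (h : WL B N μ Λ) {s : ℂ} (hs : Λ s = 0) : Λ (1 - conj s) = 0 := by
  obtain ⟨ε, hε, hfe⟩ := h.fe
  have hN : 0 < N := by linarith [h.one_le]
  have h1 : XX N Λ (1 - conj s) = 0 := by
    rw [hfe]
    have e1 : 1 - conj (1 - conj s) = s := by simp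
    rw [e1, (XX_zero hN).2 hs, map_zero, mul_zero]
  exact (XX_zero hN).1 h1

end Q240.OW
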