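import Pool.Agent.Q240.GS.Fam
import Pool.Agent.Q240.GS.N5
import Pool.Agent.Q240.OW.W1

/-!
# The local data of an L-function of the class
-/

set_option autoImplicit false

open Complex Set MeasureTheory Filter Topology
open scoped ComplexConjugate

namespace Q240.OW

open Pool.Agent.W169.HF H353.E H353.F Q240.GS

variable {m : ℕ}

theorem base_WE (m : ℕ) (hm : 1 ≤ m) (B : ℝ) (hB : 1 ≤ B) (Y e δ : ℝ) (hY : 0 ≤ Y) (he : 0 < e) (hδ : 0 < δ) : ∃ C0 : ℝ, 1 ≤ C0 ∧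
    ∀ (N : ℝ) (μ : Fin m → ℂ) (Λ : ℂ → ℂ), WL B N μ Λ → ∀ T : ℝ, C0 ≤ 2 * el N μ T →
    BaseE (fun s => LL μ Λ (s + T * I)) (2 * el N μ T) Y e 9 δ (EX μ T) ∧
    FEE (fun s => LL μ Λ (s + T * I)) (2 * el N μ T) Y e δ (EX μ T) := by
  obtain ⟨Kn, hKn, hnd⟩ := ndW m hm B hB
  obtain ⟨κ, hκ⟩ : ∃ κ : ℝ, κ = e / 2 := ⟨_, rfl⟩
  have hκ0 : 0 < κ := by rw [hκ]; positivity
  obtain ⟨R, ℓ0, hR, hP⟩ := prof_all Kn (3 / 2) (1 / 2) (1 / 8) κ (max 8 Y) hKn (by norm_num) (by norm_num)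
    (by norm_num) (by norm_num) (by norm_num) (by norm_num) hκ0 ((by norm_num : (1 : ℝ) ≤ 8).trans (le_max_left _ _))
  obtain ⟨δ', hδ'⟩ : ∃ δ' : ℝ, δ' = min δ 1 := ⟨_, rfl⟩
  have hδ'0 : 0 < δ' := by rw [hδ']; exact lt_min hδ one_pos
  have hδ'1 : δ' ≤ 1 := by rw [hδ']; exact min_le_right _ _
  have hδ'2 : δ' ≤ δ := by rw [hδ']; exact min_le_left _ _
  obtain ⟨K, hK⟩ : ∃ K : ℝ, K = KE m Y δ' 5 := ⟨_, rfl⟩
  have hK0 : 0 ≤ K := by rw [hK]; exact KE_nonneg m Y hδ'0 5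
  obtain ⟨D, hD⟩ : ∃ D : ℝ, D = Kn * (1 + (18 + Y) ^ 2) := ⟨_, rfl⟩
  have hD0 : 0 ≤ D := by rw [hD]; positivity
  refine ⟨max 1 (2 * max ℓ0 (K / κ + D + K)), le_max_left _ _, fun N μ Λ d T hT => ?_⟩
  have nd := hnd N μ Λ d T
  obtain ⟨ℓ, hℓ⟩ : ∃ ℓ : ℝ, ℓ = el N μ T := ⟨_, rfl⟩
  have hT1 := (le_max_right _ _).trans hT
  have hT2 := (le_max_left _ _).trans hT
  rw [← hℓ] at nd hT hT1 hT2
  have g1 : ℓ0 ≤ ℓ := by linarith [le_max_left ℓ0 (K / κ + D + K)]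
  have g2 : K / κ + D + K ≤ ℓ := by linarith [le_max_right ℓ0 (K / κ + D + K)]
  have hℓ0 : 0 < ℓ := by linarith
  have hq : 0 ≤ K / κ := by positivity
  have hKκ : K ≤ κ * ℓ := by
    have : K / κ ≤ ℓ := by linarith
    rwa [div_le_iff₀ hκ0, mul_comm] at this
  have hDℓ : D + K ≤ ℓ := by linarith
  obtain ⟨F, hF⟩ : ∃ F : ℂ → ℂ, F = fn N μ Λ T := ⟨_, rfl⟩
  rw [← hF] at nd
  have pf := hP ℓ 1 F g1 nd.ud (fun u hu _ h0 => by
    have := nd.zer u h0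
    rw [abs_le] at this
    linarith)
  rw [show (1 / 2 + 1 / 8 : ℝ) = 5 / 8 by norm_num] at pf
  have hcmp : ∀ {s : ℂ}, |s.im| ≤ Y → -7 ≤ s.re → s.re ≤ 8 →
      ‖LL μ Λ (s + T * I)‖ ≤ Real.exp (-(ℓ * (s.re - 1 / 2)) + K) * ‖F (s - 1 / 2)‖ ∧
      ((∀ z ∈ EX μ T, δ' ≤ ‖s - z‖) →
      Real.exp (-(ℓ * (s.re - 1 / 2)) - K) * ‖F (s - 1 / 2)‖ ≤ ‖LL μ Λ (s + T * I)‖) := by
    intro s h1 h2 h3
    rw [hℓ, hF, hK]
    exact cmp_winE hm d.one_le d.re_le Λ T Y hδ'0 hδ'1 h1 h2 h3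
  have hrefl : ∀ u : ℂ, ‖F u‖ = ‖F (-conj u)‖ := by
    intro u
    obtain ⟨ε', hε', hfe⟩ := nd.ud.fe
    rw [hfe u, norm_mul, hε', one_mul, Complex.norm_conj]
  have hL : 2 * el N μ T = 2 * ℓ := by rw [hℓ]
  rw [hL]
  refine ⟨⟨⟨?_, ?_, ?_⟩, ?_, ?_⟩, ?_⟩
  · intro s _ _ _
    have h1 : Differentiable ℂ (fun s => LL μ Λ (s + T * I)) := (LL_diff d.entire).comp (by fun_prop)
    exact h1.analyticAt s
  · intro s h1 h2 h3
    obtain ⟨c2, -⟩ := hcmp h1 h2 (by linarith)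
    have p2 := nd.ud.up (s - 1 / 2)
    have e1 : (s - 1 / 2 : ℂ).re = s.re - 1 / 2 := by simp
    have e2 : (s - 1 / 2 : ℂ).im = s.im := by simp
    rw [one_mul, e1] at p2
    have h5 : |s.re - 1 / 2| ≤ 8 := by rw [abs_le]; constructor <;> linarith
    have h4 : ‖s - 1 / 2‖ ^ 2 ≤ (18 + Y) ^ 2 := by
      apply pow_le_pow_left₀ (norm_nonneg _)
      have := Complex.norm_le_abs_re_add_abs_im (s - 1 / 2)
      rw [e1, e2] at this
      linarith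
    have h6 : Kn * (1 + ‖s - 1 / 2‖ ^ 2) ≤ D := by
      rw [hD]
      apply mul_le_mul_of_nonneg_left _ (by linarith)
      linarith
    have h7 : ℓ * max |s.re - 1 / 2| (3 / 2) ≤ ℓ * 8 := by
      apply mul_le_mul_of_nonneg_left _ hℓ0.le
      exact max_le h5 (by norm_num)
    have h8 : -(ℓ * (s.re - 1 / 2)) ≤ ℓ * 8 := by
      have := abs_le.1 h5
      nlinarith
    calc ‖LL μ Λ (s + T * I)‖ ≤ _ := c2
      _ ≤ Real.exp (-(ℓ * (s.re - 1 / 2)) + K) *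
          Real.exp (ℓ * max |s.re - 1 / 2| (3 / 2) + Kn * (1 + ‖s - 1 / 2‖ ^ 2)) := by gcongr
      _ = Real.exp ((-(ℓ * (s.re - 1 / 2)) + K) +
          (ℓ * max |s.re - 1 / 2| (3 / 2) + Kn * (1 + ‖s - 1 / 2‖ ^ 2))) := (Real.exp_add _ _).symm
      _ ≤ _ := by
          apply Real.exp_le_exp.2
          linarith
  · intro s h1 h2 h3
    obtain ⟨c2, -⟩ := hcmp h1 (by linarith) (by linarith)
    have e1 : (s - 1 / 2 : ℂ).re = s.re - 1 / 2 := by simp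
    have e2 : (s - 1 / 2 : ℂ).im = s.im := by simp
    have p2 := pf.upp (s - 1 / 2) (by rw [e1, abs_of_nonneg (by linarith)]; linarith [le_max_left 8 Y])
      (by rw [e2]; exact h1.trans (le_max_right _ _))
    rw [e1, one_mul, abs_of_nonneg (by linarith), max_eq_left (by linarith)] at p2
    have h9 : κ * ℓ + K ≤ 2 * ℓ * e := by rw [hκ] at hKκ ⊢; linarith
    calc ‖LL μ Λ (s + T * I)‖ ≤ _ := c2
      _ ≤ Real.exp (-(ℓ * (s.re - 1 / 2)) + K) * Real.exp (ℓ * (s.re - 1 / 2) + κ * ℓ) := by gcongr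
      _ = Real.exp ((-(ℓ * (s.re - 1 / 2)) + K) + (ℓ * (s.re - 1 / 2) + κ * ℓ)) := (Real.exp_add _ _).symm
      _ ≤ _ := by
          apply Real.exp_le_exp.2
          linarith
  · intro s h1 h2 h3
    obtain ⟨c2, -⟩ := hcmp h1 h2 (by linarith)
    have e1 : (-conj (s - 1 / 2)).re = 1 / 2 - s.re := by simp
    have e2 : (-conj (s - 1 / 2)).im = s.im := by simp
    have p2 := pf.upp (-conj (s - 1 / 2)) (by rw [e1, abs_of_nonneg (by linarith)]; linarith [le_max_left 8 Y])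
      (by rw [e2]; exact h1.trans (le_max_right _ _))
    rw [e1, one_mul, ← hrefl, abs_of_nonneg (by linarith), max_eq_left (by linarith)] at p2
    have h9 : κ * ℓ + K ≤ 2 * ℓ * e := by rw [hκ] at hKκ ⊢; linarith
    calc ‖LL μ Λ (s + T * I)‖ ≤ _ := c2
      _ ≤ Real.exp (-(ℓ * (s.re - 1 / 2)) + K) * Real.exp (ℓ * (1 / 2 - s.re) + κ * ℓ) := by gcongr
      _ = Real.exp ((-(ℓ * (s.re - 1 / 2)) + K) + (ℓ * (1 / 2 - s.re) + κ * ℓ)) := (Real.exp_add _ _).symm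
      _ ≤ _ := by
          apply Real.exp_le_exp.2
          linarith
  · intro s h1 h2 h3 h4
    obtain ⟨-, c1⟩ := hcmp h1 h2 (by linarith)
    have c1 := c1 fun z hz => hδ'2.trans (h4 z hz)
    have e1 : (-conj (s - 1 / 2)).re = 1 / 2 - s.re := by simp
    have e2 : (-conj (s - 1 / 2)).im = s.im := by simp
    have p1 := pf.low (-conj (s - 1 / 2)) (by rw [e1]; linarith)
      (by rw [e1]; linarith [le_max_left 8 Y]) (by rw [e2]; exact h1.trans (le_max_right _ _))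
    rw [e1, one_mul, ← hrefl] at p1
    have h9 : κ * ℓ + K ≤ 2 * ℓ * e := by rw [hκ] at hKκ ⊢; linarith
    calc Real.exp (2 * ℓ * (1 / 2 - s.re - e)) ≤
        Real.exp ((-(ℓ * (s.re - 1 / 2)) - K) + (ℓ * (1 / 2 - s.re) - κ * ℓ)) := by
          apply Real.exp_le_exp.2
          linarith
      _ = Real.exp (-(ℓ * (s.re - 1 / 2)) - K) * Real.exp (ℓ * (1 / 2 - s.re) - κ * ℓ) := Real.exp_add _ _
      _ ≤ Real.exp (-(ℓ * (s.re - 1 / 2)) - K) * ‖F (s - 1 / 2)‖ := by gcongr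
      _ ≤ _ := c1
  · intro s h1 h2 h3 h4
    obtain ⟨c2, -⟩ := hcmp h1 (by linarith) (by linarith)
    have e1 : (1 - conj s : ℂ).re = 1 - s.re := by simp
    have e2 : (1 - conj s : ℂ).im = s.im := by simp
    obtain ⟨-, d1⟩ := hcmp (s := 1 - conj s) (by rw [e2]; exact h1) (by rw [e1]; linarith) (by rw [e1]; linarith)
    have d1 := d1 fun z hz => hδ'2.trans (h4 z hz)
    rw [e1] at d1
    have e3 : (1 - conj s - 1 / 2 : ℂ) = -conj (s - 1 / 2) := by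
      rw [map_sub]
      have : conj (1 / 2 : ℂ) = 1 / 2 := by rw [map_div₀, map_one, map_ofNat]
      rw [this]; ring
    rw [e3, ← hrefl] at d1
    have h5 : ‖F (s - 1 / 2)‖ ≤ Real.exp (ℓ * (1 / 2 - s.re) + K) * ‖LL μ Λ (1 - conj s + T * I)‖ := by
      calc ‖F (s - 1 / 2)‖ = Real.exp (ℓ * (1 / 2 - s.re) + K) *
          (Real.exp (-(ℓ * (1 - s.re - 1 / 2)) - K) * ‖F (s - 1 / 2)‖) := by
            rw [← mul_assoc, ← Real.exp_add]
            have : ℓ * (1 / 2 - s.re) + K + (-(ℓ * (1 - s.re - 1 / 2)) - K) = 0 := by ring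
            rw [this, Real.exp_zero, one_mul]
        _ ≤ _ := mul_le_mul_of_nonneg_left d1 (Real.exp_pos _).le
    have h9 : 2 * K ≤ 2 * ℓ * e := by rw [hκ] at hKκ; linarith
    show ‖LL μ Λ (s + T * I)‖ ≤ Real.exp (2 * ℓ * (1 / 2 - s.re + e)) * ‖LL μ Λ (1 - conj s + T * I)‖
    calc ‖LL μ Λ (s + T * I)‖ ≤ _ := c2
      _ ≤ Real.exp (-(ℓ * (s.re - 1 / 2)) + K) *
          (Real.exp (ℓ * (1 / 2 - s.re) + K) * ‖LL μ Λ (1 - conj s + T * I)‖) := by gcongr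
      _ = Real.exp ((-(ℓ * (s.re - 1 / 2)) + K) + (ℓ * (1 / 2 - s.re) + K)) *
          ‖LL μ Λ (1 - conj s + T * I)‖ := by rw [← mul_assoc, ← Real.exp_add]
      _ ≤ _ := by
          apply mul_le_mul_of_nonneg_right _ (norm_nonneg _)
          apply Real.exp_le_exp.2
          linarith

theorem base_W (m : ℕ) (hm : 1 ≤ m) (B : ℝ) (hB : 1 ≤ B) (Y e : ℝ) (hY : 0 ≤ Y) (he : 0 < e) : ∃ C0 : ℝ, 1 ≤ C0 ∧
    ∀ (N : ℝ) (μ : Fin m → ℂ) (Λ : ℂ → ℂ), WL B N μ Λ → ∀ T : ℝ, C0 ≤ 2 * el N μ T → (∀ j, Y + 1 ≤ |T - (μ j).im|) →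
    Base (fun s => LL μ Λ (s + T * I)) (2 * el N μ T) Y e 9 ∧
    FE (fun s => LL μ Λ (s + T * I)) (2 * el N μ T) Y e := by
  obtain ⟨Kn, hKn, hnd⟩ := ndW m hm B hB
  obtain ⟨κ, hκ⟩ : ∃ κ : ℝ, κ = e / 2 := ⟨_, rfl⟩
  have hκ0 : 0 < κ := by rw [hκ]; positivity
  obtain ⟨R, ℓ0, hR, hP⟩ := prof_all Kn (3 / 2) (1 / 2) (1 / 8) κ (max 8 Y) hKn (by norm_num) (by norm_num)
    (by norm_num) (by norm_num) (by norm_num) (by norm_num) hκ0 ((by norm_num : (1 : ℝ) ≤ 8).trans (le_max_left _ _))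
  have hK0 := KW_nonneg m Y
  obtain ⟨D, hD⟩ : ∃ D : ℝ, D = Kn * (1 + (18 + Y) ^ 2) := ⟨_, rfl⟩
  have hD0 : 0 ≤ D := by rw [hD]; positivity
  refine ⟨max 1 (2 * max ℓ0 (KW m Y / κ + D + KW m Y)), le_max_left _ _, fun N μ Λ d T hT hTj => ?_⟩
  have nd := hnd N μ Λ d T
  obtain ⟨ℓ, hℓ⟩ : ∃ ℓ : ℝ, ℓ = el N μ T := ⟨_, rfl⟩
  have hT1 := (le_max_right _ _).trans hT
  have hT2 := (le_max_left _ _).trans hT
  rw [← hℓ] at nd hT hT1 hT2
  have g1 : ℓ0 ≤ ℓ := by linarith [le_max_left ℓ0 (KW m Y / κ + D + KW m Y)]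
  have g2 : KW m Y / κ + D + KW m Y ≤ ℓ := by linarith [le_max_right ℓ0 (KW m Y / κ + D + KW m Y)]
  have hℓ0 : 0 < ℓ := by linarith
  have hq : 0 ≤ KW m Y / κ := by positivity
  have hKκ : KW m Y ≤ κ * ℓ := by
    have : KW m Y / κ ≤ ℓ := by linarith
    rwa [div_le_iff₀ hκ0, mul_comm] at this
  have hDℓ : D + KW m Y ≤ ℓ := by linarith
  obtain ⟨F, hF⟩ : ∃ F : ℂ → ℂ, F = fn N μ Λ T := ⟨_, rfl⟩
  rw [← hF] at nd
  have pf := hP ℓ 1 F g1 nd.ud (fun u hu _ h0 => by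
    have := nd.zer u h0
    rw [abs_le] at this
    linarith)
  rw [show (1 / 2 + 1 / 8 : ℝ) = 5 / 8 by norm_num] at pf
  have hcmp : ∀ {s : ℂ}, |s.im| ≤ Y → -7 ≤ s.re → s.re ≤ 8 →
      Real.exp (-(ℓ * (s.re - 1 / 2)) - KW m Y) * ‖F (s - 1 / 2)‖ ≤ ‖LL μ Λ (s + T * I)‖ ∧
      ‖LL μ Λ (s + T * I)‖ ≤ Real.exp (-(ℓ * (s.re - 1 / 2)) + KW m Y) * ‖F (s - 1 / 2)‖ := by
    intro s h1 h2 h3
    rw [hℓ, hF]
    exact cmp_win hm d.one_le d.re_le Λ T Y hY hTj h1 h2 h3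
  have hrefl : ∀ u : ℂ, ‖F u‖ = ‖F (-conj u)‖ := by
    intro u
    obtain ⟨ε', hε', hfe⟩ := nd.ud.fe
    rw [hfe u, norm_mul, hε', one_mul, Complex.norm_conj]
  have hL : 2 * el N μ T = 2 * ℓ := by rw [hℓ]
  rw [hL]
  refine ⟨⟨?_, ?_, ?_, ?_⟩, ?_⟩
  · intro s _ _ _
    have h1 : Differentiable ℂ (fun s => LL μ Λ (s + T * I)) := (LL_diff d.entire).comp (by fun_prop)
    exact h1.analyticAt s
  · intro s h1 h2 h3
    obtain ⟨c1, c2⟩ := hcmp h1 h2 (by linarith)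
    have e1 : (-conj (s - 1 / 2)).re = 1 / 2 - s.re := by simp
    have e2 : (-conj (s - 1 / 2)).im = s.im := by simp
    have p1 := pf.low (-conj (s - 1 / 2)) (by rw [e1]; linarith)
      (by rw [e1]; linarith [le_max_left 8 Y]) (by rw [e2]; exact h1.trans (le_max_right _ _))
    have p2 := pf.upp (-conj (s - 1 / 2)) (by rw [e1, abs_of_nonneg (by linarith)]; linarith [le_max_left 8 Y])
      (by rw [e2]; exact h1.trans (le_max_right _ _))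
    rw [e1, one_mul, ← hrefl] at p1 p2
    rw [abs_of_nonneg (by linarith), max_eq_left (by linarith)] at p2
    have h9 : κ * ℓ + KW m Y ≤ 2 * ℓ * e := by rw [hκ] at hKκ ⊢; linarith
    constructor
    · calc Real.exp (2 * ℓ * (1 / 2 - s.re - e)) ≤
          Real.exp ((-(ℓ * (s.re - 1 / 2)) - KW m Y) + (ℓ * (1 / 2 - s.re) - κ * ℓ)) := by
            apply Real.exp_le_exp.2
            linarith
        _ = Real.exp (-(ℓ * (s.re - 1 / 2)) - KW m Y) * Real.exp (ℓ * (1 / 2 - s.re) - κ * ℓ) := Real.exp_add _ _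
        _ ≤ Real.exp (-(ℓ * (s.re - 1 / 2)) - KW m Y) * ‖F (s - 1 / 2)‖ := by gcongr
        _ ≤ _ := c1
    · calc ‖LL μ Λ (s + T * I)‖ ≤ _ := c2
        _ ≤ Real.exp (-(ℓ * (s.re - 1 / 2)) + KW m Y) * Real.exp (ℓ * (1 / 2 - s.re) + κ * ℓ) := by gcongr
        _ = Real.exp ((-(ℓ * (s.re - 1 / 2)) + KW m Y) + (ℓ * (1 / 2 - s.re) + κ * ℓ)) := (Real.exp_add _ _).symm
        _ ≤ _ := by
            apply Real.exp_le_exp.2
            linarith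
  · intro s h1 h2 h3
    obtain ⟨c1, c2⟩ := hcmp h1 h2 (by linarith)
    have p2 := nd.ud.up (s - 1 / 2)
    have e1 : (s - 1 / 2 : ℂ).re = s.re - 1 / 2 := by simp
    have e2 : (s - 1 / 2 : ℂ).im = s.im := by simp
    rw [one_mul, e1] at p2
    have h5 : |s.re - 1 / 2| ≤ 8 := by rw [abs_le]; constructor <;> linarith
    have h4 : ‖s - 1 / 2‖ ^ 2 ≤ (18 + Y) ^ 2 := by
      apply pow_le_pow_left₀ (norm_nonneg _)
      have := Complex.norm_le_abs_re_add_abs_im (s - 1 / 2)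
      rw [e1, e2] at this
      linarith
    have h6 : Kn * (1 + ‖s - 1 / 2‖ ^ 2) ≤ D := by
      rw [hD]
      apply mul_le_mul_of_nonneg_left _ (by linarith)
      linarith
    have h7 : ℓ * max |s.re - 1 / 2| (3 / 2) ≤ ℓ * 8 := by
      apply mul_le_mul_of_nonneg_left _ hℓ0.le
      exact max_le h5 (by norm_num)
    have h8 : -(ℓ * (s.re - 1 / 2)) ≤ ℓ * 8 := by
      have := abs_le.1 h5
      nlinarith
    calc ‖LL μ Λ (s + T * I)‖ ≤ _ := c2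
      _ ≤ Real.exp (-(ℓ * (s.re - 1 / 2)) + KW m Y) *
          Real.exp (ℓ * max |s.re - 1 / 2| (3 / 2) + Kn * (1 + ‖s - 1 / 2‖ ^ 2)) := by gcongr
      _ = Real.exp ((-(ℓ * (s.re - 1 / 2)) + KW m Y) +
          (ℓ * max |s.re - 1 / 2| (3 / 2) + Kn * (1 + ‖s - 1 / 2‖ ^ 2))) := (Real.exp_add _ _).symm
      _ ≤ _ := by
          apply Real.exp_le_exp.2
          linarith
  · intro s h1 h2 h3
    obtain ⟨c1, c2⟩ := hcmp h1 (by linarith) (by linarith)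
    have e1 : (s - 1 / 2 : ℂ).re = s.re - 1 / 2 := by simp
    have e2 : (s - 1 / 2 : ℂ).im = s.im := by simp
    have p2 := pf.upp (s - 1 / 2) (by rw [e1, abs_of_nonneg (by linarith)]; linarith [le_max_left 8 Y])
      (by rw [e2]; exact h1.trans (le_max_right _ _))
    rw [e1, one_mul, abs_of_nonneg (by linarith), max_eq_left (by linarith)] at p2
    have h9 : κ * ℓ + KW m Y ≤ 2 * ℓ * e := by rw [hκ] at hKκ ⊢; linarith
    calc ‖LL μ Λ (s + T * I)‖ ≤ _ := c2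
      _ ≤ Real.exp (-(ℓ * (s.re - 1 / 2)) + KW m Y) * Real.exp (ℓ * (s.re - 1 / 2) + κ * ℓ) := by gcongr
      _ = Real.exp ((-(ℓ * (s.re - 1 / 2)) + KW m Y) + (ℓ * (s.re - 1 / 2) + κ * ℓ)) := (Real.exp_add _ _).symm
      _ ≤ _ := by
          apply Real.exp_le_exp.2
          linarith
  · intro s h1 h2 h3
    obtain ⟨c1, c2⟩ := hcmp h1 (by linarith) (by linarith)
    have e1 : (1 - conj s : ℂ).re = 1 - s.re := by simp
    have e2 : (1 - conj s : ℂ).im = s.im := by simp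
    obtain ⟨d1, d2⟩ := hcmp (s := 1 - conj s) (by rw [e2]; exact h1) (by rw [e1]; linarith) (by rw [e1]; linarith)
    rw [e1] at d1
    have e3 : (1 - conj s - 1 / 2 : ℂ) = -conj (s - 1 / 2) := by
      rw [map_sub]
      have : conj (1 / 2 : ℂ) = 1 / 2 := by rw [map_div₀, map_one, map_ofNat]
      rw [this]; ring
    rw [e3, ← hrefl] at d1
    have h5 : ‖F (s - 1 / 2)‖ ≤ Real.exp (ℓ * (1 / 2 - s.re) + KW m Y) * ‖LL μ Λ (1 - conj s + T * I)‖ := by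
      calc ‖F (s - 1 / 2)‖ = Real.exp (ℓ * (1 / 2 - s.re) + KW m Y) *
          (Real.exp (-(ℓ * (1 - s.re - 1 / 2)) - KW m Y) * ‖F (s - 1 / 2)‖) := by
            rw [← mul_assoc, ← Real.exp_add]
            have : ℓ * (1 / 2 - s.re) + KW m Y + (-(ℓ * (1 - s.re - 1 / 2)) - KW m Y) = 0 := by ring
            rw [this, Real.exp_zero, one_mul]
        _ ≤ _ := mul_le_mul_of_nonneg_left d1 (Real.exp_pos _).le
    have h9 : 2 * KW m Y ≤ 2 * ℓ * e := by rw [hκ] at hKκ; linarith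
    show ‖LL μ Λ (s + T * I)‖ ≤ Real.exp (2 * ℓ * (1 / 2 - s.re + e)) * ‖LL μ Λ (1 - conj s + T * I)‖
    calc ‖LL μ Λ (s + T * I)‖ ≤ _ := c2
      _ ≤ Real.exp (-(ℓ * (s.re - 1 / 2)) + KW m Y) *
          (Real.exp (ℓ * (1 / 2 - s.re) + KW m Y) * ‖LL μ Λ (1 - conj s + T * I)‖) := by gcongr
      _ = Real.exp ((-(ℓ * (s.re - 1 / 2)) + KW m Y) + (ℓ * (1 / 2 - s.re) + KW m Y)) *
          ‖LL μ Λ (1 - conj s + T * I)‖ := by rw [← mul_assoc, ← Real.exp_add]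
      _ ≤ _ := by
          apply mul_le_mul_of_nonneg_right _ (norm_nonneg _)
          apply Real.exp_le_exp.2
          linarith

end Q240.OW
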