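import Pool.Agent.Q240.GS.N6
import Pool.Agent.Q240.OW.W2

/-!
# Shadows for the L-functions of the class
-/

set_option autoImplicit false

open Complex Set MeasureTheory Filter Topology Polynomial Metric
open scoped ComplexConjugate

namespace Q240.OW

open Pool.Agent.W169.HF H353.E H353.F Q240.GS

variable {m : ℕ}

theorem base_NW (m : ℕ) (hm : 1 ≤ m) (M0 : ℝ) (hM0 : 1 ≤ M0) (Y e : ℝ) (hY : 0 ≤ Y) (he : 0 < e) : ∃ C0 : ℝ, 1 ≤ C0 ∧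
    ∀ (N : ℝ) (μ : Fin m → ℂ) (Λ : ℂ → ℂ), WL M0 N μ Λ → (∀ j, (μ j).re ≤ -1 / 2) → ∀ T : ℝ, C0 ≤ 2 * el N μ T →
    BaseN (fun s => LL μ Λ (s + T * I)) (2 * el N μ T) Y e 9 := by
  obtain ⟨C0, hC0, H⟩ := base_WE m hm M0 hM0 Y e (1 / 16) hY he (by norm_num)
  refine ⟨C0, hC0, ?_⟩
  intro N μ Λ d hμ T hT
  obtain ⟨h, -⟩ := H N μ Λ d T hT
  have hE : ∀ s : ℂ, -7 / 16 ≤ s.re → ∀ z ∈ EX μ T, 1 / 16 ≤ ‖s - z‖ := by
    intro s hs z hz
    have h1 : z.re ≤ -1 / 2 := by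
      unfold EX at hz
      obtain ⟨⟨j, i⟩, -, rfl⟩ := Finset.mem_image.1 hz
      have h1 := hμ j
      have h2 : (0 : ℝ) ≤ i := Nat.cast_nonneg i
      simp
      linarith
    have h2 : (s - z).re ≤ ‖s - z‖ := (le_abs_self _).trans (abs_re_le_norm _)
    rw [sub_re] at h2
    linarith
  exact ⟨fun s a1 a2 a3 => h.an s a1 (by linarith) a3,
    fun s a1 a2 a3 => ⟨h.low s a1 (by linarith) a3 (hE s a2), h.upp s a1 (by linarith) a3⟩,
    fun s a1 a2 a3 => h.grow s a1 (by linarith) a3, fun s a1 a2 a3 => h.right s a1 a2 a3⟩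

/-- **Shadows at every height.** -/
theorem shadow_NW (hm : 1 ≤ m) {M0 : ℝ} (hM0 : 1 ≤ M0) (P Q : ℂ[X]) (hP : P ≠ 0) (hQ : Q ≠ 0) (S R : Finset ℝ) (B α ε : ℝ) (hB : 0 ≤ B)
    (hα : α ≤ 1 / 2) (hε : 0 < ε) : ∃ X : ℝ, 1 ≤ X ∧ ∀ (N : ℝ) (μ : Fin m → ℂ) (Λ : ℂ → ℂ), WL M0 N μ Λ →
    (∀ j, (μ j).re ≤ -1 / 2) →
    ∀ c d : ℝ → ℂ, (∀ l ∈ S, ‖c l‖ ≤ B) → (∀ l ∈ R, ‖d l‖ ≤ B) → ∀ ρ : ℂ, X ≤ Real.log (cnd N μ ρ.im) →
    FF μ Λ P S c ρ = 0 → -1 / 4 ≤ ρ.re → ρ.re ≤ α - ε →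
      ∃ s : ℂ, FF μ Λ Q R d s = 0 ∧ -1 / 4 < s.re ∧ s.re < α ∧ |s.im - ρ.im| ≤ X := by
  obtain ⟨e, L0, C, he, hL0, hC, H⟩ := shadowN P Q hP hQ S R B 9 hB (by norm_num) α ε hε hα
  obtain ⟨C0, hC0, HB⟩ := base_NW m hm M0 hM0 C e (by linarith) he
  have hm0 : (0 : ℝ) ≤ m := Nat.cast_nonneg m
  refine ⟨C + (L0 + C0 + 28 * m), by linarith [show 0 ≤ L0 + C0 + 28 * m by positivity], ?_⟩
  intro N μ Λ hO hμ c d hc hd ρ hlog hρ h1 h2
  obtain ⟨T, hT⟩ : ∃ T : ℝ, T = ρ.im := ⟨_, rfl⟩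
  rw [← hT] at hlog
  have hO' := hO
  have D := hO'
  obtain ⟨b1, b2⟩ := el_bd D.one_le D.re_le T
  have hb := HB N μ Λ hO hμ T (by linarith)
  obtain ⟨s, s1, s2, s3, s4⟩ := H (fun s => LL μ Λ (s + T * I)) (tw (ext0 S c) T) (tw (ext0 R d) T)
    (2 * el N μ T) C (by linarith) (fun l => by rw [tw_norm]; exact ext0_le S c hB hc l)
    (fun l => by rw [tw_norm]; exact ext0_le R d hB hd l) hb (ρ - T * I)
    (by
      rw [LD_shift, sub_add_cancel, LD_congr (LL μ Λ) P S (fun l hl => ext0_mem S c hl)]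
      exact hρ)
    (by simpa using h1) (by simpa using h2) (by simp [hT])
  refine ⟨s + T * I, ?_, by simpa using s2, by simpa using s3, ?_⟩
  · rw [LD_shift, LD_congr (LL μ Λ) Q R (fun l hl => ext0_mem R d hl)] at s1
    exact s1
  · have e1 : (s + T * I).im - ρ.im = s.im - (ρ - T * I).im := by simp; ring
    rw [e1]
    linarith [show 0 ≤ L0 + C0 + 28 * m by positivity]

theorem log_nearW {M0 N : ℝ} {μ : Fin m → ℂ} {Λ : ℂ → ℂ} (h : WL M0 N μ Λ) {y T X : ℝ}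
    (hX : 0 ≤ X) (hy : |T - y| ≤ X) :
    Real.log (cnd N μ y) ≤ Real.log (cnd N μ T) + m * Real.log (1 + X) := by
  have d := h
  have h1 := logm_shift d.one_le μ (y := y) (y' := T) (R := X) (hy.trans (le_abs_self X))
  rwa [abs_of_nonneg hX] at h1

/-- **Zeros on both sides, for a family.** -/
theorem bothNW (hm : 1 ≤ m) {M0 : ℝ} (hM0 : 1 ≤ M0) (P : ℂ[X]) (hP : P ≠ 0) (S : Finset ℝ) (B α : ℝ) (hB : 0 ≤ B) (hα : α ≤ 1 / 2)
    {ι : Type*} (N : ι → ℝ) (μ : ι → Fin m → ℂ) (Λ : ι → ℂ → ℂ) (hO : ∀ i, WL M0 (N i) (μ i) (Λ i))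
    (hμ : ∀ i, ∀ j, (μ i j).re ≤ -1 / 2)
    (c : ι → ℝ → ℂ) (hc : ∀ i, ∀ l ∈ S, ‖c i l‖ ≤ B) :
    (∀ ε : ℝ, 0 < ε → ∃ X : ℝ, ∀ i, ∀ ρ : ℂ, Λ i ρ = 0 → X ≤ Real.log (cnd (N i) (μ i) ρ.im) →
      ρ.re < 1 - α + ε) ↔
    (∀ ε : ℝ, 0 < ε → ∃ X : ℝ, ∀ i, ∀ ρ : ℂ, FF (μ i) (Λ i) P S (c i) ρ = 0 →
      X ≤ Real.log (cnd (N i) (μ i) ρ.im) → -1 / 4 ≤ ρ.re → α - ε < ρ.re) := by
  have hm0 : (0 : ℝ) ≤ m := Nat.cast_nonneg m
  constructor
  · intro h ε hε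
    obtain ⟨X0, hX0⟩ := h (ε / 2) (by positivity)
    obtain ⟨X1, hX1, H⟩ := shadow_NW hm hM0 P 1 hP one_ne_zero S ∅ B (α - ε / 2) (ε / 2) hB (by linarith) (by positivity)
    have hk : 0 ≤ m * Real.log (1 + X1) := mul_nonneg hm0 (Real.log_nonneg (by linarith))
    refine ⟨|X0| + X1 + m * Real.log (1 + X1), fun i ρ hρ hfar h1 => ?_⟩
    by_contra hcon
    push Not at hcon
    have hab := le_abs_self X0
    have hab0 := abs_nonneg X0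
    obtain ⟨s, s1, s2, s3, s4⟩ := H (N i) (μ i) (Λ i) (hO i) (hμ i) (c i) (fun _ => 0) (hc i) (by simp) ρ
      (by linarith) hρ h1 (by linarith)
    rw [FF_one] at s1
    have hsf : X0 ≤ Real.log (cnd (N i) (μ i) s.im) := by
      have h2 := log_nearW (hO i) (y := ρ.im) (T := s.im) (X := X1) (by linarith) s4
      linarith
    have h7 : Λ i s = 0 := (LL_zeroN (hμ i) (by linarith)).1 s1
    have h9 : (1 - conj s : ℂ).im = s.im := by simp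
    have h8 := hX0 i _ ((hO i).refl h7) (by rw [h9]; exact hsf)
    have h9 : (1 - conj s : ℂ).re = 1 - s.re := by simp
    rw [h9] at h8
    linarith
  · intro h ε hε
    obtain ⟨X0, hX0⟩ := h (ε / 2) (by positivity)
    obtain ⟨X1, hX1, H⟩ := shadow_NW hm hM0 1 P one_ne_zero hP ∅ S B (α - ε / 2) (ε / 2) hB (by linarith) (by positivity)
    have hk : 0 ≤ m * Real.log (1 + X1) := mul_nonneg hm0 (Real.log_nonneg (by linarith))
    refine ⟨|X0| + X1 + m * Real.log (1 + X1), fun i ρ hρ hfar => ?_⟩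
    by_contra hcon
    push Not at hcon
    have hab := le_abs_self X0
    have hab0 := abs_nonneg X0
    have hnz := (hO i).nz
    have hρ1 : ρ.re ≤ 1 := by
      by_contra h2
      push Not at h2
      exact hnz ρ h2 hρ
    have e1 : (1 - conj ρ : ℂ).re = 1 - ρ.re := by simp
    have e2 : (1 - conj ρ : ℂ).im = ρ.im := by simp
    have hρ2 := (hO i).refl hρ
    have hρ3 : FF (μ i) (Λ i) 1 ∅ (fun _ => 0) (1 - conj ρ) = 0 := by
      rw [FF_one]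
      unfold LL
      rw [hρ2, zero_mul]
    obtain ⟨s, s1, s2, s3, s4⟩ := H (N i) (μ i) (Λ i) (hO i) (hμ i) (fun _ => 0) (c i) (by simp) (hc i)
      (1 - conj ρ) (by rw [e2]; linarith) hρ3 (by rw [e1]; linarith) (by rw [e1]; linarith)
    rw [e2] at s4
    have hsf : X0 ≤ Real.log (cnd (N i) (μ i) s.im) := by
      have h2 := log_nearW (hO i) (y := ρ.im) (T := s.im) (X := X1) (by linarith) s4
      linarith
    have h8 := hX0 i s s1 hsf (by linarith)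
    linarith

/-- at most `K log C` zeros with `-2 ≤ Re s ≤ 1/2` in a window, `C` the analytic conductor -/
theorem left_countW (hm : 1 ≤ m) {M0 : ℝ} (hM0 : 1 ≤ M0) (P : ℂ[X]) (hP : P ≠ 0) (S : Finset ℝ) (B : ℝ) (hB : 0 ≤ B) :
    ∃ K C₀ : ℝ, 0 < K ∧ ∀ (N : ℝ) (μ : Fin m → ℂ) (Λ : ℂ → ℂ),
    WL M0 N μ Λ → ∀ (c : ℝ → ℂ) (T : ℝ), (∀ l ∈ S, ‖c l‖ ≤ B) → C₀ ≤ Real.log (cnd N μ T) →
    AM (FF μ Λ P S c) (1 / 2) 1 T (K * Real.log (cnd N μ T)) := by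
  obtain ⟨l, hl⟩ : ∃ l : ℝ, l = 1 / (32 * (((5 * m : ℕ) : ℝ) + 1)) := ⟨_, rfl⟩
  have hl0 : 0 < l := by rw [hl]; positivity
  have hlM : (((5 * m : ℕ) : ℝ)) * (4 * l) ≤ 1 / 8 := by
    have : ((((5 * m : ℕ) : ℝ)) + 1) * (4 * l) = 1 / 8 := by rw [hl]; field_simp; norm_num
    nlinarith
  have hl1 : l ≤ 1 / 8 := by
    rw [hl]
    apply one_div_le_one_div_of_le (by norm_num)
    have : (0 : ℝ) ≤ ((5 * m : ℕ) : ℝ) := Nat.cast_nonneg _
    linarith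
  obtain ⟨e, L0, he, hL0, H⟩ := loc_LDE P hP S B 9 (1 / 2) (l / 3) hB (by norm_num) (by norm_num) (by positivity)
    (by linarith)
  obtain ⟨C0, hC0, HB⟩ := base_WE m hm M0 hM0 (4 + 1) e (l / 3) (by norm_num) he (by positivity)
  have hm0 : (0 : ℝ) ≤ m := Nat.cast_nonneg m
  have hlog2 : 0 < Real.log 2 := Real.log_pos one_lt_two
  refine ⟨20 / Real.log 2, L0 + C0 + 28 * m, by positivity, ?_⟩
  intro N μ Λ d c T hc hC
  obtain ⟨b1, b2⟩ := el_bd d.one_le d.re_le T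
  obtain ⟨L, hL⟩ : ∃ L : ℝ, L = 2 * el N μ T := ⟨_, rfl⟩
  obtain ⟨W, hW⟩ : ∃ W : ℝ, W = Real.log (cnd N μ T) := ⟨_, rfl⟩
  rw [← hL, ← hW] at b1 b2
  rw [← hW] at hC ⊢
  obtain ⟨hb, -⟩ := HB N μ Λ d T (by rw [← hL]; linarith)
  rw [← hL] at hb
  have hloc := H (fun s => LL μ Λ (s + T * I)) (tw c T) L 4 (EX μ T) (by linarith)
    (fun l hl => by rw [tw_norm]; exact hc l hl) hb
  obtain ⟨x, hx1, hx2, hx3⟩ := good_pt (EX μ T) (5 * m) (EX_card μ T) (-1 / 2) 0 (4 * l) (by positivity)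
  have hx4 : x ≤ -3 / 8 := by linarith
  have hL1 : 1 ≤ L := by linarith
  have key := hloc.low (⟨x, 0⟩ : ℂ) (by simp) (by simp only; linarith) (by simp only; linarith)
    (fun z hz => by have := hx3 z hz; linarith)
  obtain ⟨F, hF⟩ : ∃ F : ℂ → ℂ, F = LD (fun s => LL μ Λ (s + T * I)) P S (tw c T) := ⟨_, rfl⟩
  rw [← hF] at hloc key
  obtain ⟨z0, hz0⟩ : ∃ z0 : ℂ, z0 = ⟨x, 0⟩ := ⟨_, rfl⟩
  rw [← hz0] at key
  have e0 : z0.re = x := by rw [hz0]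
  have e0' : z0.im = 0 := by rw [hz0]
  rw [e0] at key
  have hone : 1 ≤ ‖F z0‖ := by
    refine le_trans (Real.one_le_exp ?_) key
    apply mul_nonneg (by linarith)
    linarith
  rw [am_shift, ← hF]
  intro Z hZ
  have hball : ∀ w ∈ closedBall z0 4, |w.im| ≤ 4 ∧ -6 ≤ w.re ∧ w.re ≤ 4 := by
    intro w hw
    rw [mem_closedBall, dist_eq_norm] at hw
    have h4 := abs_le.1 ((abs_re_le_norm (w - z0)).trans hw)
    have h5 := (abs_im_le_norm (w - z0)).trans hw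
    rw [sub_re, e0] at h4
    rw [sub_im, e0', sub_zero] at h5
    exact ⟨h5, by linarith, by linarith⟩
  have hj := H370.Loc.jensen_mult (f := F) (c := z0) (r := 2) (R := 4) (M := Real.exp ((9 + 1) * L))
    (by norm_num) (by norm_num) (Real.one_le_exp (by positivity))
    (fun w hw => by
      obtain ⟨h1, h2, h3⟩ := hball w hw
      exact hloc.an w h1 h2 h3)
    (norm_pos_iff.1 (by linarith))
    (fun w hw => by
      obtain ⟨h1, h2, h3⟩ := hball w hw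
      exact hloc.grow w h1 h2 h3) Z (fun z hz => by
      obtain ⟨h0, h1, h2, h3⟩ := hZ z hz
      rw [mem_closedBall, dist_eq_norm]
      have h4 : ‖z - z0‖ ^ 2 ≤ 2 ^ 2 := by
        rw [← Complex.normSq_eq_norm_sq, normSq_apply, sub_re, sub_im, e0, e0', sub_zero]
        have h5 := abs_le.1 h3
        have h6 : -(13 / 8) ≤ z.re - x := by linarith
        have h7 : z.re - x ≤ 1 := by linarith
        nlinarith
      exact abs_le_of_sq_le_sq' h4 (by norm_num) |>.2)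
  refine hj.trans ?_
  rw [show (4 : ℝ) / 2 = 2 by norm_num, Real.log_div (Real.exp_pos _).ne' (by linarith), Real.log_exp]
  have h8 := Real.log_nonneg hone
  calc ((9 + 1) * L - Real.log ‖F z0‖) / Real.log 2 ≤ (20 * W) / Real.log 2 := by
        apply div_le_div_of_nonneg_right _ hlog2.le
        linarith
    _ = _ := by ring

/-- `F` is not identically zero -/
theorem F_neW (hm : 1 ≤ m) {M0 : ℝ} (hM0 : 1 ≤ M0) (P : ℂ[X]) (hP : P ≠ 0) (S : Finset ℝ) (B : ℝ) (hB : 0 ≤ B) :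
    ∃ C₀ : ℝ, ∀ (N : ℝ) (μ : Fin m → ℂ) (Λ : ℂ → ℂ),
    WL M0 N μ Λ → ∀ (c : ℝ → ℂ) (T : ℝ), (∀ l ∈ S, ‖c l‖ ≤ B) → C₀ ≤ Real.log (cnd N μ T) →
    ∃ s : ℂ, FF μ Λ P S c s ≠ 0 := by
  obtain ⟨l, hl⟩ : ∃ l : ℝ, l = 1 / (32 * (((5 * m : ℕ) : ℝ) + 1)) := ⟨_, rfl⟩
  have hl0 : 0 < l := by rw [hl]; positivity
  have hlM : (((5 * m : ℕ) : ℝ)) * (4 * l) ≤ 1 / 8 := by
    have : ((((5 * m : ℕ) : ℝ)) + 1) * (4 * l) = 1 / 8 := by rw [hl]; field_simp; norm_num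
    nlinarith
  have hl1 : l ≤ 1 / 8 := by
    rw [hl]
    apply one_div_le_one_div_of_le (by norm_num)
    have : (0 : ℝ) ≤ ((5 * m : ℕ) : ℝ) := Nat.cast_nonneg _
    linarith
  obtain ⟨e, L0, he, hL0, H⟩ := loc_LDE P hP S B 9 1 (l / 3) hB (by norm_num) one_pos (by positivity) (by linarith)
  obtain ⟨C0, hC0, HB⟩ := base_WE m hm M0 hM0 (0 + 1) e (l / 3) (by norm_num) he (by positivity)
  have hm0 : (0 : ℝ) ≤ m := Nat.cast_nonneg m
  refine ⟨L0 + C0 + 28 * m, ?_⟩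
  intro N μ Λ d c T hc hC
  obtain ⟨b1, b2⟩ := el_bd d.one_le d.re_le T
  obtain ⟨L, hL⟩ : ∃ L : ℝ, L = 2 * el N μ T := ⟨_, rfl⟩
  rw [← hL] at b1 b2
  obtain ⟨hb, -⟩ := HB N μ Λ d T (by rw [← hL]; linarith)
  rw [← hL] at hb
  have hloc := H (fun s => LL μ Λ (s + T * I)) (tw c T) L 0 (EX μ T) (by linarith)
    (fun l hl => by rw [tw_norm]; exact hc l hl) hb
  obtain ⟨x, hx1, hx2, hx3⟩ := good_pt (EX μ T) (5 * m) (EX_card μ T) (-1 / 2) 0 (4 * l) (by positivity)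
  have key := hloc.low (⟨x, 0⟩ : ℂ) (by simp) (by simp only; linarith) (by simp only; linarith)
    (fun z hz => by have := hx3 z hz; linarith)
  refine ⟨(⟨x, 0⟩ : ℂ) + T * I, ?_⟩
  rw [LD_shift] at key
  intro h0
  rw [show LD (LL μ Λ) P S c ((⟨x, 0⟩ : ℂ) + T * I) = 0 from h0, norm_zero] at key
  exact absurd key (not_le.2 (Real.exp_pos _))

/-- **Shadows.** -/
theorem shadow_W (hm : 1 ≤ m) {M0 : ℝ} (hM0 : 1 ≤ M0) (P Q : ℂ[X]) (hP : P ≠ 0) (hQ : Q ≠ 0) (S R : Finset ℝ) (B α ε : ℝ) (hB : 0 ≤ B)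
    (hα : α ≤ 1 / 2) (hε : 0 < ε) : ∃ X : ℝ, 1 ≤ X ∧ ∀ (N : ℝ) (μ : Fin m → ℂ) (Λ : ℂ → ℂ), WL M0 N μ Λ →
    ∀ c d : ℝ → ℂ, (∀ l ∈ S, ‖c l‖ ≤ B) → (∀ l ∈ R, ‖d l‖ ≤ B) → ∀ ρ : ℂ, (∀ j, X ≤ |ρ.im - (μ j).im|) →
    FF μ Λ P S c ρ = 0 → -1 / 4 ≤ ρ.re → ρ.re ≤ α - ε →
      ∃ s : ℂ, FF μ Λ Q R d s = 0 ∧ -1 / 4 < s.re ∧ s.re < α ∧ |s.im - ρ.im| ≤ X := by
  obtain ⟨e, L0, C, he, hL0, hC, H⟩ := shadow P Q hP hQ S R B 9 hB (by norm_num) α ε hε hα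
  obtain ⟨C0, hC0, HB⟩ := base_W m hm M0 hM0 C e (by linarith) he
  have hm0 : (0 : ℝ) ≤ m := Nat.cast_nonneg m
  obtain ⟨V, hV⟩ : ∃ V : ℝ, V = L0 + C0 + 28 * m := ⟨_, rfl⟩
  have hV0 : 0 ≤ V := by rw [hV]; positivity
  refine ⟨C + 1 + Real.exp V, by linarith [Real.exp_pos V], ?_⟩
  intro N μ Λ D c d hc hd ρ hfar hρ h1 h2
  obtain ⟨T, hT⟩ : ∃ T : ℝ, T = ρ.im := ⟨_, rfl⟩
  have hexp := Real.exp_pos V
  have hcnd := cnd_far hm D.one_le μ (by linarith : 0 ≤ C + 1 + Real.exp V) hfar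
  have hlog : V ≤ Real.log (cnd N μ T) := by
    have h3 : Real.exp V ≤ cnd N μ T := by rw [hT]; linarith
    have := Real.log_le_log hexp h3
    rwa [Real.log_exp] at this
  obtain ⟨b1, b2⟩ := el_bd D.one_le D.re_le T
  obtain ⟨hb, -⟩ := HB N μ Λ D T (by linarith) (fun j => by
    have := hfar j
    rw [hT]
    linarith)
  obtain ⟨s, s1, s2, s3, s4⟩ := H (fun s => LL μ Λ (s + T * I)) (tw (ext0 S c) T) (tw (ext0 R d) T)
    (2 * el N μ T) C (by linarith) (fun l => by rw [tw_norm]; exact ext0_le S c hB hc l)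
    (fun l => by rw [tw_norm]; exact ext0_le R d hB hd l) hb (ρ - T * I)
    (by
      rw [LD_shift, sub_add_cancel, LD_congr (LL μ Λ) P S (fun l hl => ext0_mem S c hl)]
      exact hρ)
    (by simpa using h1) (by simpa using h2) (by simp [hT])
  refine ⟨s + T * I, ?_, by simpa using s2, by simpa using s3, ?_⟩
  · rw [LD_shift, LD_congr (LL μ Λ) Q R (fun l hl => ext0_mem R d hl)] at s1
    exact s1
  · have e1 : (s + T * I).im - ρ.im = s.im - (ρ - T * I).im := by simp; ring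
    rw [e1]
    linarith

/-- **Zeros on both sides, for a family.** -/
theorem bothW (hm : 1 ≤ m) {M0 : ℝ} (hM0 : 1 ≤ M0) (P : ℂ[X]) (hP : P ≠ 0) (S : Finset ℝ) (B α : ℝ) (hB : 0 ≤ B) (hα : α ≤ 1 / 2)
    {ι : Type*} (N : ι → ℝ) (μ : ι → Fin m → ℂ) (Λ : ι → ℂ → ℂ) (hO : ∀ i, WL M0 (N i) (μ i) (Λ i))
    (c : ι → ℝ → ℂ) (hc : ∀ i, ∀ l ∈ S, ‖c i l‖ ≤ B) :
    (∀ ε : ℝ, 0 < ε → ∃ X : ℝ, ∀ i, ∀ ρ : ℂ, Λ i ρ = 0 → (∀ j, X ≤ |ρ.im - (μ i j).im|) → ρ.re < 1 - α + ε) ↔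
    (∀ ε : ℝ, 0 < ε → ∃ X : ℝ, ∀ i, ∀ ρ : ℂ, FF (μ i) (Λ i) P S (c i) ρ = 0 →
      (∀ j, X ≤ |ρ.im - (μ i j).im|) → -1 / 4 ≤ ρ.re → α - ε < ρ.re) := by
  constructor
  · intro h ε hε
    obtain ⟨X0, hX0⟩ := h (ε / 2) (by positivity)
    obtain ⟨X1, hX1, H⟩ := shadow_W hm hM0 P 1 hP one_ne_zero S ∅ B (α - ε / 2) (ε / 2) hB (by linarith) (by positivity)
    refine ⟨|X0| + X1 + 1, fun i ρ hρ hfar h1 => ?_⟩
    by_contra hcon
    push Not at hcon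
    have hab := le_abs_self X0
    have hab0 := abs_nonneg X0
    obtain ⟨s, s1, s2, s3, s4⟩ := H (N i) (μ i) (Λ i) (hO i) (c i) (fun _ => 0) (hc i) (by simp) ρ
      (fun j => by have := hfar j; linarith) hρ h1 (by linarith)
    rw [FF_one] at s1
    have hsf : ∀ j, |X0| + 1 ≤ |s.im - (μ i j).im| := fun j => by
      have h5 := hfar j
      have h6 : |ρ.im - (μ i j).im| ≤ |s.im - (μ i j).im| + |s.im - ρ.im| := by
        calc |ρ.im - (μ i j).im| = |(s.im - (μ i j).im) - (s.im - ρ.im)| := by congr 1; ring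
          _ ≤ _ := abs_sub _ _
      linarith
    have h7 : Λ i s = 0 := (LL_zero fun j h8 => by
      have := hsf j
      rw [h8, sub_self, abs_zero] at this
      linarith).1 s1
    have h8 := hX0 i _ ((hO i).refl h7) (fun j => by
      have h9 : (1 - conj s : ℂ).im = s.im := by simp
      rw [h9]
      have := hsf j
      linarith)
    have h9 : (1 - conj s : ℂ).re = 1 - s.re := by simp
    rw [h9] at h8
    linarith
  · intro h ε hε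
    obtain ⟨X0, hX0⟩ := h (ε / 2) (by positivity)
    obtain ⟨X1, hX1, H⟩ := shadow_W hm hM0 1 P one_ne_zero hP ∅ S B (α - ε / 2) (ε / 2) hB (by linarith) (by positivity)
    refine ⟨|X0| + X1 + 1, fun i ρ hρ hfar => ?_⟩
    by_contra hcon
    push Not at hcon
    have hab := le_abs_self X0
    have hab0 := abs_nonneg X0
    have hnz := (hO i).nz
    have hρ1 : ρ.re ≤ 1 := by
      by_contra h2
      push Not at h2
      exact hnz ρ h2 hρ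
    have e1 : (1 - conj ρ : ℂ).re = 1 - ρ.re := by simp
    have e2 : (1 - conj ρ : ℂ).im = ρ.im := by simp
    have hρ2 := (hO i).refl hρ
    have hρ3 : FF (μ i) (Λ i) 1 ∅ (fun _ => 0) (1 - conj ρ) = 0 := by
      rw [FF_one]
      unfold LL
      rw [hρ2, zero_mul]
    obtain ⟨s, s1, s2, s3, s4⟩ := H (N i) (μ i) (Λ i) (hO i) (fun _ => 0) (c i) (by simp) (hc i) (1 - conj ρ)
      (fun j => by rw [e2]; have := hfar j; linarith) hρ3 (by rw [e1]; linarith) (by rw [e1]; linarith)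
    rw [e2] at s4
    have h8 := hX0 i s s1 (fun j => by
      have h5 := hfar j
      have h6 : |ρ.im - (μ i j).im| ≤ |s.im - (μ i j).im| + |s.im - ρ.im| := by
        calc |ρ.im - (μ i j).im| = |(s.im - (μ i j).im) - (s.im - ρ.im)| := by congr 1; ring
          _ ≤ _ := abs_sub _ _
      linarith) (by linarith)
    linarith

end Q240.OW
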