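import Pool.Agent.Q240.OW.P1
import Pool.Agent.Q240.OW.W3

/-!
# The local data of an L-function of the class, far from the real axis
-/

set_option autoImplicit false

open Complex Set MeasureTheory Filter Topology
open scoped ComplexConjugate

namespace Q240.OW

open Pool.Agent.W169.HF H353.E H353.F Q240.GS

/-- the local data from a comparison -/
theorem base_gen (Kn KK : ℝ) (hKn : 1 ≤ Kn) (hK0 : 0 ≤ KK) (Y e : ℝ) (hY : 0 ≤ Y) (he : 0 < e) : ∃ C0 : ℝ, 1 ≤ C0 ∧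
    ∀ (ℓ : ℝ) (F G : ℂ → ℂ), ND Kn ℓ F → C0 ≤ 2 * ℓ →
    (∀ s : ℂ, |s.im| ≤ Y → -7 ≤ s.re → s.re ≤ 5 → AnalyticAt ℂ G s) →
    (∀ s : ℂ, |s.im| ≤ Y → -7 ≤ s.re → s.re ≤ 8 →
      Real.exp (-(ℓ * (s.re - 1 / 2)) - KK) * ‖F (s - 1 / 2)‖ ≤ ‖G s‖ ∧
      ‖G s‖ ≤ Real.exp (-(ℓ * (s.re - 1 / 2)) + KK) * ‖F (s - 1 / 2)‖) →
    Base G (2 * ℓ) Y e 9 ∧ FE G (2 * ℓ) Y e := by
  obtain ⟨κ, hκ⟩ : ∃ κ : ℝ, κ = e / 2 := ⟨_, rfl⟩
  have hκ0 : 0 < κ := by rw [hκ]; positivity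
  obtain ⟨R, ℓ0, hR, hP⟩ := prof_all Kn (3 / 2) (1 / 2) (1 / 8) κ (max 8 Y) hKn (by norm_num) (by norm_num)
    (by norm_num) (by norm_num) (by norm_num) (by norm_num) hκ0 ((by norm_num : (1 : ℝ) ≤ 8).trans (le_max_left _ _))
  obtain ⟨D, hD⟩ : ∃ D : ℝ, D = Kn * (1 + (18 + Y) ^ 2) := ⟨_, rfl⟩
  have hD0 : 0 ≤ D := by rw [hD]; positivity
  refine ⟨max 1 (2 * max ℓ0 (KK / κ + D + KK)), le_max_left _ _, fun ℓ F G nd hT han hcmp => ?_⟩
  have hT1 := (le_max_right _ _).trans hT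
  have hT2 := (le_max_left _ _).trans hT
  have g1 : ℓ0 ≤ ℓ := by linarith [le_max_left ℓ0 (KK / κ + D + KK)]
  have g2 : KK / κ + D + KK ≤ ℓ := by linarith [le_max_right ℓ0 (KK / κ + D + KK)]
  have hℓ0 : 0 < ℓ := by linarith
  have hq : 0 ≤ KK / κ := by positivity
  have hKκ : KK ≤ κ * ℓ := by
    have : KK / κ ≤ ℓ := by linarith
    rwa [div_le_iff₀ hκ0, mul_comm] at this
  have hDℓ : D + KK ≤ ℓ := by linarith
  have pf := hP ℓ 1 F g1 nd.ud (fun u hu _ h0 => by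
    have := nd.zer u h0
    rw [abs_le] at this
    linarith)
  rw [show (1 / 2 + 1 / 8 : ℝ) = 5 / 8 by norm_num] at pf
  have hrefl : ∀ u : ℂ, ‖F u‖ = ‖F (-conj u)‖ := by
    intro u
    obtain ⟨ε', hε', hfe⟩ := nd.ud.fe
    rw [hfe u, norm_mul, hε', one_mul, Complex.norm_conj]
  refine ⟨⟨han, ?_, ?_, ?_⟩, ?_⟩
  · intro s h1 h2 h3
    obtain ⟨c1, c2⟩ := hcmp s h1 h2 (by linarith)
    have e1 : (-conj (s - 1 / 2)).re = 1 / 2 - s.re := by simp
    have e2 : (-conj (s - 1 / 2)).im = s.im := by simp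
    have p1 := pf.low (-conj (s - 1 / 2)) (by rw [e1]; linarith)
      (by rw [e1]; linarith [le_max_left 8 Y]) (by rw [e2]; exact h1.trans (le_max_right _ _))
    have p2 := pf.upp (-conj (s - 1 / 2)) (by rw [e1, abs_of_nonneg (by linarith)]; linarith [le_max_left 8 Y])
      (by rw [e2]; exact h1.trans (le_max_right _ _))
    rw [e1, one_mul, ← hrefl] at p1 p2
    rw [abs_of_nonneg (by linarith), max_eq_left (by linarith)] at p2
    have h9 : κ * ℓ + KK ≤ 2 * ℓ * e := by rw [hκ] at hKκ ⊢; linarith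
    constructor
    · calc Real.exp (2 * ℓ * (1 / 2 - s.re - e)) ≤
          Real.exp ((-(ℓ * (s.re - 1 / 2)) - KK) + (ℓ * (1 / 2 - s.re) - κ * ℓ)) := by
            apply Real.exp_le_exp.2
            linarith
        _ = Real.exp (-(ℓ * (s.re - 1 / 2)) - KK) * Real.exp (ℓ * (1 / 2 - s.re) - κ * ℓ) := Real.exp_add _ _
        _ ≤ Real.exp (-(ℓ * (s.re - 1 / 2)) - KK) * ‖F (s - 1 / 2)‖ := by gcongr
        _ ≤ _ := c1
    · calc ‖G s‖ ≤ _ := c2
        _ ≤ Real.exp (-(ℓ * (s.re - 1 / 2)) + KK) * Real.exp (ℓ * (1 / 2 - s.re) + κ * ℓ) := by gcongr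
        _ = Real.exp ((-(ℓ * (s.re - 1 / 2)) + KK) + (ℓ * (1 / 2 - s.re) + κ * ℓ)) := (Real.exp_add _ _).symm
        _ ≤ _ := by
            apply Real.exp_le_exp.2
            linarith
  · intro s h1 h2 h3
    obtain ⟨c1, c2⟩ := hcmp s h1 h2 (by linarith)
    have p2 := nd.ud.up (s - 1 / 2)
    have e1 : (s - 1 / 2 : ℂ).re = s.re - 1 / 2 := by simp
    have e2 : (s - 1 / 2 : ℂ).im = s.im := by simp
    rw [one_mul, e1] at p2
    have h5 : |s.re - 1 / 2| ≤ 8 := by rw [abs_le]; constructor <;> linarith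
    have h4 : ‖s - 1 / 2‖ ^ 2 ≤ (18 + Y) ^ 2 := by
      apply pow_le_pow_left₀ (norm_nonneg _)
      have := Complex.norm_le_abs_re_add_abs_im (s - 1 / 2)
      rw [e1, e2] at this
      linarith
    have h6 : Kn * (1 + ‖s - 1 / 2‖ ^ 2) ≤ D := by
      rw [hD]
      apply mul_le_mul_of_nonneg_left _ (by linarith)
      linarith
    have h7 : ℓ * max |s.re - 1 / 2| (3 / 2) ≤ ℓ * 8 := by
      apply mul_le_mul_of_nonneg_left _ hℓ0.le
      exact max_le h5 (by norm_num)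
    have h8 : -(ℓ * (s.re - 1 / 2)) ≤ ℓ * 8 := by
      have := abs_le.1 h5
      nlinarith
    calc ‖G s‖ ≤ _ := c2
      _ ≤ Real.exp (-(ℓ * (s.re - 1 / 2)) + KK) *
          Real.exp (ℓ * max |s.re - 1 / 2| (3 / 2) + Kn * (1 + ‖s - 1 / 2‖ ^ 2)) := by gcongr
      _ = Real.exp ((-(ℓ * (s.re - 1 / 2)) + KK) +
          (ℓ * max |s.re - 1 / 2| (3 / 2) + Kn * (1 + ‖s - 1 / 2‖ ^ 2))) := (Real.exp_add _ _).symm
      _ ≤ _ := by
          apply Real.exp_le_exp.2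
          linarith
  · intro s h1 h2 h3
    obtain ⟨c1, c2⟩ := hcmp s h1 (by linarith) (by linarith)
    have e1 : (s - 1 / 2 : ℂ).re = s.re - 1 / 2 := by simp
    have e2 : (s - 1 / 2 : ℂ).im = s.im := by simp
    have p2 := pf.upp (s - 1 / 2) (by rw [e1, abs_of_nonneg (by linarith)]; linarith [le_max_left 8 Y])
      (by rw [e2]; exact h1.trans (le_max_right _ _))
    rw [e1, one_mul, abs_of_nonneg (by linarith), max_eq_left (by linarith)] at p2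
    have h9 : κ * ℓ + KK ≤ 2 * ℓ * e := by rw [hκ] at hKκ ⊢; linarith
    calc ‖G s‖ ≤ _ := c2
      _ ≤ Real.exp (-(ℓ * (s.re - 1 / 2)) + KK) * Real.exp (ℓ * (s.re - 1 / 2) + κ * ℓ) := by gcongr
      _ = Real.exp ((-(ℓ * (s.re - 1 / 2)) + KK) + (ℓ * (s.re - 1 / 2) + κ * ℓ)) := (Real.exp_add _ _).symm
      _ ≤ _ := by
          apply Real.exp_le_exp.2
          linarith
  · intro s h1 h2 h3
    obtain ⟨c1, c2⟩ := hcmp s h1 (by linarith) (by linarith)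
    have e1 : (1 - conj s : ℂ).re = 1 - s.re := by simp
    have e2 : (1 - conj s : ℂ).im = s.im := by simp
    obtain ⟨d1, d2⟩ := hcmp (1 - conj s) (by rw [e2]; exact h1) (by rw [e1]; linarith) (by rw [e1]; linarith)
    rw [e1] at d1
    have e3 : (1 - conj s - 1 / 2 : ℂ) = -conj (s - 1 / 2) := by
      rw [map_sub]
      have : conj (1 / 2 : ℂ) = 1 / 2 := by rw [map_div₀, map_one, map_ofNat]
      rw [this]; ring
    rw [e3, ← hrefl] at d1
    have h5 : ‖F (s - 1 / 2)‖ ≤ Real.exp (ℓ * (1 / 2 - s.re) + KK) * ‖G (1 - conj s)‖ := by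
      calc ‖F (s - 1 / 2)‖ = Real.exp (ℓ * (1 / 2 - s.re) + KK) *
          (Real.exp (-(ℓ * (1 - s.re - 1 / 2)) - KK) * ‖F (s - 1 / 2)‖) := by
            rw [← mul_assoc, ← Real.exp_add]
            have : ℓ * (1 / 2 - s.re) + KK + (-(ℓ * (1 - s.re - 1 / 2)) - KK) = 0 := by ring
            rw [this, Real.exp_zero, one_mul]
        _ ≤ _ := mul_le_mul_of_nonneg_left d1 (Real.exp_pos _).le
    have h9 : 2 * KK ≤ 2 * ℓ * e := by rw [hκ] at hKκ; linarith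
    show ‖G s‖ ≤ Real.exp (2 * ℓ * (1 / 2 - s.re + e)) * ‖G (1 - conj s)‖
    calc ‖G s‖ ≤ _ := c2
      _ ≤ Real.exp (-(ℓ * (s.re - 1 / 2)) + KK) *
          (Real.exp (ℓ * (1 / 2 - s.re) + KK) * ‖G (1 - conj s)‖) := by gcongr
      _ = Real.exp ((-(ℓ * (s.re - 1 / 2)) + KK) + (ℓ * (1 / 2 - s.re) + KK)) *
          ‖G (1 - conj s)‖ := by rw [← mul_assoc, ← Real.exp_add]
      _ ≤ _ := by
          apply mul_le_mul_of_nonneg_right _ (norm_nonneg _)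
          apply Real.exp_le_exp.2
          linarith

variable {m r : ℕ} {B N : ℝ} {μ : Fin m → ℂ} {X : ℂ → ℂ}

/-- the function `Λ` with `X = N^(s/2) Λ` -/
noncomputable def la (N : ℝ) (X : ℂ → ℂ) (s : ℂ) : ℂ := (N : ℂ) ^ (-(s / 2)) * X s

lemma XX_la (hN : 1 ≤ N) (X : ℂ → ℂ) : XX N (la N X) = X := by
  funext s
  unfold XX la
  have hN0 : (N : ℂ) ≠ 0 := by
    have : N ≠ 0 := by linarith
    exact_mod_cast this
  rw [← mul_assoc, ← cpow_add _ _ hN0, add_neg_cancel, cpow_zero, one_mul]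

/-- the L-function: the completed one divided by the gamma factors and by `(s (s - 1))^r` -/
noncomputable def LQ (r : ℕ) (N : ℝ) (μ : Fin m → ℂ) (X : ℂ → ℂ) (s : ℂ) : ℂ := LL μ (la N X) s * (pp r s)⁻¹

lemma la_diff (hN : 1 ≤ N) (h : Differentiable ℂ X) : Differentiable ℂ (la N X) := by
  have hN0 : (N : ℂ) ≠ 0 := by
    have : N ≠ 0 := by linarith
    exact_mod_cast this
  unfold la
  refine Differentiable.mul (fun s => ?_) h
  have h1 : DifferentiableAt ℂ (fun s : ℂ => -(s / 2)) s := by fun_prop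
  exact h1.const_cpow (Or.inl hN0)

lemma LQ_an (hN : 1 ≤ N) (h : Differentiable ℂ X) {s : ℂ} (h0 : s ≠ 0) (h1 : s ≠ 1) : AnalyticAt ℂ (LQ r N μ X) s := by
  unfold LQ
  refine ((LL_diff (la_diff hN h)).analyticAt s).mul ?_
  refine AnalyticAt.inv ?_ (pp_ne r h0 h1)
  unfold pp
  fun_prop

/-- comparison in a window -/
theorem cmpP (hm : 1 ≤ m) (h : WP r B N μ X) (T Y : ℝ) (hY : 0 ≤ Y) (hT0 : Y + 1 ≤ |T|)
    (hT : ∀ j, Y + 1 ≤ |T - (μ j).im|) {s : ℂ} (h1 : |s.im| ≤ Y) (h2 : -7 ≤ s.re) (h3 : s.re ≤ 8) :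
    Real.exp (-(el N μ T * (s.re - 1 / 2)) - (KW m Y + 4 * r * (9 + Y))) * ‖fnP r N μ X T (s - 1 / 2)‖ ≤
      ‖LQ r N μ X (s + T * I)‖ ∧
    ‖LQ r N μ X (s + T * I)‖ ≤
      Real.exp (-(el N μ T * (s.re - 1 / 2)) + (KW m Y + 4 * r * (9 + Y))) * ‖fnP r N μ X T (s - 1 / 2)‖ := by
  obtain ⟨a1, a2⟩ := cmp_win hm h.one_le h.re_le (la N X) T Y hY hT h1 h2 h3
  have hq := p0_pos r T
  have hG := gpos hm h.one_le h.re_le T
  have e1 : ‖fnP r N μ X T (s - 1 / 2)‖ = ‖fn N μ (la N X) T (s - 1 / 2)‖ / p0 r T := by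
    unfold fnP fn
    rw [XX_la h.one_le, norm_mul, norm_mul, Complex.norm_real, Complex.norm_real, mul_inv, norm_mul, Real.norm_eq_abs,
      abs_of_pos (inv_pos.2 hq)]
    field_simp
  have e2 : ‖LQ r N μ X (s + T * I)‖ = ‖LL μ (la N X) (s + T * I)‖ / ‖pp r (s + T * I)‖ := by
    unfold LQ
    rw [norm_mul, norm_inv]
    rfl
  have him : (s + T * I : ℂ).im = s.im + T := by simp
  have hre : (s + T * I : ℂ).re = s.re := by simp
  have hT1 : 1 ≤ |s.im + T| := by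
    have : |T| ≤ |s.im + T| + |s.im| := by
      calc |T| = |(s.im + T) - s.im| := by congr 1; ring
        _ ≤ _ := abs_sub _ _
    linarith
  have b1 : 1 / 2 ≤ ‖(s + T * I : ℂ)‖ := by
    refine le_trans ?_ (abs_im_le_norm _)
    rw [him]
    linarith
  have b2 : 1 / 2 ≤ ‖(s + T * I - 1 : ℂ)‖ := by
    refine le_trans ?_ (abs_im_le_norm _)
    rw [sub_im, him, one_im, sub_zero]
    linarith
  have b3 : ‖(s + T * I : ℂ) - (3 / 2 + T * I)‖ ≤ 9 + Y := by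
    refine (Complex.norm_le_abs_re_add_abs_im _).trans ?_
    have e3 : ((s + T * I : ℂ) - (3 / 2 + T * I)).re = s.re - 3 / 2 := by simp
    have e4 : ((s + T * I : ℂ) - (3 / 2 + T * I)).im = s.im := by simp
    rw [e3, e4]
    have : |s.re - 3 / 2| ≤ 9 := by rw [abs_le]; constructor <;> linarith
    linarith
  have c1 := pp_ratio r (by linarith) b1 b2 b3
  have b3' : ‖(3 / 2 + T * I : ℂ) - (s + T * I)‖ ≤ 9 + Y := by rw [norm_sub_rev]; exact b3
  have c2 := pp_ratio r (by linarith) (s0_le T).1 (s0_le T).2 b3'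
  have hpp : 0 < ‖pp r (s + T * I)‖ := by
    refine norm_pos_iff.2 (pp_ne r (fun h => ?_) (fun h => ?_))
    · rw [h, norm_zero] at b1
      norm_num at b1
    · rw [h, sub_self, norm_zero] at b2
      norm_num at b2
  have c1 : p0 r T ≤ Real.exp (4 * r * (9 + Y)) * ‖pp r (s + T * I)‖ := c1
  have c2 : ‖pp r (s + T * I)‖ ≤ Real.exp (4 * r * (9 + Y)) * p0 r T := c2
  rw [e1, e2]
  obtain ⟨w, hw⟩ : ∃ w : ℝ, w = ‖fn N μ (la N X) T (s - 1 / 2)‖ := ⟨_, rfl⟩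
  obtain ⟨v, hv⟩ : ∃ v : ℝ, v = ‖LL μ (la N X) (s + T * I)‖ := ⟨_, rfl⟩
  obtain ⟨q, hqd⟩ : ∃ q : ℝ, q = p0 r T := ⟨_, rfl⟩
  obtain ⟨p, hpd⟩ : ∃ p : ℝ, p = ‖pp r (s + T * I)‖ := ⟨_, rfl⟩
  obtain ⟨E, hE⟩ : ∃ E : ℝ, E = 4 * r * (9 + Y) := ⟨_, rfl⟩
  have hw0 : 0 ≤ w := by rw [hw]; exact norm_nonneg _
  have hv0 : 0 ≤ v := by rw [hv]; exact norm_nonneg _
  rw [← hw, ← hv] at a1 a2
  rw [← hw, ← hv, ← hqd, ← hpd, ← hE]
  rw [← hE, ← hqd, ← hpd] at c1 c2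
  rw [← hqd] at hq
  rw [← hpd] at hpp
  constructor
  · rw [le_div_iff₀ hpp]
    have f1 : w / q * p ≤ Real.exp E * w := by
      rw [div_mul_eq_mul_div, div_le_iff₀ hq]
      calc w * p ≤ w * (Real.exp E * q) := mul_le_mul_of_nonneg_left c2 hw0
        _ = _ := by ring
    calc Real.exp (-(el N μ T * (s.re - 1 / 2)) - (KW m Y + E)) * (w / q) * p =
        Real.exp (-(el N μ T * (s.re - 1 / 2)) - (KW m Y + E)) * (w / q * p) := by ring
      _ ≤ Real.exp (-(el N μ T * (s.re - 1 / 2)) - (KW m Y + E)) * (Real.exp E * w) :=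
          mul_le_mul_of_nonneg_left f1 (Real.exp_pos _).le
      _ = Real.exp (-(el N μ T * (s.re - 1 / 2)) - KW m Y) * w := by
          rw [← mul_assoc, ← Real.exp_add]
          congr 2
          ring
      _ ≤ v := a1
  · rw [div_le_iff₀ hpp]
    have f1 : w ≤ Real.exp E * (w / q * p) := by
      have : w * q ≤ Real.exp E * (w * p) := by
        calc w * q ≤ w * (Real.exp E * p) := mul_le_mul_of_nonneg_left c1 hw0
          _ = _ := by ring
      rw [div_mul_eq_mul_div, mul_div_assoc', le_div_iff₀ hq]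
      exact this
    calc v ≤ Real.exp (-(el N μ T * (s.re - 1 / 2)) + KW m Y) * w := a2
      _ ≤ Real.exp (-(el N μ T * (s.re - 1 / 2)) + KW m Y) * (Real.exp E * (w / q * p)) :=
          mul_le_mul_of_nonneg_left f1 (Real.exp_pos _).le
      _ = _ := by
          rw [← mul_assoc, ← Real.exp_add, ← mul_assoc]
          congr 3
          ring

theorem base_WP (m r : ℕ) (hm : 1 ≤ m) (B : ℝ) (hB : 1 ≤ B) (Y e : ℝ) (hY : 0 ≤ Y) (he : 0 < e) :
    ∃ C0 : ℝ, 1 ≤ C0 ∧ ∀ (N : ℝ) (μ : Fin m → ℂ) (X : ℂ → ℂ), WP r B N μ X → ∀ T : ℝ, C0 ≤ 2 * el N μ T →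
    Y + 1 ≤ |T| → (∀ j, Y + 1 ≤ |T - (μ j).im|) →
    Base (fun s => LQ r N μ X (s + T * I)) (2 * el N μ T) Y e 9 ∧
    FE (fun s => LQ r N μ X (s + T * I)) (2 * el N μ T) Y e := by
  obtain ⟨Kn, hKn, hnd⟩ := ndP m r hm B hB
  have hKW := KW_nonneg m Y
  obtain ⟨C0, hC0, H⟩ := base_gen Kn (KW m Y + 4 * r * (9 + Y)) hKn (by positivity) Y e hY he
  refine ⟨C0, hC0, fun N μ X h T hT hT0 hTj => ?_⟩
  refine H (el N μ T) (fnP r N μ X T) _ (hnd N μ X h T) hT (fun s h1 h2 h3 => ?_) fun s h1 h2 h3 =>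
    cmpP hm h T Y hY hT0 hTj h1 h2 h3
  have him : (s + T * I : ℂ).im = s.im + T := by simp
  have hT1 : 1 ≤ |s.im + T| := by
    have : |T| ≤ |s.im + T| + |s.im| := by
      calc |T| = |(s.im + T) - s.im| := by congr 1; ring
        _ ≤ _ := abs_sub _ _
    linarith
  have hne : ∀ x : ℝ, (s + T * I : ℂ) ≠ x := by
    intro x hx
    have := congrArg Complex.im hx
    rw [him, ofReal_im] at this
    rw [this, abs_zero] at hT1
    linarith
  have h4 : AnalyticAt ℂ (LQ r N μ X) (s + T * I) := by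
    refine LQ_an h.one_le h.slow.1 ?_ ?_
    · simpa using hne 0
    · simpa using hne 1
  exact AnalyticAt.fun_comp h4 (by fun_prop)

end Q240.OW
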