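import Pool.Agent.Q240.OW.P1
import Pool.Agent.W355.UN.Pack

/-!
# Membership in the class: L-functions with an Euler product
-/

set_option autoImplicit false

open Complex Filter Topology Set
open scoped ComplexConjugate

namespace Q240.OW

open Pool.Agent.W169.HF Pool.Agent.W355.UN H353.E Q240.GS

/-- `∑ n^(-2)` -/
noncomputable def b0 : ℝ := ∑' n : ℕ, ‖LSeries.term (fun _ => (1 : ℂ)) 2 n‖

lemma b0_nonneg : 0 ≤ b0 := tsum_nonneg fun _ => norm_nonneg _

/-- two-sided bounds for an L-function from those for the coefficients of its logarithmic derivative -/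
theorem log_bd {L : ℂ → ℂ} {c : ℕ → ℂ} {m : ℕ} (hL : ∀ s : ℂ, 1 < s.re → DifferentiableAt ℂ L s)
    (hne : ∀ s : ℂ, 1 < s.re → L s ≠ 0)
    (hld : ∀ s : ℂ, 1 < s.re → deriv L s / L s =
      -LSeries (fun n => ((ArithmeticFunction.vonMangoldt n : ℝ) : ℂ) * c n) s)
    (hc : ∀ n, ‖c n‖ ≤ m) (hlim : Tendsto (fun x : ℝ => L x) atTop (𝓝 1)) {s : ℂ} (hs : 2 ≤ s.re) :
    ‖L s‖ ≤ Real.exp (m * b0) ∧ 1 ≤ Real.exp (m * b0) * ‖L s‖ := by
  have hm0 : (0 : ℝ) ≤ m := Nat.cast_nonneg m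
  obtain ⟨g, hg⟩ : ∃ g : ℕ → ℂ, g = fun n => ((ArithmeticFunction.vonMangoldt n / Real.log n : ℝ) : ℂ) * c n :=
    ⟨_, rfl⟩
  have hgb : ∀ n, ‖g n‖ ≤ m := by
    intro n
    rw [hg]
    simp only
    rw [norm_mul, Complex.norm_real, Real.norm_eq_abs]
    have h1 : |ArithmeticFunction.vonMangoldt n / Real.log n| ≤ 1 := by
      have h2 : 0 ≤ Real.log (n : ℝ) := Real.log_natCast_nonneg n
      rw [abs_of_nonneg (div_nonneg ArithmeticFunction.vonMangoldt_nonneg h2)]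
      exact div_le_one_of_le₀ ArithmeticFunction.vonMangoldt_le_log h2
    calc _ ≤ 1 * (m : ℝ) := mul_le_mul h1 (hc n) (norm_nonneg _) zero_le_one
      _ = m := one_mul _
  have habs : LSeries.abscissaOfAbsConv g ≤ 1 :=
    LSeries.abscissaOfAbsConv_le_of_le_const ⟨m, fun n _ => hgb n⟩
  have hlm : LSeries.logMul g = fun n => ((ArithmeticFunction.vonMangoldt n : ℝ) : ℂ) * c n := by
    funext n
    unfold LSeries.logMul
    rw [hg]
    simp only
    rcases Nat.lt_or_ge n 2 with h | h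
    · interval_cases n <;> simp
    · have h1 : (Real.log n : ℂ) ≠ 0 := by
        have : 0 < Real.log (n : ℝ) := Real.log_pos (by exact_mod_cast (by omega : 1 < n))
        exact_mod_cast this.ne'
      have e1 : Complex.log (n : ℂ) = ((Real.log n : ℝ) : ℂ) := by
        rw [Complex.ofReal_log (Nat.cast_nonneg n), ofReal_natCast]
      rw [e1, Complex.ofReal_div]
      field_simp
  -- the logarithm
  have hE : ∀ z : ℂ, 1 < z.re → HasDerivAt (LSeries g) (deriv L z / L z) z := by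
    intro z hz
    have h1 := LSeries_hasDerivAt (f := g) (s := z) (lt_of_le_of_lt habs (by exact_mod_cast hz))
    rw [hlm, ← hld z hz] at h1
    exact h1
  have hopen : IsOpen {z : ℂ | 1 < z.re} := isOpen_lt continuous_const Complex.continuous_re
  have hder : ∀ z : ℂ, 1 < z.re → HasDerivAt (fun z => L z * cexp (-LSeries g z)) 0 z := by
    intro z hz
    have h1 := (hL z hz).hasDerivAt.mul ((hE z hz).neg.cexp)
    refine h1.congr_deriv ?_
    simp only [Pi.neg_apply]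
    have := hne z hz
    field_simp
    ring
  have hconst : ∀ z w : ℂ, 1 < z.re → 1 < w.re → L z * cexp (-LSeries g z) = L w * cexp (-LSeries g w) := by
    intro z w hz hw
    refine hopen.is_const_of_deriv_eq_zero isPre (fun z hz => (hder z hz).differentiableAt.differentiableWithinAt)
      (fun z hz => (hder z hz).deriv) hz hw
  have hlim2 : Tendsto (fun x : ℝ => L x * cexp (-LSeries g x)) atTop (𝓝 1) := by
    have h1 : Tendsto (fun x : ℝ => LSeries g x) atTop (𝓝 (g 1)) :=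
      LSeries.tendsto_atTop (lt_of_le_of_lt habs (EReal.coe_lt_top 1))
    have h2 : g 1 = 0 := by rw [hg]; simp
    rw [h2] at h1
    have h3 := hlim.mul (h1.neg.cexp)
    simpa using h3
  have hone : L s * cexp (-LSeries g s) = 1 := by
    refine tendsto_nhds_unique ?_ hlim2
    refine tendsto_const_nhds.congr' ?_
    filter_upwards [eventually_gt_atTop (1 : ℝ)] with x hx
    exact hconst s x (by linarith) (by simpa using hx)
  have hLe : L s = cexp (LSeries g s) := by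
    have h1 : L s * cexp (-LSeries g s) * cexp (LSeries g s) = cexp (LSeries g s) := by rw [hone, one_mul]
    rwa [mul_assoc, ← Complex.exp_add, neg_add_cancel, Complex.exp_zero, mul_one] at h1
  have hbd : ‖LSeries g s‖ ≤ m * b0 := by
    have hsum : Summable fun n : ℕ => ‖LSeries.term (fun _ => (1 : ℂ)) 2 n‖ :=
      (LSeriesSummable_one_iff.2 (by norm_num : (1 : ℝ) < (2 : ℂ).re)).norm
    have hle : ∀ n : ℕ, ‖LSeries.term g s n‖ ≤ m * ‖LSeries.term (fun _ => (1 : ℂ)) 2 n‖ := by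
      intro n
      rcases Nat.eq_zero_or_pos n with rfl | hn
      · simp
      · have hn1 : (1 : ℝ) ≤ n := by exact_mod_cast hn
        rw [LSeries.norm_term_eq, LSeries.norm_term_eq, if_neg hn.ne', if_neg hn.ne', norm_one]
        have h1 : (n : ℝ) ^ (2 : ℂ).re ≤ (n : ℝ) ^ s.re :=
          Real.rpow_le_rpow_of_exponent_le hn1 (by simpa using hs)
        have h2 : 0 < (n : ℝ) ^ (2 : ℂ).re := Real.rpow_pos_of_pos (by linarith) _
        calc ‖g n‖ / (n : ℝ) ^ s.re ≤ m / (n : ℝ) ^ (2 : ℂ).re := by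
              gcongr
              exact hgb n
          _ = _ := by ring
    have h3 : Summable fun n : ℕ => ‖LSeries.term g s n‖ :=
      Summable.of_nonneg_of_le (fun _ => norm_nonneg _) hle (hsum.mul_left _)
    unfold LSeries b0
    refine (norm_tsum_le_tsum_norm h3).trans ?_
    rw [← tsum_mul_left]
    exact h3.tsum_le_tsum hle (hsum.mul_left _)
  have habs2 := (abs_re_le_norm (LSeries g s)).trans hbd
  rw [abs_le] at habs2
  rw [hLe, Complex.norm_exp]
  refine ⟨Real.exp_le_exp.2 habs2.2, ?_⟩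
  rw [← Real.exp_add]
  exact Real.one_le_exp (by linarith)

variable {m r : ℕ} {N : ℝ} {μ : Fin m → ℂ} {X : ℂ → ℂ}

/-- the formula for the completed function holds for `Re s > 1` -/
lemma eq_ext (hm : 1 ≤ m) (hN : 1 ≤ N) (hμ : ∀ j, (μ j).re ≤ 1 / 2) (hX : Differentiable ℂ X) {L : ℂ → ℂ}
    (hL : ∀ s : ℂ, 1 < s.re → DifferentiableAt ℂ L s)
    (heq : ∃ σ : ℝ, ∀ s : ℂ, σ ≤ s.re → X s = pp r s * gaf N μ s * L s) {s : ℂ} (hs : 1 < s.re) :
    X s = pp r s * gaf N μ s * L s := by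
  have hgp := gaf_GP hm hN hμ
  obtain ⟨σ, hσ⟩ := heq
  have h1 : AnalyticOnNhd ℂ X {s : ℂ | 1 < s.re} := fun z _ => hX.analyticAt z
  have hopen : IsOpen {s : ℂ | 1 < s.re} := isOpen_lt continuous_const Complex.continuous_re
  have h2 : AnalyticOnNhd ℂ (fun s => pp r s * gaf N μ s * L s) {s : ℂ | 1 < s.re} := by
    refine DifferentiableOn.analyticOnNhd (fun z hz => ?_) hopen
    have hz' : 1 < z.re := hz
    have e1 := (hgp.der z hz'.le).differentiableAt
    have e2 := hL z hz'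
    have e3 : DifferentiableAt ℂ (pp r) z := by
      unfold pp
      fun_prop
    exact ((e3.mul e1).mul e2).differentiableWithinAt
  have hz0 : ((max σ 2 + 1 : ℝ) : ℂ) ∈ {s : ℂ | 1 < s.re} := by
    have := le_max_right σ 2
    show 1 < (((max σ 2 + 1 : ℝ) : ℂ)).re
    rw [Complex.ofReal_re]
    linarith
  refine h1.eqOn_of_preconnected_of_eventuallyEq h2 isPre hz0 ?_ hs
  have h3 : ∀ᶠ z : ℂ in 𝓝 ((max σ 2 + 1 : ℝ) : ℂ), σ < z.re := by
    have := le_max_left σ 2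
    exact (Complex.continuous_re.tendsto _).eventually (lt_mem_nhds (by
      rw [Complex.ofReal_re]
      linarith))
  filter_upwards [h3] with z hz
  exact hσ z hz.le

/-- membership in the class -/
theorem wp_of (hm : 1 ≤ m) (hN : 1 ≤ N) (hμ : ∀ j, (μ j).re ≤ 1 / 2) (hX : Slow X)
    (hfe : ∃ ε : ℂ, ‖ε‖ = 1 ∧ ∀ s : ℂ, X s = ε * conj (X (1 - conj s))) {L : ℂ → ℂ} {c : ℕ → ℂ}
    (hL : ∀ s : ℂ, 1 < s.re → DifferentiableAt ℂ L s) (hne : ∀ s : ℂ, 1 < s.re → L s ≠ 0)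
    (hld : ∀ s : ℂ, 1 < s.re → deriv L s / L s =
      -LSeries (fun n => ((ArithmeticFunction.vonMangoldt n : ℝ) : ℂ) * c n) s)
    (hc : ∀ n, ‖c n‖ ≤ m) (hlim : Tendsto (fun x : ℝ => L x) atTop (𝓝 1))
    (heq : ∃ σ : ℝ, ∀ s : ℂ, σ ≤ s.re → X s = pp r s * gaf N μ s * L s) : WP r (Real.exp (m * b0)) N μ X := by
  have hgp := gaf_GP hm hN hμ
  have heq' : ∀ s : ℂ, 1 < s.re → X s = pp r s * gaf N μ s * L s := fun s hs => eq_ext hm hN hμ hX.1 hL heq hs
  refine ⟨hN, hμ, hX, hfe, fun s hs => ?_, fun s hs => ?_, fun s hs => ?_⟩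
  · rw [heq' s (by linarith), norm_mul, norm_mul]
    have h1 := (log_bd hL hne hld hc hlim hs).1
    rw [mul_comm (Real.exp _)]
    exact mul_le_mul_of_nonneg_left h1 (by positivity)
  · rw [heq' s (by linarith), norm_mul, norm_mul]
    have h1 := (log_bd hL hne hld hc hlim hs).2
    calc ‖pp r s‖ * ‖gaf N μ s‖ = ‖pp r s‖ * ‖gaf N μ s‖ * 1 := (mul_one _).symm
      _ ≤ ‖pp r s‖ * ‖gaf N μ s‖ * (Real.exp (m * b0) * ‖L s‖) := mul_le_mul_of_nonneg_left h1 (by positivity)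
      _ = _ := by ring
  · rw [heq' s hs]
    refine mul_ne_zero (mul_ne_zero (pp_ne r (fun h => ?_) fun h => ?_) (hgp.ne s hs.le)) (hne s hs)
    · rw [h] at hs
      norm_num at hs
    · rw [h] at hs
      norm_num at hs

/-- products -/
theorem WP.mul {m1 m2 r1 r2 : ℕ} {B1 B2 N1 N2 : ℝ} {μ1 : Fin m1 → ℂ} {μ2 : Fin m2 → ℂ} {X1 X2 : ℂ → ℂ}
    (hB1 : 0 ≤ B1) (h1 : WP r1 B1 N1 μ1 X1) (h2 : WP r2 B2 N2 μ2 X2) :
    WP (r1 + r2) (B1 * B2) (N1 * N2) (Fin.append μ1 μ2) (fun s => X1 s * X2 s) := by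
  have hN1 := h1.one_le
  have hN2 := h2.one_le
  have hpp : ∀ s : ℂ, pp (r1 + r2) s = pp r1 s * pp r2 s := fun s => by unfold pp; rw [pow_add]
  refine ⟨by nlinarith, fun j => ?_, slow_mul h1.slow h2.slow, ?_, fun s hs => ?_, fun s hs => ?_,
    fun s hs => mul_ne_zero (h1.nz s hs) (h2.nz s hs)⟩
  · refine Fin.addCases (fun i => ?_) (fun i => ?_) j
    · rw [Fin.append_left]; exact h1.re_le i
    · rw [Fin.append_right]; exact h2.re_le i
  · obtain ⟨ε1, e1, f1⟩ := h1.fe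
    obtain ⟨ε2, e2, f2⟩ := h2.fe
    refine ⟨ε1 * ε2, by rw [norm_mul, e1, e2, one_mul], fun s => ?_⟩
    show X1 s * X2 s = ε1 * ε2 * conj (X1 (1 - conj s) * X2 (1 - conj s))
    rw [f1 s, f2 s, map_mul]
    ring
  · rw [hpp, gaf_append (by linarith) (by linarith), norm_mul, norm_mul, norm_mul]
    calc ‖X1 s‖ * ‖X2 s‖ ≤ (B1 * (‖pp r1 s‖ * ‖gaf N1 μ1 s‖)) * (B2 * (‖pp r2 s‖ * ‖gaf N2 μ2 s‖)) :=
          mul_le_mul (h1.hi s hs) (h2.hi s hs) (norm_nonneg _) (mul_nonneg hB1 (by positivity))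
      _ = _ := by ring
  · rw [hpp, gaf_append (by linarith) (by linarith), norm_mul, norm_mul, norm_mul]
    calc ‖pp r1 s‖ * ‖pp r2 s‖ * (‖gaf N1 μ1 s‖ * ‖gaf N2 μ2 s‖) =
        (‖pp r1 s‖ * ‖gaf N1 μ1 s‖) * (‖pp r2 s‖ * ‖gaf N2 μ2 s‖) := by ring
      _ ≤ (B1 * ‖X1 s‖) * (B2 * ‖X2 s‖) := mul_le_mul (h1.lo s hs) (h2.lo s hs) (by positivity) (mul_nonneg hB1 (norm_nonneg _))
      _ = _ := by ring

end Q240.OW
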