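import Pool.Agent.Q240.OW.P3
import Pool.Agent.Q240.OW.P4
import Pool.Agent.W355.UN.Inst2

/-!
# L-functions with an Euler product: uniqueness, uniformity in the degree and in the order of the pole
-/

set_option autoImplicit false

open Complex Filter Topology Set Polynomial
open scoped ComplexConjugate

namespace Q240.OW

open Pool.Agent.W169.HF Pool.Agent.W355.UN Q240.GS
open H353.E hiding LD

theorem wp_raw {l : List ℂ} {r : ℕ} {N : ℝ} {b c : ℕ → ℂ} {X : ℂ → ℂ} (h : RawL l r N b c X) :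
    WP r (Real.exp (l.length * b0)) N (fun j => -(l.get j)) X := by
  have hC := Pool.Agent.W672.UN.coef
  have hre : ∀ j : Fin l.length, ((fun j => -(l.get j)) j).re ≤ 1 / 2 := Raw.re_le h
  refine wp_of h.hm h.hN hre (h.slow hC Pool.Agent.W12.UN.slow Pool.Agent.W215.UN.gam) h.fe (L := LSeries b) (c := c)
    (fun s hs => lser_an hC h hs) (fun s hs => (hC _ b c h.one h.cb h.conv s hs).2.1) (fun s hs => ?_) h.cb ?_ ?_
  · rw [← logDeriv_apply]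
    exact (hC _ b c h.one h.cb h.conv s hs).2.2
  · have h1 := LSeries.tendsto_atTop (f := b) (lt_of_le_of_lt (absc_le hC h) (EReal.coe_lt_top 1))
    rwa [h.one] at h1
  · obtain ⟨σ, hσ⟩ := h.eq
    refine ⟨σ, fun s hs => ?_⟩
    rw [hσ s hs, gaf_eq]
    rfl

variable {m r : ℕ} {N : ℝ} {μ : Fin m → ℂ} {X : ℂ → ℂ}

lemma pre01 : IsPreconnected ({0, 1}ᶜ : Set ℂ) := by
  have h : ({0, 1} : Set ℂ).Countable := (Set.finite_singleton (1 : ℂ)).countable.insert 0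
  exact (h.isPathConnected_compl_of_one_lt_rank (by rw [Complex.rank_real_complex]; exact Cardinal.one_lt_two)).isConnected.isPreconnected

theorem LQ_unique (hm : 1 ≤ m) (hN : 1 ≤ N) (hμ : ∀ j, (μ j).re ≤ 1 / 2) (hX : Differentiable ℂ X) {L : ℂ → ℂ}
    (hL : ∀ s : ℂ, s ≠ 0 → s ≠ 1 → AnalyticAt ℂ L s)
    (heq : ∃ σ : ℝ, ∀ s : ℂ, σ ≤ s.re → X s = pp r s * gaf N μ s * L s) {s : ℂ} (h0 : s ≠ 0) (h1 : s ≠ 1) :
    L s = LQ r N μ X s := by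
  obtain ⟨σ, hσ⟩ := heq
  have hgp := gaf_GP hm hN hμ
  have a1 : AnalyticOnNhd ℂ L ({0, 1}ᶜ : Set ℂ) := fun z hz => by
    rw [mem_compl_iff, mem_insert_iff, mem_singleton_iff, not_or] at hz
    exact hL z hz.1 hz.2
  have a2 : AnalyticOnNhd ℂ (LQ r N μ X) ({0, 1}ᶜ : Set ℂ) := fun z hz => by
    rw [mem_compl_iff, mem_insert_iff, mem_singleton_iff, not_or] at hz
    exact LQ_an hN hX hz.1 hz.2
  have hne : ∀ z : ℂ, 1 < z.re → z ≠ 0 ∧ z ≠ 1 := fun z hz => by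
    constructor <;> rintro rfl <;> norm_num at hz
  have hz0 : ((max σ 2 + 1 : ℝ) : ℂ) ∈ ({0, 1}ᶜ : Set ℂ) := by
    have := le_max_right σ 2
    rw [mem_compl_iff, mem_insert_iff, mem_singleton_iff, not_or]
    exact hne _ (by rw [ofReal_re]; linarith)
  refine a1.eqOn_of_preconnected_of_eventuallyEq a2 pre01 hz0 ?_ (by
    rw [mem_compl_iff, mem_insert_iff, mem_singleton_iff, not_or]
    exact ⟨h0, h1⟩)
  have h3 : ∀ᶠ z : ℂ in 𝓝 ((max σ 2 + 1 : ℝ) : ℂ), max σ 2 < z.re :=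
    (Complex.continuous_re.tendsto _).eventually (lt_mem_nhds (by
      rw [Complex.ofReal_re]
      linarith))
  filter_upwards [h3] with z hz
  have hz1 : σ ≤ z.re := (le_max_left σ 2).trans hz.le
  have hz2 : 2 < z.re := lt_of_le_of_lt (le_max_right σ 2) hz
  obtain ⟨n0, n1⟩ := hne z (by linarith)
  unfold LQ
  rw [LL_eq (by linarith : 0 < N), XX_la hN, hσ z hz1]
  have g1 := hgp.ne z (by linarith)
  have g2 := pp_ne r n0 n1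
  field_simp

/-- the functions `P(D) L + ∑ c(l) exp(-l s)` agree -/
theorem LD_unique (hm : 1 ≤ m) (hN : 1 ≤ N) (hμ : ∀ j, (μ j).re ≤ 1 / 2) (hX : Differentiable ℂ X) {L : ℂ → ℂ}
    (hL : ∀ s : ℂ, s ≠ 0 → s ≠ 1 → AnalyticAt ℂ L s)
    (heq : ∃ σ : ℝ, ∀ s : ℂ, σ ≤ s.re → X s = pp r s * gaf N μ s * L s) (P : ℂ[X]) (S : Finset ℝ) (c : ℝ → ℂ)
    {s : ℂ} (h0 : s ≠ 0) (h1 : s ≠ 1) : LD L P S c s = LD (LQ r N μ X) P S c s := by
  have hev : L =ᶠ[𝓝 s] LQ r N μ X := by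
    filter_upwards [isOpen_ne.mem_nhds h0, isOpen_ne.mem_nhds h1] with z hz0 hz1
    exact LQ_unique hm hN hμ hX hL heq hz0 hz1
  have hd : ∀ i : ℕ, iteratedDeriv i L s = iteratedDeriv i (LQ r N μ X) s := fun i =>
    (hev.iteratedDeriv_eq i)
  unfold LD
  simp only [hd]

/-- **Shadows**, uniformly in the degree and the order of the pole. -/
theorem shadow_u (D : ℕ) (P Q : ℂ[X]) (hP : P ≠ 0) (hQ : Q ≠ 0) (S R : Finset ℝ) (B α ε : ℝ) (hB : 0 ≤ B)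
    (hα : α ≤ 1 / 2) (hε : 0 < ε) : ∃ X0 : ℝ, 1 ≤ X0 ∧ ∀ (m r : ℕ), 1 ≤ m → m ≤ D → r ≤ D →
    ∀ (N : ℝ) (μ : Fin m → ℂ) (X : ℂ → ℂ), WP r (Real.exp (m * b0)) N μ X →
    ∀ L : ℂ → ℂ, (∀ s : ℂ, s ≠ 0 → s ≠ 1 → AnalyticAt ℂ L s) →
    (∃ σ : ℝ, ∀ s : ℂ, σ ≤ s.re → X s = pp r s * gaf N μ s * L s) →
    ∀ c d : ℝ → ℂ, (∀ l ∈ S, ‖c l‖ ≤ B) → (∀ l ∈ R, ‖d l‖ ≤ B) →
    ∀ ρ : ℂ, X0 ≤ |ρ.im| → (∀ j, X0 ≤ |ρ.im - (μ j).im|) → LD L P S c ρ = 0 → -1 / 4 ≤ ρ.re → ρ.re ≤ α - ε →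
      ∃ s : ℂ, LD L Q R d s = 0 ∧ -1 / 4 < s.re ∧ s.re < α ∧ |s.im - ρ.im| ≤ X0 := by
  classical
  have key : ∀ q : ℕ × ℕ, ∃ X0 : ℝ, 1 ≤ X0 ∧ (1 ≤ q.1 →
      ∀ (N : ℝ) (μ : Fin q.1 → ℂ) (X : ℂ → ℂ), WP q.2 (Real.exp (q.1 * b0)) N μ X →
    ∀ c d : ℝ → ℂ, (∀ l ∈ S, ‖c l‖ ≤ B) → (∀ l ∈ R, ‖d l‖ ≤ B) →
    ∀ ρ : ℂ, X0 ≤ |ρ.im| → (∀ j, X0 ≤ |ρ.im - (μ j).im|) →
    LD (LQ q.2 N μ X) P S c ρ = 0 → -1 / 4 ≤ ρ.re → ρ.re ≤ α - ε →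
      ∃ s : ℂ, LD (LQ q.2 N μ X) Q R d s = 0 ∧ -1 / 4 < s.re ∧ s.re < α ∧ |s.im - ρ.im| ≤ X0) := by
    rintro ⟨m, r⟩
    rcases Nat.eq_zero_or_pos m with h | h
    · exact ⟨1, le_rfl, fun h1 => by omega⟩
    · obtain ⟨X0, hX0, H⟩ := shadow_WP (r := r) h (Real.one_le_exp (mul_nonneg (Nat.cast_nonneg m) b0_nonneg))
        P Q hP hQ S R B α ε hB hα hε
      exact ⟨X0, hX0, fun _ => H⟩
  choose f hf1 hf2 using key
  obtain ⟨T, hT⟩ : ∃ T : Finset (ℕ × ℕ), T = Finset.range (D + 1) ×ˢ Finset.range (D + 1) := ⟨_, rfl⟩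
  have hle : ∀ q ∈ T, f q ≤ ∑ q ∈ T, f q := fun q hq =>
    Finset.single_le_sum (f := f) (fun i _ => by linarith [hf1 i]) hq
  have hmem : ∀ m r : ℕ, m ≤ D → r ≤ D → (m, r) ∈ T := fun m r h1 h2 => by
    rw [hT, Finset.mem_product]
    exact ⟨Finset.mem_range.2 (by omega), Finset.mem_range.2 (by omega)⟩
  refine ⟨1 + ∑ q ∈ T, f q, ?_, fun m r hm hmD hrD N μ X hX L hL heq c d hc hd ρ h1 h2 h3 h4 h5 => ?_⟩
  · have := Finset.sum_nonneg (s := T) (f := f) fun i _ => by linarith [hf1 i]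
    linarith
  · have hb := hle _ (hmem m r hmD hrD)
    have hb1 := hf1 (m, r)
    have hne : ∀ z : ℂ, 1 ≤ |z.im| → z ≠ 0 ∧ z ≠ 1 := fun z hz => by
      constructor <;> rintro rfl <;> norm_num at hz
    obtain ⟨n0, n1⟩ := hne ρ (by linarith)
    rw [LD_unique hm hX.one_le hX.re_le hX.slow.1 hL heq P S c n0 n1] at h3
    obtain ⟨s, s1, s2, s3, s4⟩ := hf2 (m, r) hm N μ X hX c d hc hd ρ (by linarith)
      (fun j => by have := h2 j; linarith) h3 h4 h5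
    have hs : 1 ≤ |s.im| := by
      have h6 : |ρ.im| ≤ |s.im| + |s.im - ρ.im| := by
        calc |ρ.im| = |s.im - (s.im - ρ.im)| := by congr 1; ring
          _ ≤ _ := abs_sub _ _
      linarith
    obtain ⟨n2, n3⟩ := hne s hs
    refine ⟨s, ?_, s2, s3, by linarith⟩
    rw [LD_unique hm hX.one_le hX.re_le hX.slow.1 hL heq Q R d n2 n3]
    exact s1

end Q240.OW
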