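import Pool.Agent.Q240.OW.D1

/-!
# Counting the zeros off a line, and a numerical estimate
-/

set_option autoImplicit false

open Complex Filter Topology Set

namespace Q240.OW

/-- the zeros off the line, in terms of those in the upper half plane -/
theorem card_off {Λ : ℂ → ℂ} (hd : Differentiable ℂ Λ) (hnz : ∀ s : ℂ, 3 / 2 < s.re → Λ s ≠ 0)
    (hfe : ∀ s : ℂ, Λ s = 0 → Λ (2 - s) = 0) : ∃ R : ℝ, 0 ≤ R ∧ ∀ (d T b : ℝ) (Z : Set ℂ),
      Z = {s | Λ s = 0 ∧ d ≤ |s.re - 1| ∧ 0 < s.im ∧ s.im ≤ T} → Z.Finite →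
      ((∑ᶠ s ∈ Z, analyticOrderNatAt Λ s : ℕ) : ℝ) ≤ b →
      ∃ O : Finset ℂ, (∀ s : ℂ, Λ s = 0 → d ≤ |s.re - 1| → |s.im| ≤ T → s ∈ O) ∧ (O.card : ℝ) ≤ R + 2 * b := by
  classical
  have hΛ0 : ∃ s, Λ s ≠ 0 := ⟨2, hnz 2 (by norm_num)⟩
  have hR := fin_zeros (fun z => hd.analyticAt z) hΛ0 (E := Icc (1 / 2) (3 / 2) ×ℂ Icc 0 0)
    (isCompact_Icc.reProdIm isCompact_Icc)
  refine ⟨hR.toFinset.card, Nat.cast_nonneg _, fun d T b Z hZ hfin hb => ?_⟩
  have hord : ∀ s : ℂ, Λ s = 0 → 1 ≤ analyticOrderNatAt Λ s := by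
    intro s hs
    have han : AnalyticAt ℂ Λ s := hd.analyticAt s
    have h1 : analyticOrderAt Λ s ≠ 0 := fun h => by
      rw [han.analyticOrderAt_eq_zero] at h
      exact h hs
    have h2 : analyticOrderAt Λ s ≠ ⊤ := by
      intro h
      rw [analyticOrderAt_eq_top] at h
      obtain ⟨w, hw⟩ := hΛ0
      have hFan : AnalyticOnNhd ℂ Λ univ := fun z _ => hd.analyticAt z
      exact hw (hFan.eqOn_zero_of_preconnected_of_eventuallyEq_zero isPreconnected_univ (mem_univ s) h (mem_univ w))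
    unfold analyticOrderNatAt
    rw [Nat.one_le_iff_ne_zero]
    intro h3
    rcases ENat.toNat_eq_zero.1 h3 with h4 | h4
    · exact h1 h4
    · exact h2 h4
  have hZc : (hfin.toFinset.card : ℝ) ≤ b := by
    refine le_trans ?_ hb
    rw [finsum_mem_eq_finite_toFinset_sum _ hfin]
    have : hfin.toFinset.card ≤ ∑ s ∈ hfin.toFinset, analyticOrderNatAt Λ s := by
      rw [Finset.card_eq_sum_ones]
      refine Finset.sum_le_sum fun s hs => hord s ?_
      rw [Set.Finite.mem_toFinset, hZ] at hs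
      exact hs.1
    exact_mod_cast this
  refine ⟨hR.toFinset ∪ (hfin.toFinset ∪ hfin.toFinset.image fun s => 2 - s), fun s h1 h2 h3 => ?_, ?_⟩
  · rw [Finset.mem_union, Finset.mem_union]
    rcases lt_trichotomy s.im 0 with h4 | h4 | h4
    · right; right
      refine Finset.mem_image.2 ⟨2 - s, ?_, by ring⟩
      rw [Set.Finite.mem_toFinset, hZ]
      refine ⟨hfe s h1, ?_, ?_, ?_⟩
      · simp only [sub_re, re_ofNat]
        rwa [show (2 : ℝ) - s.re - 1 = -(s.re - 1) by ring, abs_neg]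
      · simp only [sub_im, im_ofNat]
        linarith
      · simp only [sub_im, im_ofNat]
        rw [abs_of_neg h4] at h3
        linarith
    · left
      rw [Set.Finite.mem_toFinset]
      refine ⟨?_, h1⟩
      rw [mem_reProdIm]
      refine ⟨⟨?_, ?_⟩, by rw [h4]; exact ⟨le_rfl, le_rfl⟩⟩
      · by_contra hcon
        push Not at hcon
        exact hnz (2 - s) (by simp only [sub_re, re_ofNat]; linarith) (hfe s h1)
      · by_contra hcon
        push Not at hcon
        exact hnz s hcon h1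
    · right; left
      rw [Set.Finite.mem_toFinset, hZ]
      rw [abs_of_pos h4] at h3
      exact ⟨h1, h2, h4, h3⟩
  · have h1 := Finset.card_union_le hR.toFinset (hfin.toFinset ∪ hfin.toFinset.image fun s => 2 - s)
    have h2 := Finset.card_union_le hfin.toFinset (hfin.toFinset.image fun s => 2 - s)
    have h3 := Finset.card_image_le (s := hfin.toFinset) (f := fun s : ℂ => 2 - s)
    have h4 : (((hR.toFinset ∪ (hfin.toFinset ∪ hfin.toFinset.image fun s => 2 - s)).card : ℕ) : ℝ) ≤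
        hR.toFinset.card + (hfin.toFinset.card + hfin.toFinset.card) := by
      exact_mod_cast by omega
    linarith

/-- a numerical estimate -/
theorem num_bd {R C1 C2 X e η f : ℝ} (hR : 0 ≤ R) (hC1 : 0 ≤ C1) (hC2 : 0 ≤ C2) (hX : 0 ≤ X) (hη : 0 < η)
    (h1 : e + η ≤ f) (h2 : η ≤ f) : ∃ C : ℝ, 0 ≤ C ∧ ∀ T : ℝ, 2 ≤ T →
      C1 * (1 + (R + 2 * (C2 * (T + X) ^ e * Real.log (T + X)))) * Real.log T ≤ C * T ^ f := by
  obtain ⟨D, hD⟩ : ∃ D : ℝ, D = 1 + X := ⟨_, rfl⟩
  have hD1 : 1 ≤ D := by linarith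
  have hlD : 0 ≤ Real.log D := Real.log_nonneg hD1
  have hl2 : 0 < Real.log 2 := Real.log_pos one_lt_two
  refine ⟨C1 * (1 + R) * (1 / η) + C1 * (2 * (C2 * D ^ |e| * (Real.log D / Real.log 2 + 1))) * (2 / η) ^ 2,
    by positivity, fun T hT => ?_⟩
  have hT0 : 0 < T := by linarith
  have hT1 : 1 ≤ T := by linarith
  have hlT : Real.log 2 ≤ Real.log T := Real.log_le_log (by norm_num) hT
  have hlT0 : 0 ≤ Real.log T := by linarith
  have e1 : (T + X) ^ e ≤ D ^ |e| * T ^ e := by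
    have hle : T + X ≤ D * T := by rw [hD]; nlinarith
    rcases le_or_gt 0 e with he | he
    · rw [abs_of_nonneg he, ← Real.mul_rpow (by linarith) hT0.le]
      exact Real.rpow_le_rpow (by linarith) hle he
    · have h3 : (T + X) ^ e ≤ T ^ e := Real.rpow_le_rpow_of_nonpos hT0 (by linarith) he.le
      have h4 : 1 ≤ D ^ |e| := Real.one_le_rpow hD1 (abs_nonneg e)
      calc (T + X) ^ e ≤ T ^ e := h3
        _ = 1 * T ^ e := (one_mul _).symm
        _ ≤ D ^ |e| * T ^ e := mul_le_mul_of_nonneg_right h4 (Real.rpow_nonneg hT0.le _)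
  have e2 : Real.log (T + X) ≤ (Real.log D / Real.log 2 + 1) * Real.log T := by
    have hle : T + X ≤ D * T := by rw [hD]; nlinarith
    have h3 := Real.log_le_log (by linarith) hle
    rw [Real.log_mul (by linarith) hT0.ne'] at h3
    have h4 : Real.log D ≤ Real.log D / Real.log 2 * Real.log T := by
      rw [div_mul_eq_mul_div, le_div_iff₀ hl2]
      exact mul_le_mul_of_nonneg_left hlT hlD
    linarith
  have e3 : Real.log T ≤ (1 / η) * T ^ η := by
    have := Real.log_le_rpow_div hT0.le hη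
    rw [one_div, inv_mul_eq_div]
    exact this
  have e4 : Real.log T * Real.log T ≤ (2 / η) ^ 2 * T ^ η := by
    have h3 := Real.log_le_rpow_div hT0.le (show 0 < η / 2 by linarith)
    have h4 : T ^ η = T ^ (η / 2) * T ^ (η / 2) := by
      rw [← Real.rpow_add hT0]
      congr 1
      ring
    have h5 : T ^ (η / 2) / (η / 2) = 2 / η * T ^ (η / 2) := by
      field_simp
    rw [h5] at h3
    calc Real.log T * Real.log T ≤ (2 / η * T ^ (η / 2)) * (2 / η * T ^ (η / 2)) :=
          mul_le_mul h3 h3 hlT0 (by positivity)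
      _ = _ := by rw [h4]; ring
  have e5 : T ^ η ≤ T ^ f := Real.rpow_le_rpow_of_exponent_le hT1 h2
  have e6 : T ^ e * T ^ η ≤ T ^ f := by
    rw [← Real.rpow_add hT0]
    exact Real.rpow_le_rpow_of_exponent_le hT1 h1
  have hTe : 0 ≤ T ^ e := Real.rpow_nonneg hT0.le _
  have hTη : 0 ≤ T ^ η := Real.rpow_nonneg hT0.le _
  have hTX : 0 ≤ (T + X) ^ e := Real.rpow_nonneg (by linarith) _
  obtain ⟨Q, hQ⟩ : ∃ Q : ℝ, Q = 2 * (C2 * D ^ |e| * (Real.log D / Real.log 2 + 1)) := ⟨_, rfl⟩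
  have hQ0 : 0 ≤ Q := by rw [hQ]; positivity
  have e7 : 2 * (C2 * (T + X) ^ e * Real.log (T + X)) ≤ Q * T ^ e * Real.log T := by
    have h3 : (T + X) ^ e * Real.log (T + X) ≤
        (D ^ |e| * T ^ e) * ((Real.log D / Real.log 2 + 1) * Real.log T) :=
      mul_le_mul e1 e2 (Real.log_nonneg (by linarith)) (by positivity)
    calc 2 * (C2 * (T + X) ^ e * Real.log (T + X)) = 2 * C2 * ((T + X) ^ e * Real.log (T + X)) := by ring
      _ ≤ 2 * C2 * ((D ^ |e| * T ^ e) * ((Real.log D / Real.log 2 + 1) * Real.log T)) :=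
          mul_le_mul_of_nonneg_left h3 (by positivity)
      _ = _ := by rw [hQ]; ring
  rw [← hQ]
  calc C1 * (1 + (R + 2 * (C2 * (T + X) ^ e * Real.log (T + X)))) * Real.log T
      ≤ C1 * (1 + (R + Q * T ^ e * Real.log T)) * Real.log T := by
        apply mul_le_mul_of_nonneg_right _ hlT0
        apply mul_le_mul_of_nonneg_left _ hC1
        linarith
    _ = C1 * (1 + R) * Real.log T + C1 * Q * (T ^ e * (Real.log T * Real.log T)) := by ring
    _ ≤ C1 * (1 + R) * ((1 / η) * T ^ f) + C1 * Q * ((2 / η) ^ 2 * T ^ f) := by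
        apply add_le_add
        · apply mul_le_mul_of_nonneg_left _ (by positivity)
          exact e3.trans (mul_le_mul_of_nonneg_left e5 (by positivity))
        · apply mul_le_mul_of_nonneg_left _ (by positivity)
          calc T ^ e * (Real.log T * Real.log T) ≤ T ^ e * ((2 / η) ^ 2 * T ^ η) :=
                mul_le_mul_of_nonneg_left e4 hTe
            _ = (2 / η) ^ 2 * (T ^ e * T ^ η) := by ring
            _ ≤ (2 / η) ^ 2 * T ^ f := mul_le_mul_of_nonneg_left e6 (by positivity)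
    _ = _ := by ring

end Q240.OW
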