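import Pool.Agent.Q240.OW.K5
import Pool.Agent.Q240.GS.N7

/-!
# The number of the left zeros, for one L-function of degree `2 n`
-/

set_option autoImplicit false

open Complex Filter Topology Set Polynomial
open scoped ComplexConjugate

namespace Q240.OW

open Pool.Agent.W169.HF hiding cnd
open H353.E hiding LD
open Pool.Agent.W355.UN Pool.Agent.TH839.UH Q240.GS

/-- covering -/
theorem cover_sum {α β : Type*} (Z : Finset α) (m : α → ℝ) (hm : ∀ z, 0 ≤ m z) (W : Finset β)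
    (r : α → β → Prop) (x : ℝ) (h1 : ∀ z ∈ Z, ∃ w ∈ W, r z w)
    (h2 : ∀ w ∈ W, ∀ Y : Finset α, (∀ y ∈ Y, y ∈ Z ∧ r y w) → ∑ y ∈ Y, m y ≤ x) :
    ∑ z ∈ Z, m z ≤ W.card * x := by
  classical
  calc ∑ z ∈ Z, m z ≤ ∑ z ∈ Z, ∑ w ∈ W, (if r z w then m z else 0) := by
        refine Finset.sum_le_sum fun z hz => ?_
        obtain ⟨w, hw, hr⟩ := h1 z hz
        have h3 := Finset.single_le_sum (f := fun w => if r z w then m z else 0) (fun w _ => by
          show 0 ≤ if r z w then m z else 0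
          split_ifs
          · exact hm z
          · exact le_rfl) hw
        simp only [if_pos hr] at h3
        exact h3
    _ = ∑ w ∈ W, ∑ z ∈ Z, (if r z w then m z else 0) := Finset.sum_comm
    _ ≤ ∑ _w ∈ W, x := by
        refine Finset.sum_le_sum fun w hw => ?_
        rw [← Finset.sum_filter]
        refine h2 w hw _ fun y hy => ?_
        exact Finset.mem_filter.1 hy
    _ = _ := by rw [Finset.sum_const, nsmul_eq_mul]

/-- an entire function which is not identically zero has finitely many zeros in a compact set -/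
theorem fin_zeros {G : ℂ → ℂ} (hG : ∀ z, AnalyticAt ℂ G z) (h0 : ∃ s, G s ≠ 0) {E : Set ℂ} (hE : IsCompact E) :
    {s : ℂ | s ∈ E ∧ G s = 0}.Finite := by
  by_contra hcon
  have hinf : {s : ℂ | s ∈ E ∧ G s = 0}.Infinite := hcon
  obtain ⟨x, -, hx⟩ := hinf.exists_accPt_of_subset_isCompact hE (fun s hs => hs.1)
  have h1 : ∃ᶠ z in 𝓝[≠] x, G z = 0 := by
    rw [accPt_iff_frequently_nhdsNE] at hx
    exact hx.mono fun z hz => hz.2
  have h2 := ((hG x).frequently_zero_iff_eventually_zero).1 h1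
  obtain ⟨s, hs⟩ := h0
  have hFan : AnalyticOnNhd ℂ G univ := fun z _ => hG z
  exact hs (hFan.eqOn_zero_of_preconnected_of_eventuallyEq_zero isPreconnected_univ (mem_univ x) h2 (mem_univ s))

/-- the left zeros -/
def lft (G : ℂ → ℂ) (δ T : ℝ) : Set ℂ := {s | G s = 0 ∧ 1 / 4 ≤ s.re ∧ s.re ≤ 1 - δ ∧ |s.im| ≤ T}

theorem lft_fin {G : ℂ → ℂ} (hG : ∀ z, AnalyticAt ℂ G z) (h0 : ∃ s, G s ≠ 0) (δ T : ℝ) : (lft G δ T).Finite := by
  refine (fin_zeros hG h0 (E := Icc (1 / 4) (1 - δ) ×ℂ Icc (-T) T)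
    (isCompact_Icc.reProdIm isCompact_Icc)).subset ?_
  rintro s ⟨h1, h2, h3, h4⟩
  refine ⟨?_, h1⟩
  rw [mem_reProdIm]
  exact ⟨⟨h2, h3⟩, abs_le.1 h4⟩

section
variable {n : ℕ} {A M0 : ℝ} {Λ : ℂ → ℂ}

theorem LK_diff (h : WL M0 A (mu n) (sdk n A Λ)) : Differentiable ℂ (LK n A Λ) := by
  have hA : 0 < A := by linarith [h.one_le]
  have h1 : Differentiable ℂ (LL (mu n) (sdk n A Λ)) := LL_diff h.entire
  have h2 : LK n A Λ = fun s => LL (mu n) (sdk n A Λ) (s - 1 / 2) := by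
    funext s
    rw [LL_sdk hA, sub_add_cancel]
  rw [h2]
  exact h1.comp (by fun_prop)

/-- the conductor is large at large height -/
lemma cdk_ge (hn : 1 ≤ n) (hA : 1 ≤ A) (y : ℝ) : |y| ≤ cdk n A y := by
  unfold cdk
  have h0 := abs_nonneg y
  have h1 : 1 + |y| ≤ (1 + |y|) ^ (2 * n) := le_self_pow₀ (by linarith) (by omega)
  nlinarith

theorem G_ne (hn : 1 ≤ n) (hM0 : 1 ≤ M0) (h : WL M0 A (mu n) (sdk n A Λ)) (P : ℂ[X]) (hP : P ≠ 0) (S : Finset ℝ)
    (c : ℝ → ℂ) : ∃ s, LD (LK n A Λ) P S c s ≠ 0 := by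
  have hA : 0 < A := by linarith [h.one_le]
  obtain ⟨B, hB⟩ : ∃ B : ℝ, B = ∑ l ∈ S, ‖hf c l‖ := ⟨_, rfl⟩
  have hB0 : 0 ≤ B := by rw [hB]; positivity
  obtain ⟨C₀, H⟩ := F_neW (m := n + n) (by omega) hM0 P hP S B hB0
  obtain ⟨T, hT⟩ : ∃ T : ℝ, T = Real.exp C₀ := ⟨_, rfl⟩
  obtain ⟨s, hs⟩ := H A (mu n) (sdk n A Λ) h (hf c) T (fun l hl => by
    rw [hB]
    exact Finset.single_le_sum (f := fun l => ‖hf c l‖) (fun _ _ => norm_nonneg _) hl)
    (big_logk h.one_le (by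
      rw [← hT]
      exact (le_abs_self T).trans (cdk_ge hn h.one_le T)))
  rw [FF_halfk hA] at hs
  exact ⟨_, hs⟩

/-- windows of size `X` -/
theorem win_k (hn : 1 ≤ n) (hM0 : 1 ≤ M0) (h : WL M0 A (mu n) (sdk n A Λ)) (P : ℂ[X]) (hP : P ≠ 0) (S : Finset ℝ)
    (c : ℝ → ℂ) (X : ℝ) (hX : 1 ≤ X) : ∃ K T0 : ℝ, 0 < K ∧ 1 ≤ T0 ∧ ∀ (T y : ℝ), 2 ≤ T → T0 ≤ |y| → |y| ≤ T + X →
    ∀ Y : Finset ℂ, (∀ z ∈ Y, LD (LK n A Λ) P S c z = 0 ∧ 1 / 4 ≤ z.re ∧ z.re ≤ 1 ∧ |z.im - y| ≤ X) →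
      ∑ z ∈ Y, (H370.mult (LD (LK n A Λ) P S c) z : ℝ) ≤ K * Real.log T := by
  classical
  have hA1 := h.one_le
  have hA : 0 < A := by linarith
  obtain ⟨B, hB⟩ : ∃ B : ℝ, B = ∑ l ∈ S, ‖hf c l‖ := ⟨_, rfl⟩
  have hB0 : 0 ≤ B := by rw [hB]; positivity
  have hcb : ∀ l ∈ S, ‖hf c l‖ ≤ B := fun l hl => by
    rw [hB]
    exact Finset.single_le_sum (f := fun l => ‖hf c l‖) (fun _ _ => norm_nonneg _) hl
  obtain ⟨K, C₀, hK, H⟩ := left_countW (m := n + n) (by omega) hM0 P hP S B hB0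
  obtain ⟨k, hk⟩ : ∃ k : ℕ, k = ⌈X⌉₊ := ⟨_, rfl⟩
  have hk1 : X ≤ k := by rw [hk]; exact Nat.le_ceil X
  have hlog2 : 0 < Real.log 2 := Real.log_pos one_lt_two
  have hlogA : 0 ≤ Real.log A := Real.log_nonneg hA1
  have hn0 : (0 : ℝ) ≤ n := Nat.cast_nonneg n
  have hk0 : (0 : ℝ) ≤ k := Nat.cast_nonneg k
  obtain ⟨D, hD⟩ : ∃ D : ℝ, D = Real.log A + 3 * n + 2 * n * (1 + X + k) := ⟨_, rfl⟩
  have hD0 : 0 ≤ D := by rw [hD]; positivity
  refine ⟨((k : ℝ) + 1) * (K * (D / Real.log 2 + 2 * n)), Real.exp C₀ + k + 1, by positivity,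
    by linarith [Real.exp_pos C₀], fun T y hT hy1 hy2 Y hY => ?_⟩
  have hlogT : Real.log 2 ≤ Real.log T := Real.log_le_log (by norm_num) hT
  have hFG : FF (mu n) (sdk n A Λ) P S (hf c) = fun s => LD (LK n A Λ) P S c (s + 1 / 2) := by
    funext s
    exact FF_halfk hA Λ P S c s
  have hAM : AM (FF (mu n) (sdk n A Λ) P S (hf c)) (1 / 2) X y ((k + 1) * (K * (D / Real.log 2 + 2 * n) * Real.log T)) := by
    refine AM_cover k hk1 fun t ht => ?_
    have h1 : |y| ≤ |t| + k := by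
      calc |y| = |t - (t - y)| := by congr 1; ring
        _ ≤ |t| + |t - y| := abs_sub _ _
        _ ≤ _ := by linarith
    have h1' : |t| ≤ |y| + k := by
      calc |t| = |y + (t - y)| := by congr 1; ring
        _ ≤ |y| + |t - y| := abs_add_le _ _
        _ ≤ _ := by linarith
    refine (H A (mu n) (sdk n A Λ) h (hf c) t hcb (big_logk hA1 ?_)).mono le_rfl (by simp) ?_
    · have := cdk_ge hn hA1 t
      linarith
    · have h2 := (log_cdk (n := n) hA1 t).2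
      have h3 : Real.log (cdk n A t) = Real.log A + 2 * n * Real.log (1 + |t|) := by
        unfold cdk
        rw [Real.log_mul hA.ne' (by positivity), Real.log_pow]
        push_cast
        ring
      have h0 := abs_nonneg t
      have h4 : Real.log (1 + |t|) ≤ Real.log T + (1 + X + k) := by
        have h5 : 1 + |t| ≤ T * (1 + (1 + X + k)) := by nlinarith
        have h6 := Real.log_le_log (by linarith) h5
        rw [Real.log_mul (by linarith) (by linarith)] at h6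
        have h7 := Real.log_le_sub_one_of_pos (show 0 < 1 + (1 + X + k) by linarith)
        linarith
      rw [mul_assoc]
      apply mul_le_mul_of_nonneg_left _ hK.le
      have h5 : 2 * n * Real.log (1 + |t|) ≤ 2 * n * (Real.log T + (1 + X + k)) :=
        mul_le_mul_of_nonneg_left h4 (by positivity)
      have h6 : D ≤ D / Real.log 2 * Real.log T := by
        rw [div_mul_eq_mul_div, le_div_iff₀ hlog2]
        exact mul_le_mul_of_nonneg_left hlogT hD0
      have h7 : Real.log (cnd A (mu n) t) ≤ D + 2 * n * Real.log T := by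
        rw [hD]
        linarith
      calc Real.log (cnd A (mu n) t) ≤ D / Real.log 2 * Real.log T + 2 * n * Real.log T := by linarith
        _ = _ := by ring
  have h1 := hAM (Y.image fun z => z - 1 / 2) (fun z hz => by
    obtain ⟨w, hw, rfl⟩ := Finset.mem_image.1 hz
    obtain ⟨q1, q2, q3, q4⟩ := hY w hw
    refine ⟨?_, ?_, ?_, ?_⟩
    · rw [hFG]
      simp only [sub_add_cancel]
      exact q1
    · simp; linarith
    · simp; linarith
    · simpa using q4)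
  rw [Finset.sum_image (fun x _ y _ hxy => by simpa using hxy)] at h1
  have h2 : ∀ ρ : ℂ, H370.mult (FF (mu n) (sdk n A Λ) P S (hf c)) (ρ - 1 / 2) =
      H370.mult (LD (LK n A Λ) P S c) ρ := by
    intro ρ
    rw [hFG, mult_shift, sub_add_cancel]
  simp only [h2] at h1
  refine h1.trans (le_of_eq (by ring))

/-- **The left zeros of `F` and the zeros of `Λ` off the line.** -/
theorem dens_k (hn : 1 ≤ n) (hM0 : 1 ≤ M0) (h : WL M0 A (mu n) (sdk n A Λ)) (P : ℂ[X]) (hP : P ≠ 0) (S : Finset ℝ)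
    (c : ℝ → ℂ) {δ δ' : ℝ} (hδ' : 0 ≤ δ') (hδ : δ' < δ) : ∃ C X : ℝ, 0 < C ∧ 0 < X ∧ ∀ T : ℝ, 2 ≤ T →
    ∀ O : Finset ℂ, (∀ s : ℂ, Λ s = 0 → δ' ≤ |s.re - 1| → |s.im| ≤ T + X → s ∈ O) →
      (∑ᶠ s ∈ lft (LD (LK n A Λ) P S c) δ T, analyticOrderNatAt (LD (LK n A Λ) P S c) s : ℕ) ≤
        C * (1 + O.card) * Real.log T := by
  classical
  have hA1 := h.one_le
  have hA : 0 < A := by linarith
  obtain ⟨B, hB⟩ : ∃ B : ℝ, B = ∑ l ∈ S, ‖c l‖ := ⟨_, rfl⟩
  have hB0 : 0 ≤ B := by rw [hB]; positivity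
  have hcb : ∀ l ∈ S, ‖c l‖ ≤ B := fun l hl => by
    rw [hB]
    exact Finset.single_le_sum (f := fun l => ‖c l‖) (fun _ _ => norm_nonneg _) hl
  obtain ⟨X, hX, HX⟩ := toL n hM0 P hP S B (1 - δ') (δ - δ') hB0 (by linarith) (by linarith)
  obtain ⟨K, T0, hK, hT0, HW⟩ := win_k hn hM0 h P hP S c X hX
  obtain ⟨G, hG⟩ : ∃ G : ℂ → ℂ, G = LD (LK n A Λ) P S c := ⟨_, rfl⟩
  rw [← hG]
  have hGan : ∀ z, AnalyticAt ℂ G z := fun z => by rw [hG]; exact LD_entire (LK_diff h) P S c z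
  have hG0 : ∃ s, G s ≠ 0 := by rw [hG]; exact G_ne hn hM0 h P hP S c
  obtain ⟨U, hU⟩ : ∃ U : ℝ, U = T0 + X := ⟨_, rfl⟩
  -- the low part
  obtain ⟨C1, hC1⟩ : ∃ C1 : ℝ, C1 = ∑ z ∈ (lft_fin hGan hG0 δ U).toFinset, (H370.mult G z : ℝ) := ⟨_, rfl⟩
  have hC10 : 0 ≤ C1 := by rw [hC1]; exact Finset.sum_nonneg fun _ _ => Nat.cast_nonneg _
  have hlog2 : 0 < Real.log 2 := Real.log_pos one_lt_two
  refine ⟨C1 / Real.log 2 + K, X, by positivity, by linarith, fun T hT O hO => ?_⟩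
  have hlogT : Real.log 2 ≤ Real.log T := Real.log_le_log (by norm_num) hT
  have hfin := lft_fin hGan hG0 δ T
  rw [finsum_mem_eq_finite_toFinset_sum _ hfin]
  push_cast
  obtain ⟨Z, hZ⟩ : ∃ Z : Finset ℂ, Z = hfin.toFinset := ⟨_, rfl⟩
  rw [← hZ]
  have hZm : ∀ z ∈ Z, z ∈ lft G δ T := fun z hz => by
    rw [hZ, Set.Finite.mem_toFinset] at hz
    exact hz
  have hsplit := Finset.sum_filter_add_sum_filter_not Z (fun z : ℂ => |z.im| ≤ U) (fun z => (H370.mult G z : ℝ))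
  have hlow : ∑ z ∈ Z.filter (fun z : ℂ => |z.im| ≤ U), (H370.mult G z : ℝ) ≤ C1 := by
    rw [hC1]
    refine Finset.sum_le_sum_of_subset_of_nonneg (fun z hz => ?_) fun _ _ _ => Nat.cast_nonneg _
    obtain ⟨h1, h2⟩ := Finset.mem_filter.1 hz
    obtain ⟨q1, q2, q3, q4⟩ := hZm z h1
    rw [Set.Finite.mem_toFinset]
    exact ⟨q1, q2, q3, h2⟩
  have hhigh : ∑ z ∈ Z.filter (fun z : ℂ => ¬ |z.im| ≤ U), (H370.mult G z : ℝ) ≤ O.card * (K * Real.log T) := by
    refine (cover_sum _ (fun z => (H370.mult G z : ℝ)) (fun _ => Nat.cast_nonneg _)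
      (O.filter fun s => T0 ≤ |s.im| ∧ |s.im| ≤ T + X)
      (fun z s => |z.im - s.im| ≤ X) (K * Real.log T) (fun z hz => ?_) (fun s hs Y hY => ?_)).trans ?_
    · obtain ⟨h1, h2⟩ := Finset.mem_filter.1 hz
      push Not at h2
      obtain ⟨q1, q2, q3, q4⟩ := hZm z h1
      rw [hG] at q1
      obtain ⟨s, s1, s2, s3, s4⟩ := HX n A Λ hn le_rfl h c hcb z (by
        have := cdk_ge hn hA1 z.im
        linarith) q1 q2 (by linarith)
      have h5 : |z.im| ≤ |s.im| + X := by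
        calc |z.im| = |s.im - (s.im - z.im)| := by congr 1; ring
          _ ≤ |s.im| + |s.im - z.im| := abs_sub _ _
          _ ≤ _ := by linarith
      have h6 : |s.im| ≤ |z.im| + X := by
        calc |s.im| = |z.im + (s.im - z.im)| := by congr 1; ring
          _ ≤ |z.im| + |s.im - z.im| := abs_add_le _ _
          _ ≤ _ := by linarith
      refine ⟨s, Finset.mem_filter.2 ⟨hO s s1 ?_ (by linarith), by linarith, by linarith⟩, ?_⟩
      · rw [abs_sub_comm, abs_of_pos (by linarith)]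
        linarith
      · show |z.im - s.im| ≤ X
        rw [abs_sub_comm]
        exact s4
    · obtain ⟨-, h1, h2⟩ := Finset.mem_filter.1 hs
      rw [hG]
      refine HW T s.im hT h1 h2 Y fun y hy => ?_
      obtain ⟨h3, h4⟩ := hY y hy
      obtain ⟨q1, q2, q3, q4⟩ := hZm y (Finset.mem_filter.1 h3).1
      rw [hG] at q1
      exact ⟨q1, q2, by linarith, h4⟩
    · have h1 : ((O.filter fun s => T0 ≤ |s.im| ∧ |s.im| ≤ T + X).card : ℝ) ≤ O.card := by
        exact_mod_cast Finset.card_filter_le _ _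
      exact mul_le_mul_of_nonneg_right h1 (mul_nonneg hK.le (by linarith))
  have hgoal : ∑ z ∈ Z, (H370.mult G z : ℝ) ≤ C1 + O.card * (K * Real.log T) := by
    rw [← hsplit]
    exact add_le_add hlow hhigh
  refine le_trans hgoal ?_
  have h1 : C1 ≤ C1 / Real.log 2 * Real.log T := by
    rw [div_mul_eq_mul_div, le_div_iff₀ hlog2]
    exact mul_le_mul_of_nonneg_left hlogT hC10
  have h2 : (0 : ℝ) ≤ O.card := Nat.cast_nonneg _
  have h3 : 0 ≤ C1 / Real.log 2 * Real.log T := mul_nonneg (div_nonneg hC10 hlog2.le) (by linarith)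
  have h4 : 0 ≤ K * Real.log T := mul_nonneg hK.le (by linarith)
  calc C1 + O.card * (K * Real.log T) ≤ C1 / Real.log 2 * Real.log T + O.card * (K * Real.log T) := by linarith
    _ ≤ C1 / Real.log 2 * Real.log T * (1 + O.card) + (1 + O.card) * (K * Real.log T) := by nlinarith
    _ = _ := by ring

end

end Q240.OW
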