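import Pool.Agent.Q240.OW.K2
import Pool.Agent.TH839.UH.ECK

/-!
# Elliptic curves over number fields: Hasse's inequality at almost all places
-/

set_option autoImplicit false

open Complex Filter Topology NumberField IsDedekindDomain Set
open scoped ComplexConjugate

namespace Q240.OW

open Pool.Agent.H921R2.TatePole Pool.Agent.H341R2 Pool.Agent.H341R2.EC

section field
open Polynomial
variable {k : Type} [Field k] [Fintype k] [DecidableEq k]

/-- the character sum of a cubic polynomial, singular or not -/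
theorem csum_le (h6 : (6 : k) ≠ 0) (c c' : k) : |(csum c c' : ℝ)| ≤ 2 * Real.sqrt (Fintype.card k) := by
  have h2 : (2 : k) ≠ 0 := by
    intro h; apply h6
    have : (6 : k) = 3 * 2 := by norm_num
    rw [this, h, mul_zero]
  have hk : ringChar k ≠ 2 := by
    intro h
    apply h2
    have := ringChar.Nat.cast_ringChar (R := k)
    rw [h] at this
    exact_mod_cast this
  have hdeg := cub_natDegree c c'
  have h1 := Sharp.weil_sharp hk (cub c c') (by omega) (by
    intro a q hq
    have ha : a ≠ 0 := by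
      rintro rfl
      rw [C_0, zero_mul] at hq
      rw [hq] at hdeg
      simp at hdeg
    have hqd : 2 * q.natDegree = 3 := by
      rw [hq, natDegree_C_mul ha, natDegree_pow] at hdeg
      exact hdeg
    omega)
  rw [hdeg] at h1
  unfold csum
  push_cast
  refine h1.trans (le_of_eq ?_)
  norm_num

end field

/-- the trace of a Weierstrass equation over a finite field of characteristic prime to six -/
theorem trace_hasse {k : Type} [Field k] [Finite k] (h6 : (6 : k) ≠ 0) (V : WeierstrassCurve k) :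
    |(Nat.card k : ℝ) - (Nat.card {xy : k × k // V.toAffine.Equation xy.1 xy.2} : ℝ)| ≤
      2 * Real.sqrt (Nat.card k) := by
  classical
  have : Fintype k := Fintype.ofFinite k
  have h1 : Nat.card {xy : k × k // V.toAffine.Equation xy.1 xy.2} = aff V := by
    unfold aff
    refine Nat.card_congr (Equiv.subtypeEquivRight fun xy => ?_)
    rw [WeierstrassCurve.Affine.equation_iff]
  have h2 : ((aff V : ℕ) : ℤ) = Fintype.card k + csum V.c₄ V.c₆ := by
    rw [aff_eq_short h6 V, short_eq h6]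
    rfl
  have h3 : ((aff V : ℕ) : ℝ) = (Fintype.card k : ℝ) + (csum V.c₄ V.c₆ : ℝ) := by
    exact_mod_cast h2
  rw [h1, h3, Nat.card_eq_fintype_card, sub_add_cancel_left, abs_neg]
  exact csum_le h6 _ _

section curve
variable {K : Type} [Field K] [NumberField K]

theorem six_finite : {v : HeightOneSpectrum (𝓞 K) | (6 : 𝓞 K) ∈ v.asIdeal}.Finite := by
  have h6 : (6 : 𝓞 K) ≠ 0 := by norm_num
  have hI : Ideal.span {(6 : 𝓞 K)} ≠ 0 := by
    rw [Ne, Ideal.zero_eq_bot, Ideal.span_singleton_eq_bot]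
    exact h6
  refine (Ideal.finite_factors hI).subset fun v hv => ?_
  have hv' : (6 : 𝓞 K) ∈ v.asIdeal := hv
  exact Ideal.dvd_iff_le.2 ((Ideal.span_singleton_le_iff_mem _).2 hv')

theorem trace_finite (W : HeightOneSpectrum (𝓞 K) → WeierstrassCurve (𝓞 K)) :
    {v : HeightOneSpectrum (𝓞 K) | ¬ ‖((Ideal.absNorm v.asIdeal : ℂ)
      - (Nat.card {xy : (𝓞 K ⧸ v.asIdeal) × (𝓞 K ⧸ v.asIdeal) //
        ((W v).map (Ideal.Quotient.mk v.asIdeal)).toAffine.Equation xy.1 xy.2} : ℂ))‖ ≤
          2 * Real.sqrt (nm v)}.Finite := by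
  refine (six_finite (K := K)).subset fun v hv => ?_
  by_contra hcon
  apply hv
  have hcon' : (6 : 𝓞 K) ∉ v.asIdeal := hcon
  have hmax : v.asIdeal.IsMaximal := v.isPrime.isMaximal v.ne_bot
  let _ : Field (𝓞 K ⧸ v.asIdeal) := Ideal.Quotient.field v.asIdeal
  have hfin : Finite (𝓞 K ⧸ v.asIdeal) := Ideal.finiteQuotientOfFreeOfNeBot v.asIdeal v.ne_bot
  have h6 : (6 : 𝓞 K ⧸ v.asIdeal) ≠ 0 := by
    intro h
    apply hcon'
    rw [← Ideal.Quotient.eq_zero_iff_mem]
    rw [map_ofNat]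
    exact h
  have h1 := trace_hasse h6 ((W v).map (Ideal.Quotient.mk v.asIdeal))
  have h2 : Nat.card (𝓞 K ⧸ v.asIdeal) = Ideal.absNorm v.asIdeal := by
    rw [Ideal.absNorm_apply, Submodule.cardQuot_apply]
  rw [h2] at h1
  unfold nm
  obtain ⟨q, hq⟩ : ∃ q : ℕ, q = Ideal.absNorm v.asIdeal := ⟨_, rfl⟩
  obtain ⟨c, hc⟩ : ∃ c : ℕ, c = Nat.card {xy : (𝓞 K ⧸ v.asIdeal) × (𝓞 K ⧸ v.asIdeal) //
      ((W v).map (Ideal.Quotient.mk v.asIdeal)).toAffine.Equation xy.1 xy.2} := ⟨_, rfl⟩
  rw [← hc, ← hq] at h1 ⊢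
  have e : ((q : ℂ) - (c : ℂ)) = (((q : ℝ) - (c : ℝ) : ℝ) : ℂ) := by push_cast; ring
  rw [e, Complex.norm_real, Real.norm_eq_abs]
  exact h1

end curve

end Q240.OW
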