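import Pool.Agent.Q240.OW.D0
import Pool.Agent.Q240.OW.K3
import Pool.Agent.Q246.EL.Tr

/-!
# The left zeros for elliptic curves attached to newforms
-/

set_option autoImplicit false

open Complex Filter Topology NumberField IsDedekindDomain Polynomial
open scoped ComplexConjugate

namespace Q240.OW

open Pool.Agent.Q246.EL Pool.Agent.Q246.NC
open Pool.Agent.TH839.UH (KL mu dg)
open Pool.Agent.TH839.UH.NF (B0 B0_nonneg)
open Q240.GS (LD LD_entire)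

/-- finite order -/
lemma order_of_slow {X : ℂ → ℂ} (h : Pool.Agent.W169.HF.Slow X) (v w : ℂ) : ∃ c ρ : ℝ, ∀ s : ℂ,
    ‖v * X (s + w)‖ ≤ Real.exp (c * (1 + ‖s‖) ^ ρ) := by
  obtain ⟨K, hK, H⟩ := h.2 1 one_pos
  obtain ⟨M, hM⟩ : ∃ M : ℝ, M = ‖v‖ * K + 1 := ⟨_, rfl⟩
  have hM1 : 1 ≤ M := by rw [hM]; nlinarith [norm_nonneg v]
  refine ⟨Real.log M + (1 + ‖w‖) ^ 2, 2, fun s => ?_⟩
  rw [norm_mul]
  have h1 := H (s + w)
  have h2 : ‖s + w‖ ≤ (1 + ‖s‖) * (1 + ‖w‖) := by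
    have := norm_add_le s w
    nlinarith [norm_nonneg s, norm_nonneg w]
  have h3 : ‖s + w‖ ^ 2 ≤ ((1 + ‖s‖) * (1 + ‖w‖)) ^ 2 := pow_le_pow_left₀ (norm_nonneg _) h2 2
  have e2 : (1 + ‖s‖) ^ (2 : ℝ) = (1 + ‖s‖) ^ 2 := by
    rw [show (2 : ℝ) = ((2 : ℕ) : ℝ) by norm_num, Real.rpow_natCast]
  have hlog : 0 ≤ Real.log M := Real.log_nonneg hM1
  have h4 : 1 ≤ (1 + ‖s‖) ^ 2 := one_le_pow₀ (by linarith [norm_nonneg s])
  calc ‖v‖ * ‖X (s + w)‖ ≤ ‖v‖ * (K * Real.exp (1 * ‖s + w‖ ^ 2)) :=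
        mul_le_mul_of_nonneg_left h1 (norm_nonneg _)
    _ = (‖v‖ * K) * Real.exp (1 * ‖s + w‖ ^ 2) := by ring
    _ ≤ M * Real.exp (1 * ‖s + w‖ ^ 2) := by
        apply mul_le_mul_of_nonneg_right _ (Real.exp_pos _).le
        rw [hM]; linarith
    _ = Real.exp (Real.log M + 1 * ‖s + w‖ ^ 2) := by
        rw [Real.exp_add, Real.exp_log (by linarith)]
    _ ≤ _ := by
        apply Real.exp_le_exp.2
        rw [e2, add_mul]
        have h5 : Real.log M ≤ Real.log M * (1 + ‖s‖) ^ 2 := le_mul_of_one_le_right hlog h4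
        rw [mul_pow] at h3
        linarith

section curve
variable {K : Type} [Field K] [NumberField K] {W : HeightOneSpectrum (𝓞 K) → WeierstrassCurve (𝓞 K)}

open Classical in
/-- the data of the library `TH839.UH` -/
theorem kl_of (A : ℕ) (L Λ : ℂ → ℂ) (h : IsCompleted W A L Λ)
    (ho : ∃ c ρ : ℝ, ∀ s : ℂ, ‖Λ s‖ ≤ Real.exp (c * (1 + ‖s‖) ^ ρ)) :
    KL (fun v : HeightOneSpectrum (𝓞 K) => ((Ideal.absNorm v.asIdeal : ℂ)
        - (Nat.card {xy : (𝓞 K ⧸ v.asIdeal) × (𝓞 K ⧸ v.asIdeal) //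
          ((W v).map (Ideal.Quotient.mk v.asIdeal)).toAffine.Equation xy.1 xy.2} : ℂ)))
      (fun v => if (W v).Δ ∈ v.asIdeal then 0 else (Ideal.absNorm v.asIdeal : ℂ)) A Λ := by
  refine ⟨fun v => Pool.Agent.TH839.UH.trace_le v _, fun v => ?_, fun v => ?_, fun v => ?_,
    by exact_mod_cast h.pos, h.entire, ho, ?_, ⟨2, fun s hs => ?_⟩⟩
  · show ‖(if (W v).Δ ∈ v.asIdeal then 0 else (Ideal.absNorm v.asIdeal : ℂ))‖ ≤
      ((Ideal.absNorm v.asIdeal : ℕ) : ℝ)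
    split_ifs
    · rw [norm_zero]
      exact Nat.cast_nonneg _
    · rw [Complex.norm_natCast]
  · show conj ((Ideal.absNorm v.asIdeal : ℂ) - ((_ : ℕ) : ℂ)) = _
    rw [map_sub, Complex.conj_natCast, Complex.conj_natCast]
  · show conj (if (W v).Δ ∈ v.asIdeal then 0 else (Ideal.absNorm v.asIdeal : ℂ)) = _
    split_ifs
    · rw [map_zero]
    · rw [Complex.conj_natCast]
  · obtain ⟨w, hw, hfe⟩ := h.fe
    have hw2 : (w : ℂ) * w = 1 := by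
      rcases hw with h | h <;> rw [h] <;> simp
    refine ⟨w, ?_, fun s => ?_⟩
    · rcases hw with h | h
      · left; rw [h]; simp
      · right; rw [h]; simp
    · rw [hfe s, ← mul_assoc]
      push_cast
      rw [hw2, one_mul]
  · rw [h.eq s (by linarith)]
    congr 1
    rw [← (h.euler s (by linarith)).tprod_eq]
    unfold Pool.Agent.TH839.UH.EL
    refine tprod_congr fun v => ?_
    unfold localFactor Pool.Agent.TH839.UH.NF.gv Pool.Agent.H921R2.TatePole.nm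
    congr 1
    ring

/-- **The left zeros.** -/
theorem left_attached {l : List Newform} (hl : Attached W l) :
    ∃ (A : ℕ) (L Λ : ℂ → ℂ), IsTheCompleted W A L Λ ∧
      ∀ (P : ℂ[X]) (S : Finset ℝ) (c : ℝ → ℂ), P ≠ 0 →
        (∀ δ T : ℝ, (lft (LD L P S c) δ T).Finite) ∧
        ∀ κ δ : ℝ, κ < 1 → 0 < δ → ∃ C : ℝ, ∀ T : ℝ, 2 ≤ T →
          ((∑ᶠ s ∈ lft (LD L P S c) δ T, analyticOrderNatAt (LD L P S c) s : ℕ) : ℝ) ≤ C * T ^ (1 - κ * δ) := by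
  classical
  obtain ⟨A, v, Λ₀, L, hv, hF, h⟩ := exists_el hl
  obtain ⟨Λ, hΛ⟩ : ∃ Λ : ℂ → ℂ, Λ = fun s => v * Λ₀ (s - 1 / 2) := ⟨_, rfl⟩
  rw [← hΛ] at h
  refine ⟨A, L, Λ, h, fun P S c hP => ?_⟩
  have hslow : Pool.Agent.W169.HF.Slow Λ₀ := by
    obtain ⟨θ, d, N, cn, G, -, μ, L', hUL, -⟩ := hF.pk
    exact hUL.slow
  have ho : ∃ c ρ : ℝ, ∀ s : ℂ, ‖Λ s‖ ≤ Real.exp (c * (1 + ‖s‖) ^ ρ) := by
    obtain ⟨c, ρ, H⟩ := order_of_slow hslow (v : ℂ) (-(1 / 2))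
    refine ⟨c, ρ, fun s => ?_⟩
    rw [hΛ]
    have := H s
    rw [← sub_eq_add_neg] at this
    exact this
  have hkl := kl_of A L Λ h.1 ho
  have hnzK : ∀ s : ℂ, 3 / 2 < s.re → Λ s ≠ 0 := fun s hs => KL.nz hkl (trace_finite W) hs
  have hrefl : ∀ s : ℂ, Λ s = 0 → Λ (2 - s) = 0 := by
    intro s hs
    obtain ⟨w, hw, hfe⟩ := h.1.fe
    rw [hfe s, hs, mul_zero]
  have hA1 : (1 : ℝ) ≤ (A : ℝ) := by exact_mod_cast h.1.pos
  have hA : (0 : ℝ) < (A : ℝ) := by linarith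
  have hW := wl_of_KL hkl hnzK
  obtain ⟨n, hn⟩ : ∃ n : ℕ, n = dg K := ⟨_, rfl⟩
  have hn1 : 1 ≤ n := by rw [hn]; exact Module.finrank_pos
  obtain ⟨M0, hM⟩ : ∃ M0 : ℝ, M0 = Real.exp (dg K * B0) := ⟨_, rfl⟩
  have hM0 : 1 ≤ M0 := by rw [hM]; exact Real.one_le_exp (mul_nonneg (Nat.cast_nonneg _) B0_nonneg)
  rw [← hn] at hW hM
  rw [← hM] at hW
  -- the L-function
  have hLd : Differentiable ℂ (LK n A Λ) := LK_diff hW
  have hL : LK n A Λ = L := by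
    refine Pool.Agent.W355.UN.Pk.uniq (G := L) h.1.entire_L hLd ⟨0, fun s _ => rfl⟩ ⟨1, fun s hs => ?_⟩
    unfold LK
    rw [h.1.eq s (by linarith), ← mul_assoc]
    have hz : (A : ℂ) ^ (s / 2) * ((2 * (Real.pi : ℂ)) ^ (-s) * Gamma s) ^ n ≠ 0 := by
      have h5 : (((A : ℕ) : ℝ) : ℂ) ^ (s / 2) ≠ 0 := cA hA _
      rw [Complex.ofReal_natCast] at h5
      refine mul_ne_zero h5 (pow_ne_zero _ (mul_ne_zero ?_ (Complex.Gamma_ne_zero_of_re_pos (by linarith))))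
      have hpi : (2 * (Real.pi : ℂ)) ≠ 0 := by
        have := Real.pi_ne_zero
        simp [this]
      rw [Ne, Complex.cpow_eq_zero_iff]
      exact fun h => hpi h.1
    rw [Complex.ofReal_natCast, hn] at *
    rw [inv_mul_cancel₀ hz, one_mul]
  rw [← hL]
  have hGan : ∀ z, AnalyticAt ℂ (LD (LK n A Λ) P S c) z := fun z => LD_entire hLd P S c z
  have hG0 : ∃ s, LD (LK n A Λ) P S c s ≠ 0 := G_ne hn1 hM0 hW P hP S c
  refine ⟨fun δ T => lft_fin hGan hG0 δ T, fun κ δ hκ hδ => ?_⟩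
  rcases lt_or_ge (3 / 4) δ with hδ34 | hδ34
  · refine ⟨0, fun T hT => ?_⟩
    have hempty : lft (LD (LK n A Λ) P S c) δ T = ∅ := by
      rw [Set.eq_empty_iff_forall_notMem]
      rintro s ⟨-, h2, h3, -⟩
      linarith
    rw [hempty, finsum_mem_empty]
    simp
  -- parameters
  obtain ⟨κ', hκ'⟩ : ∃ κ' : ℝ, κ' = max κ 0 := ⟨_, rfl⟩
  have hκ0 : 0 ≤ κ' := by rw [hκ']; exact le_max_right _ _
  have hκ1 : κ' < 1 := by rw [hκ']; exact max_lt hκ one_pos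
  have hκκ : κ ≤ κ' := by rw [hκ']; exact le_max_left _ _
  obtain ⟨k, hk⟩ : ∃ k : ℝ, k = (1 + κ') / 2 := ⟨_, rfl⟩
  have hk1 : k < 1 := by rw [hk]; linarith
  have hkκ : κ' < k := by rw [hk]; linarith
  have hk0 : 0 < k := by linarith
  obtain ⟨δ', hδ'⟩ : ∃ δ' : ℝ, δ' = (κ' + k) / (2 * k) * δ := ⟨_, rfl⟩
  have hkδ : k * δ' = (κ' + k) / 2 * δ := by rw [hδ']; field_simp
  have hδ'0 : 0 ≤ δ' := by rw [hδ']; positivity
  have hδ'1 : δ' < δ := by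
    have h1 : (κ' + k) / (2 * k) < 1 := by rw [div_lt_one (by positivity)]; linarith
    rw [hδ']
    calc (κ' + k) / (2 * k) * δ < 1 * δ := mul_lt_mul_of_pos_right h1 hδ
      _ = δ := one_mul _
  obtain ⟨η, hη⟩ : ∃ η : ℝ, η = (k - κ') / 2 * δ := ⟨_, rfl⟩
  have hη0 : 0 < η := by
    have : 0 < k - κ' := by linarith
    rw [hη]
    positivity
  have hexp : 1 - k * δ' + η ≤ 1 - κ' * δ := by rw [hkδ, hη]; linarith
  have hηf : η ≤ 1 - κ' * δ := by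
    have h1 : η + κ' * δ = (k + κ') / 2 * δ := by rw [hη]; ring
    have h2 : (k + κ') / 2 * δ ≤ 1 * δ := mul_le_mul_of_nonneg_right (by linarith) hδ.le
    linarith
  obtain ⟨C1, X, hC1, hX, HD⟩ := dens_k hn1 hM0 hW P hP S c hδ'0 hδ'1
  obtain ⟨C2, hC2, HO⟩ := off1 hF hv (Λ := Λ) (fun s => by rw [hΛ]) hk1
  obtain ⟨R, hR, HR⟩ := card_off h.1.entire hnzK hrefl
  obtain ⟨C, hC, HC⟩ := num_bd hR hC1.le hC2.le hX.le hη0 hexp hηf
  refine ⟨C, fun T hT => ?_⟩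
  obtain ⟨hO1, hO2⟩ := HO δ' (T + X) hδ'0 (by linarith)
  obtain ⟨O, hO3, hO4⟩ := HR δ' (T + X) _ (O1 Λ δ' (T + X)) rfl hO1 hO2
  refine (HD T hT O hO3).trans ?_
  have hlT : 0 ≤ Real.log T := Real.log_nonneg (by linarith)
  calc C1 * (1 + O.card) * Real.log T
      ≤ C1 * (1 + (R + 2 * (C2 * (T + X) ^ (1 - k * δ') * Real.log (T + X)))) * Real.log T := by
        apply mul_le_mul_of_nonneg_right _ hlT
        apply mul_le_mul_of_nonneg_left _ hC1.le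
        linarith
    _ ≤ C * T ^ (1 - κ' * δ) := HC T hT
    _ ≤ C * T ^ (1 - κ * δ) := by
        apply mul_le_mul_of_nonneg_left _ hC
        apply Real.rpow_le_rpow_of_exponent_le (by linarith)
        have := mul_le_mul_of_nonneg_right hκκ hδ.le
        linarith

end curve

end Q240.OW
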