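import Pool.Agent.TH839.UH.Fin2
import Pool.Agent.Q240.GS.EC2
import Pool.Agent.Q240.OW.W3

/-!
# Elliptic curves over number fields belong to the class
-/

set_option autoImplicit false

open Complex Filter Topology NumberField IsDedekindDomain Set
open scoped ComplexConjugate

namespace Q240.OW

open Pool.Agent.H921R2.TatePole Pool.Agent.W169.HF H353.E Pool.Agent.W355.UN Pool.Agent.TH839.UH Q240.GS
open Pool.Agent.TH839.UH.NF (gv LG)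

/-- the completed L-function, analytic normalisation, without the power of the conductor -/
noncomputable def sdk (n : ℕ) (A : ℝ) (Λ : ℂ → ℂ) (z : ℂ) : ℂ :=
  (A : ℂ) ^ (-(z / 2)) * (((2 ^ n * A ^ (-(1 / 4 : ℝ)) : ℝ) : ℂ) * Λ (z + 1 / 2))

/-- the L-function -/
noncomputable def LK (n : ℕ) (A : ℝ) (Λ : ℂ → ℂ) (s : ℂ) : ℂ :=
  ((A : ℂ) ^ (s / 2) * ((2 * (Real.pi : ℂ)) ^ (-s) * Gamma s) ^ n)⁻¹ * Λ s

lemma mu_le {n : ℕ} (j : Fin (n + n)) : (mu n j).re ≤ -1 / 2 := by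
  rcases mu_cases j with h | h
  · rw [h, show (-1 / 2 : ℂ) = ((-1 / 2 : ℝ) : ℂ) by push_cast; ring, Complex.ofReal_re]
  · rw [h, show (-3 / 2 : ℂ) = ((-3 / 2 : ℝ) : ℂ) by push_cast; ring, Complex.ofReal_re]
    norm_num

lemma cA {A : ℝ} (hA : 0 < A) (z : ℂ) : (A : ℂ) ^ z ≠ 0 := by
  rw [Ne, Complex.cpow_eq_zero_iff]
  intro h
  exact hA.ne' (by exact_mod_cast h.1)

lemma cst_ne {n : ℕ} {A : ℝ} (hA : 0 < A) : ((2 ^ n * A ^ (-(1 / 4 : ℝ)) : ℝ) : ℂ) ≠ 0 := by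
  rw [ofReal_ne_zero]
  positivity

lemma sdk_zero {n : ℕ} {A : ℝ} (hA : 0 < A) (Λ : ℂ → ℂ) (s : ℂ) : sdk n A Λ s = 0 ↔ Λ (s + 1 / 2) = 0 := by
  unfold sdk
  constructor
  · intro h
    exact (mul_eq_zero.1 ((mul_eq_zero.1 h).resolve_left (cA hA _))).resolve_left (cst_ne hA)
  · intro h
    rw [h, mul_zero, mul_zero]

section
variable {K : Type} [Field K] [NumberField K]
variable {a δ : HeightOneSpectrum (𝓞 K) → ℂ} {A : ℝ} {Λ : ℂ → ℂ}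

lemma XX_sdk (hA : 0 < A) (z : ℂ) : XX A (sdk (dg K) A Λ) z = NX K A Λ z := by
  unfold XX sdk NX
  rw [← mul_assoc, ← Complex.cpow_add _ _ (by exact_mod_cast hA.ne'), add_neg_cancel, Complex.cpow_zero, one_mul]

theorem wl_of_KL (h : KL a δ A Λ) (hnz : ∀ s : ℂ, 3 / 2 < s.re → Λ s ≠ 0) :
    WL (Real.exp (dg K * NF.B0)) A (mu (dg K)) (sdk (dg K) A Λ) := by
  have hA : 0 < A := by linarith [h.one_le]
  have hX : XX A (sdk (dg K) A Λ) = NX K A Λ := funext fun z => XX_sdk hA z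
  have hEL : ∀ s : ℂ, 2 ≤ s.re → ‖EL a δ (s + 1 / 2)‖ ≤ Real.exp (dg K * NF.B0) ∧
      1 ≤ Real.exp (dg K * NF.B0) * ‖EL a δ (s + 1 / 2)‖ := by
    intro s hs
    have hre : (s + 1 / 2).re = s.re + 1 / 2 := by simp
    have h1 : EL a δ (s + 1 / 2) = cexp (LG a δ (s + 1 / 2)) :=
      (NF.prod_eq h.ha h.hδ (by rw [hre]; linarith)).tprod_eq
    have h2 := NF.LG_le h.ha h.hδ (s := s + 1 / 2) (by rw [hre]; linarith)
    have h3 := abs_le.1 ((Complex.abs_re_le_norm (LG a δ (s + 1 / 2))).trans h2)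
    rw [h1, Complex.norm_exp]
    constructor
    · exact Real.exp_le_exp.2 h3.2
    · rw [← Real.exp_add]
      exact Real.one_le_exp (by linarith [h3.1])
  refine ⟨h.one_le, mu_re, ?_, ?_, ?_, fun s hs => ?_, fun s hs => ?_, fun s hs => ?_⟩
  · unfold sdk
    have h1 : Differentiable ℂ fun z : ℂ => (A : ℂ) ^ (-(z / 2)) := fun z =>
      DifferentiableAt.const_cpow (by fun_prop) (Or.inl (by exact_mod_cast hA.ne'))
    exact h1.mul ((h.entire.comp (by fun_prop)).const_mul _)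
  · rw [hX]; exact NX_slow h
  · rw [hX]; exact NX_fe h
  · rw [hX, NX_eq h (by linarith), norm_mul, mul_comm]
    exact mul_le_mul_of_nonneg_right (hEL s hs).1 (norm_nonneg _)
  · rw [hX, NX_eq h (by linarith), norm_mul]
    have h1 := (hEL s hs).2
    have h2 := norm_nonneg (gaf A (mu (dg K)) s)
    calc ‖gaf A (mu (dg K)) s‖ = ‖gaf A (mu (dg K)) s‖ * 1 := (mul_one _).symm
      _ ≤ ‖gaf A (mu (dg K)) s‖ * (Real.exp (dg K * NF.B0) * ‖EL a δ (s + 1 / 2)‖) :=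
          mul_le_mul_of_nonneg_left h1 h2
      _ = _ := by ring
  · rw [Ne, sdk_zero hA]
    exact hnz _ (by simp; linarith)

end

/-- the L-function in both normalisations -/
theorem LL_sdk {n : ℕ} {A : ℝ} (hA : 0 < A) (Λ : ℂ → ℂ) (s : ℂ) :
    LL (mu n) (sdk n A Λ) s = LK n A Λ (s + 1 / 2) := by
  have hAc : (A : ℂ) ≠ 0 := by exact_mod_cast hA.ne'
  rw [LL_eq hA, gaf_mu]
  unfold XX sdk LK
  have e0 : (A : ℂ) ^ (s / 2) * ((A : ℂ) ^ (-(s / 2)) * (((2 ^ n * A ^ (-(1 / 4 : ℝ)) : ℝ) : ℂ) * Λ (s + 1 / 2))) =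
      ((2 ^ n * A ^ (-(1 / 4 : ℝ)) : ℝ) : ℂ) * Λ (s + 1 / 2) := by
    rw [← mul_assoc, ← Complex.cpow_add _ _ hAc, add_neg_cancel, Complex.cpow_zero, one_mul]
  rw [e0]
  have e1 : (A : ℂ) ^ ((s + 1 / 2) / 2) = (A : ℂ) ^ (s / 2) * (A : ℂ) ^ (1 / 4 : ℂ) := by
    rw [← Complex.cpow_add _ _ hAc]
    congr 1
    ring
  have e2 : ((A ^ (-(1 / 4 : ℝ)) : ℝ) : ℂ) = ((A : ℂ) ^ (1 / 4 : ℂ))⁻¹ := by
    rw [Complex.ofReal_cpow hA.le, ← Complex.cpow_neg]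
    push_cast
    rfl
  have h4 : (A : ℂ) ^ (1 / 4 : ℂ) ≠ 0 := cA hA _
  rw [e1, ofReal_mul, e2, show (2 * (2 * (Real.pi : ℂ)) ^ (-(s + 1 / 2)) * Gamma (s + 1 / 2)) ^ n =
    2 ^ n * ((2 * (Real.pi : ℂ)) ^ (-(s + 1 / 2)) * Gamma (s + 1 / 2)) ^ n by rw [← mul_pow]; congr 1; ring]
  push_cast
  have h5 : (2 : ℂ) ^ n ≠ 0 := pow_ne_zero _ two_ne_zero
  rw [mul_inv, mul_inv, mul_inv, mul_inv]
  field_simp

end Q240.OW
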