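import Pool.Agent.Q240.OW.K1
import Pool.Agent.H341R2.NF.ECCount

/-!
# Elliptic curves over number fields: no zeros for `Re s > 3/2`
-/

set_option autoImplicit false

open Complex Filter Topology NumberField IsDedekindDomain Set
open scoped ComplexConjugate

namespace Q240.OW

open Pool.Agent.H921R2.TatePole Pool.Agent.W169.HF H353.E Pool.Agent.W355.UN Pool.Agent.TH839.UH Q240.GS
open Pool.Agent.TH839.UH.NF (gv LG nm0)

section
variable {K : Type} [Field K] [NumberField K]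
variable {a δ : HeightOneSpectrum (𝓞 K) → ℂ} {A : ℝ} {Λ : ℂ → ℂ}

/-- the trivial bound -/
lemma gv_triv (ha : ∀ v, ‖a v‖ ≤ nm v) (hδ : ∀ v, ‖δ v‖ ≤ nm v) (v : HeightOneSpectrum (𝓞 K)) {s : ℂ}
    (hs : 3 / 2 < s.re) : ‖gv a δ v s‖ ≤ 97 / 100 := by
  have h2 := two_le_nm v
  have hn2 : (2 : ℝ) ≤ nm v := by exact_mod_cast h2
  have hn0 : (0 : ℝ) < nm v := by linarith
  have hn1 : (1 : ℝ) ≤ nm v := by linarith
  have e1 : ‖a v * ((nm v : ℕ) : ℂ) ^ (-s)‖ ≤ (nm v : ℝ) ^ (-(1 / 2 : ℝ)) := by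
    rw [norm_mul, nm_cpow_norm]
    calc ‖a v‖ * (nm v : ℝ) ^ (-s.re) ≤ (nm v : ℝ) * (nm v : ℝ) ^ (-s.re) := by
          gcongr
          exact ha v
      _ = (nm v : ℝ) ^ (1 + -s.re) := by rw [Real.rpow_add hn0, Real.rpow_one]
      _ ≤ _ := Real.rpow_le_rpow_of_exponent_le hn1 (by linarith)
  have e2 : ‖δ v * ((nm v : ℕ) : ℂ) ^ (-2 * s)‖ ≤ (nm v : ℝ) ^ (-(2 : ℝ)) := by
    have e3 : (-2 * s : ℂ) = -(2 * s) := by ring
    rw [norm_mul, e3, nm_cpow_norm]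
    have e4 : (2 * s).re = 2 * s.re := by
      rw [show (2 : ℂ) = ((2 : ℝ) : ℂ) by norm_num, Complex.re_ofReal_mul]
    rw [e4]
    calc ‖δ v‖ * (nm v : ℝ) ^ (-(2 * s.re)) ≤ (nm v : ℝ) * (nm v : ℝ) ^ (-(2 * s.re)) := by
          gcongr
          exact hδ v
      _ = (nm v : ℝ) ^ (1 + -(2 * s.re)) := by rw [Real.rpow_add hn0, Real.rpow_one]
      _ ≤ _ := Real.rpow_le_rpow_of_exponent_le hn1 (by linarith)
  have e3 : (nm v : ℝ) ^ (-(1 / 2 : ℝ)) ≤ 71 / 100 := by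
    rw [Real.rpow_neg hn0.le, ← Real.sqrt_eq_rpow]
    have h5 : (100 / 71 : ℝ) ≤ Real.sqrt (nm v) := by
      apply Real.le_sqrt_of_sq_le
      norm_num
      linarith
    rw [inv_le_comm₀ (by positivity) (by norm_num)]
    norm_num
    linarith
  have e6 : (nm v : ℝ) ^ (-(2 : ℝ)) ≤ 1 / 4 := by
    rw [Real.rpow_neg hn0.le, ← one_div, show (2 : ℝ) = ((2 : ℕ) : ℝ) by norm_num, Real.rpow_natCast]
    have : (2 : ℝ) ^ 2 ≤ (nm v : ℝ) ^ 2 := by gcongr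
    rw [div_le_div_iff₀ (by positivity) (by norm_num)]
    push_cast at this ⊢
    linarith
  have e7 : ‖gv a δ v s‖ ≤ ‖a v * ((nm v : ℕ) : ℂ) ^ (-s)‖ + ‖δ v * ((nm v : ℕ) : ℂ) ^ (-2 * s)‖ := by
    unfold gv
    refine (norm_add_le _ _).trans ?_
    rw [norm_neg]
  linarith

/-- the bound from Hasse's inequality -/
lemma gv_hasse (hδ : ∀ v, ‖δ v‖ ≤ nm v) (v : HeightOneSpectrum (𝓞 K)) (ha : ‖a v‖ ≤ 2 * Real.sqrt (nm v))
    {σ : ℝ} (hσ : 3 / 2 < σ) {s : ℂ} (hs : σ ≤ s.re) : ‖gv a δ v s‖ ≤ 3 * (nm v : ℝ) ^ (-(σ - 1 / 2)) := by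
  have h2 := two_le_nm v
  have hn2 : (2 : ℝ) ≤ nm v := by exact_mod_cast h2
  have hn0 : (0 : ℝ) < nm v := by linarith
  have hn1 : (1 : ℝ) ≤ nm v := by linarith
  have e1 : ‖a v * ((nm v : ℕ) : ℂ) ^ (-s)‖ ≤ 2 * (nm v : ℝ) ^ (-(σ - 1 / 2)) := by
    rw [norm_mul, nm_cpow_norm]
    calc ‖a v‖ * (nm v : ℝ) ^ (-s.re) ≤ (2 * Real.sqrt (nm v)) * (nm v : ℝ) ^ (-s.re) := by
          gcongr
      _ = 2 * (nm v : ℝ) ^ (1 / 2 + -s.re) := by rw [Real.rpow_add hn0, Real.sqrt_eq_rpow, mul_assoc]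
      _ ≤ _ := by
          apply mul_le_mul_of_nonneg_left _ (by norm_num)
          exact Real.rpow_le_rpow_of_exponent_le hn1 (by linarith)
  have e2 : ‖δ v * ((nm v : ℕ) : ℂ) ^ (-2 * s)‖ ≤ (nm v : ℝ) ^ (-(σ - 1 / 2)) := by
    have e3 : (-2 * s : ℂ) = -(2 * s) := by ring
    rw [norm_mul, e3, nm_cpow_norm]
    have e4 : (2 * s).re = 2 * s.re := by
      rw [show (2 : ℂ) = ((2 : ℝ) : ℂ) by norm_num, Complex.re_ofReal_mul]
    rw [e4]
    calc ‖δ v‖ * (nm v : ℝ) ^ (-(2 * s.re)) ≤ (nm v : ℝ) * (nm v : ℝ) ^ (-(2 * s.re)) := by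
          gcongr
          exact hδ v
      _ = (nm v : ℝ) ^ (1 + -(2 * s.re)) := by rw [Real.rpow_add hn0, Real.rpow_one]
      _ ≤ _ := Real.rpow_le_rpow_of_exponent_le hn1 (by linarith)
  have e7 : ‖gv a δ v s‖ ≤ ‖a v * ((nm v : ℕ) : ℂ) ^ (-s)‖ + ‖δ v * ((nm v : ℕ) : ℂ) ^ (-2 * s)‖ := by
    unfold gv
    refine (norm_add_le _ _).trans ?_
    rw [norm_neg]
  linarith

lemma one_add_ne {z : ℂ} (hz : ‖z‖ ≤ 97 / 100) : 1 + z ≠ 0 := by
  intro h
  have h1 : z = -1 := by linear_combination h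
  rw [h1, norm_neg, norm_one] at hz
  norm_num at hz

lemma slit {z : ℂ} (hz : ‖z‖ ≤ 97 / 100) : 1 + z ∈ slitPlane := by
  rw [mem_slitPlane_iff]
  left
  rw [add_re, one_re]
  have := (abs_le.1 (Complex.abs_re_le_norm z)).1
  linarith

lemma log_le {z : ℂ} (hz : ‖z‖ ≤ 97 / 100) : ‖log (1 + z)‖ ≤ 20 * ‖z‖ := by
  have h1 := Complex.norm_log_one_add_le (z := z) (by linarith)
  have h2 : (1 - ‖z‖)⁻¹ ≤ 100 / 3 := by
    rw [inv_le_comm₀ (by linarith) (by norm_num)]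
    norm_num
    linarith
  have h3 := norm_nonneg z
  have h4 : ‖z‖ ^ 2 * (1 - ‖z‖)⁻¹ / 2 ≤ 19 * ‖z‖ := by
    have h5 : ‖z‖ ^ 2 * (1 - ‖z‖)⁻¹ ≤ ‖z‖ ^ 2 * (100 / 3) := by gcongr
    nlinarith
  linarith

/-- **No zeros.** -/
theorem KL.nz (h : KL a δ A Λ) (hH : {v | ¬ ‖a v‖ ≤ 2 * Real.sqrt (nm v)}.Finite) {s : ℂ}
    (hs : 3 / 2 < s.re) : Λ s ≠ 0 := by
  classical
  obtain ⟨σ, hσ1, hσ2⟩ := exists_between hs
  obtain ⟨U, hU⟩ : ∃ U : Set ℂ, U = {s : ℂ | σ < s.re} := ⟨_, rfl⟩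
  have hopen : IsOpen U := by rw [hU]; exact isOpen_lt continuous_const Complex.continuous_re
  have hconv : IsPreconnected U := by rw [hU]; exact (convex_halfSpace_re_gt σ).isPreconnected
  have hUσ : ∀ z ∈ U, σ < z.re := by intro z hz; rw [hU] at hz; exact hz
  -- the majorant
  obtain ⟨T, hT⟩ : ∃ T : Finset (HeightOneSpectrum (𝓞 K)), T = hH.toFinset := ⟨_, rfl⟩
  have hTm : ∀ v, v ∉ T → ‖a v‖ ≤ 2 * Real.sqrt (nm v) := by
    intro v hv
    rw [hT, Set.Finite.mem_toFinset] at hv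
    by_contra hcon
    exact hv hcon
  obtain ⟨u, hu⟩ : ∃ u : HeightOneSpectrum (𝓞 K) → ℝ, u = fun v =>
    60 * (nm v : ℝ) ^ (-(σ - 1 / 2)) + if v ∈ T then 20 else 0 := ⟨_, rfl⟩
  have hsum : Summable u := by
    rw [hu]
    refine ((nm_summable (by linarith)).mul_left 60).add ?_
    refine summable_of_ne_finset_zero (s := T) fun v hv => ?_
    rw [if_neg hv]
  have hterm : ∀ v, ∀ z ∈ U, ‖-log (1 + gv a δ v z)‖ ≤ u v := by
    intro v z hz
    have hz1 := hUσ z hz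
    have h1 := gv_triv h.ha h.hδ v (s := z) (by linarith)
    rw [norm_neg, hu]
    simp only
    have h2 := log_le h1
    have h3 : 0 ≤ (nm v : ℝ) ^ (-(σ - 1 / 2)) := by positivity
    by_cases hv : v ∈ T
    · rw [if_pos hv]
      linarith
    · rw [if_neg hv]
      have h4 := gv_hasse h.hδ v (hTm v hv) hσ1 (s := z) hz1.le
      linarith
  have hLd : DifferentiableOn ℂ (LG a δ) U := by
    refine differentiableOn_tsum_of_summable_norm hsum (fun v z hz => ?_) hopen hterm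
    have hz1 := hUσ z hz
    have hg : DifferentiableAt ℂ (fun s => 1 + gv a δ v s) z := by
      unfold gv
      have h1 : DifferentiableAt ℂ (fun s : ℂ => ((nm v : ℕ) : ℂ) ^ (-s)) z :=
        DifferentiableAt.const_cpow (by fun_prop) (Or.inl (nm0 v))
      have h2 : DifferentiableAt ℂ (fun s : ℂ => ((nm v : ℕ) : ℂ) ^ (-2 * s)) z :=
        DifferentiableAt.const_cpow (by fun_prop) (Or.inl (nm0 v))
      exact ((h1.const_mul (a v)).neg.add (h2.const_mul (δ v))).const_add 1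
    exact (hg.clog (slit (gv_triv h.ha h.hδ v (by linarith)))).neg.differentiableWithinAt
  -- the formula on `U`
  have hA : (A : ℂ) ≠ 0 := by
    have := h.one_le
    exact_mod_cast (by linarith : (0 : ℝ) < A).ne'
  have hpi : (2 * (Real.pi : ℂ)) ≠ 0 := by
    have := Real.pi_ne_zero
    simp [this]
  obtain ⟨R, hR⟩ : ∃ R : ℂ → ℂ, R = fun s : ℂ => (A : ℂ) ^ (s / 2) *
    ((2 * (Real.pi : ℂ)) ^ (-s) * Gamma s) ^ dg K * cexp (LG a δ s) := ⟨_, rfl⟩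
  have hRd : DifferentiableOn ℂ R U := by
    intro z hz
    have hz1 := hUσ z hz
    have h1 : DifferentiableAt ℂ (fun s : ℂ => (A : ℂ) ^ (s / 2)) z :=
      DifferentiableAt.const_cpow (by fun_prop) (Or.inl hA)
    have h2 : DifferentiableAt ℂ (fun s : ℂ => (2 * (Real.pi : ℂ)) ^ (-s)) z :=
      DifferentiableAt.const_cpow (by fun_prop) (Or.inl hpi)
    have h3 : DifferentiableAt ℂ Gamma z := by
      refine Complex.differentiableAt_Gamma z fun m hm => ?_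
      rw [hm, Complex.neg_re, Complex.natCast_re] at hz1
      have : (0 : ℝ) ≤ m := Nat.cast_nonneg m
      linarith
    have h4 : DifferentiableAt ℂ (LG a δ) z := (hLd z hz).differentiableAt (hopen.mem_nhds hz)
    rw [hR]
    exact ((h1.mul ((h2.mul h3).pow _)).mul h4.cexp).differentiableWithinAt
  have hz0 : ((max σ (9 / 4) + 1 : ℝ) : ℂ) ∈ U := by
    have := le_max_left σ (9 / 4)
    rw [hU]
    show σ < (((max σ (9 / 4) + 1 : ℝ) : ℂ)).re
    rw [Complex.ofReal_re]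
    linarith
  have hsU : s ∈ U := by rw [hU]; exact hσ2
  have key : Λ s = R s := by
    refine AnalyticOnNhd.eqOn_of_preconnected_of_eventuallyEq (fun z _ => h.entire.analyticAt z)
      (hRd.analyticOnNhd hopen) hconv hz0 ?_ hsU
    have h3 : ∀ᶠ z : ℂ in 𝓝 ((max σ (9 / 4) + 1 : ℝ) : ℂ), 9 / 4 < z.re := by
      have := le_max_right σ (9 / 4)
      exact (Complex.continuous_re.tendsto _).eventually (lt_mem_nhds (by
        rw [Complex.ofReal_re]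
        linarith))
    filter_upwards [h3] with z hz
    rw [h.eq' hz, hR]
    simp only
    congr 1
    exact (NF.prod_eq h.ha h.hδ hz.le).tprod_eq
  rw [key, hR]
  simp only
  refine mul_ne_zero (mul_ne_zero ?_ (pow_ne_zero _ (mul_ne_zero ?_ ?_))) (Complex.exp_ne_zero _)
  · rw [Ne, Complex.cpow_eq_zero_iff]
    exact fun h => hA h.1
  · rw [Ne, Complex.cpow_eq_zero_iff]
    exact fun h => hpi h.1
  · exact Complex.Gamma_ne_zero_of_re_pos (by linarith)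

end

end Q240.OW
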