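import Pool.Agent.Q240.OW.K1

/-!
# Shadows for L-functions of degree `2 n`, arithmetic normalisation
-/

set_option autoImplicit false

open Complex Filter Topology Set Polynomial
open scoped ComplexConjugate

namespace Q240.OW

open Pool.Agent.W169.HF hiding cnd
open H353.E hiding LD
open Pool.Agent.W355.UN Pool.Agent.TH839.UH Q240.GS

/-- the analytic conductor -/
noncomputable def cdk (n : ℕ) (A y : ℝ) : ℝ := A * (1 + |y|) ^ (2 * n)

lemma cdk_one {n : ℕ} {A : ℝ} (hA : 1 ≤ A) (y : ℝ) : 1 ≤ cdk n A y := by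
  unfold cdk
  have h1 : 1 ≤ (1 + |y|) ^ (2 * n) := one_le_pow₀ (by linarith [abs_nonneg y])
  nlinarith

lemma cnd_ge {n : ℕ} {A : ℝ} (hA : 0 ≤ A) (y : ℝ) : cdk n A y ≤ cnd A (mu n) y := by
  unfold cnd cdk
  apply mul_le_mul_of_nonneg_left _ hA
  have h1 : ∀ j : Fin (n + n), 1 + |y| ≤ 1 + ‖(y : ℂ) * I - mu n j‖ := fun j => by
    have h := Complex.abs_im_le_norm ((y : ℂ) * I - mu n j)
    have hj : (mu n j).im = 0 := by
      rcases mu_cases j with h | h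
      · rw [h, show (-1 / 2 : ℂ) = ((-1 / 2 : ℝ) : ℂ) by push_cast; ring, Complex.ofReal_im]
      · rw [h, show (-3 / 2 : ℂ) = ((-3 / 2 : ℝ) : ℂ) by push_cast; ring, Complex.ofReal_im]
    have e : ((y : ℂ) * I - mu n j).im = y := by simp [hj]
    rw [e] at h
    linarith
  have h2 := Finset.prod_le_prod (s := Finset.univ) (fun (j : Fin (n + n)) _ => by
    linarith [abs_nonneg y] : ∀ j ∈ Finset.univ, (0 : ℝ) ≤ 1 + |y|) fun j _ => h1 j
  rw [Finset.prod_const, Finset.card_univ, Fintype.card_fin] at h2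
  rw [two_mul]
  exact h2

lemma cnd_le {n : ℕ} {A : ℝ} (hA : 0 ≤ A) (y : ℝ) : cnd A (mu n) y ≤ 9 ^ n * cdk n A y := by
  unfold cnd cdk
  have h0 := abs_nonneg y
  have h1 : ∀ j : Fin (n + n), 1 + ‖(y : ℂ) * I - mu n j‖ ≤ 3 * (1 + |y|) := fun j => by
    have h2 : ‖(y : ℂ) * I - mu n j‖ ≤ |y| + ‖mu n j‖ := by
      refine (norm_sub_le _ _).trans ?_
      rw [norm_mul, Complex.norm_real, Complex.norm_I, mul_one, Real.norm_eq_abs]
    have h3 : ‖mu n j‖ ≤ 3 / 2 := by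
      rcases mu_cases j with h | h
      · rw [h, show (-1 / 2 : ℂ) = ((-1 / 2 : ℝ) : ℂ) by push_cast; ring, Complex.norm_real]
        norm_num
      · rw [h, show (-3 / 2 : ℂ) = ((-3 / 2 : ℝ) : ℂ) by push_cast; ring, Complex.norm_real]
        norm_num
    linarith
  have h2 := Finset.prod_le_prod (s := Finset.univ) (fun (j : Fin (n + n)) _ => by
    positivity : ∀ j ∈ Finset.univ, (0 : ℝ) ≤ 1 + ‖(y : ℂ) * I - mu n j‖) fun j _ => h1 j
  rw [Finset.prod_const, Finset.card_univ, Fintype.card_fin, mul_pow] at h2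
  have e : (3 : ℝ) ^ (n + n) = 9 ^ n := by
    rw [← two_mul, pow_mul]
    norm_num
  have e2 : (1 + |y|) ^ (2 * n) = (1 + |y|) ^ (n + n) := by rw [two_mul]
  rw [e, ← e2] at h2
  calc A * ∏ j, (1 + ‖(y : ℂ) * I - mu n j‖) ≤ A * (9 ^ n * (1 + |y|) ^ (2 * n)) :=
        mul_le_mul_of_nonneg_left h2 hA
    _ = _ := by ring

lemma log_cdk {n : ℕ} {A : ℝ} (hA : 1 ≤ A) (y : ℝ) : Real.log (cdk n A y) ≤ Real.log (cnd A (mu n) y) ∧
    Real.log (cnd A (mu n) y) ≤ Real.log (cdk n A y) + 3 * n := by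
  have h2 := cdk_one (n := n) hA y
  refine ⟨Real.log_le_log (by linarith) (cnd_ge (by linarith) y), ?_⟩
  have h6 := Real.log_le_log (by have := cnd_ge (n := n) (A := A) (by linarith) y; linarith)
    (cnd_le (n := n) (A := A) (by linarith) y)
  rw [Real.log_mul (by positivity) (by linarith), Real.log_pow] at h6
  have h7 : Real.log 9 ≤ 3 := by
    rw [show (9 : ℝ) = 3 ^ 2 by norm_num, Real.log_pow]
    have h8 : Real.log 3 ≤ 3 / 2 := by
      have h9 := Real.add_one_le_exp (1 / 2 : ℝ)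
      have h10 : Real.exp (3 / 2) = Real.exp 1 * Real.exp (1 / 2) := by rw [← Real.exp_add]; norm_num
      have h11 := Real.exp_one_gt_d9
      rw [Real.log_le_iff_le_exp (by norm_num), h10]
      nlinarith [Real.exp_pos (1 / 2)]
    push_cast
    linarith
  have h8 : (n : ℝ) * Real.log 9 ≤ n * 3 := mul_le_mul_of_nonneg_left h7 (Nat.cast_nonneg n)
  linarith

lemma big_logk {n : ℕ} {A : ℝ} (hA : 1 ≤ A) {y X : ℝ} (h : Real.exp X ≤ cdk n A y) :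
    X ≤ Real.log (cnd A (mu n) y) := by
  have h1 := Real.log_le_log (Real.exp_pos X) h
  rw [Real.log_exp] at h1
  exact h1.trans (log_cdk hA y).1

lemma log_bigk {n : ℕ} {A : ℝ} (hA : 1 ≤ A) {y X : ℝ}
    (h : Real.log (max X 1) + 3 * n ≤ Real.log (cnd A (mu n) y)) : X ≤ cdk n A y := by
  have h1 := (log_cdk (n := n) hA y).2
  have h2 : Real.log (max X 1) ≤ Real.log (cdk n A y) := by linarith
  have h3 : 0 < max X 1 := lt_max_of_lt_right one_pos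
  have h4 := cdk_one (n := n) hA y
  exact (le_max_left _ _).trans ((Real.log_le_log_iff h3 (by linarith)).1 h2)

theorem FF_halfk {n : ℕ} {A : ℝ} (hA : 0 < A) (Λ : ℂ → ℂ) (P : ℂ[X]) (S : Finset ℝ) (c : ℝ → ℂ) (s : ℂ) :
    FF (mu n) (sdk n A Λ) P S (hf c) s = LD (LK n A Λ) P S c (s + 1 / 2) := by
  have hfun : LL (mu n) (sdk n A Λ) = fun z => LK n A Λ (z + 1 / 2) := by
    funext z
    exact LL_sdk hA Λ z
  unfold FF
  rw [hfun]
  unfold LD hf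
  congr 1
  · refine Finset.sum_congr rfl fun i _ => ?_
    rw [it_shift]
  · refine Finset.sum_congr rfl fun l _ => ?_
    rw [mul_assoc, ← Complex.exp_add]
    congr 2
    ring

/-- **Shadows.** -/
theorem shadow_k {n : ℕ} (hn : 1 ≤ n) {M0 : ℝ} (hM0 : 1 ≤ M0) (P Q : ℂ[X]) (hP : P ≠ 0) (hQ : Q ≠ 0)
    (S R : Finset ℝ) (B β ε : ℝ) (hB : 0 ≤ B)
    (hβ : β ≤ 1) (hε : 0 < ε) : ∃ X : ℝ, 1 ≤ X ∧ ∀ (A : ℝ) (Λ : ℂ → ℂ), WL M0 A (mu n) (sdk n A Λ) →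
    ∀ c d : ℝ → ℂ, (∀ l ∈ S, ‖c l‖ ≤ B) → (∀ l ∈ R, ‖d l‖ ≤ B) → ∀ ρ : ℂ, X ≤ cdk n A ρ.im →
    LD (LK n A Λ) P S c ρ = 0 → 1 / 4 ≤ ρ.re → ρ.re ≤ β - ε →
      ∃ s : ℂ, LD (LK n A Λ) Q R d s = 0 ∧ 1 / 4 < s.re ∧ s.re < β ∧ |s.im - ρ.im| ≤ X := by
  obtain ⟨E, hE⟩ : ∃ E : ℝ, E = ∑ l ∈ S, Real.exp (-(l * (1 / 2))) + ∑ l ∈ R, Real.exp (-(l * (1 / 2))) := ⟨_, rfl⟩
  have hS0 : 0 ≤ ∑ l ∈ S, Real.exp (-(l * (1 / 2))) := Finset.sum_nonneg fun _ _ => (Real.exp_pos _).le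
  have hR0 : 0 ≤ ∑ l ∈ R, Real.exp (-(l * (1 / 2))) := Finset.sum_nonneg fun _ _ => (Real.exp_pos _).le
  obtain ⟨X, hX, H⟩ := shadow_NW (m := n + n) (by omega) hM0 P Q hP hQ S R (B * E) (β - 1 / 2) ε
    (by rw [hE]; positivity) (by linarith) hε
  refine ⟨Real.exp X, Real.one_le_exp (by linarith), ?_⟩
  intro A Λ hW c d hc hd ρ hfar hρ h1 h2
  have hA1 := hW.one_le
  have hA : 0 < A := by linarith
  have e1 : (ρ - 1 / 2 : ℂ).re = ρ.re - 1 / 2 := by simp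
  have e2 : (ρ - 1 / 2 : ℂ).im = ρ.im := by simp
  obtain ⟨s, s1, s2, s3, s4⟩ := H A (mu n) (sdk n A Λ) hW mu_le (hf c) (hf d)
    (fun l hl => (hf_bound S hB hc l hl).trans (mul_le_mul_of_nonneg_left (by linarith) hB))
    (fun l hl => (hf_bound R hB hd l hl).trans (mul_le_mul_of_nonneg_left (by linarith) hB))
    (ρ - 1 / 2) (by rw [e2]; exact big_logk hA1 hfar)
    (by rw [FF_halfk hA, sub_add_cancel]; exact hρ) (by rw [e1]; linarith) (by rw [e1]; linarith)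
  rw [e2] at s4
  rw [FF_halfk hA] at s1
  have e3 : (s + 1 / 2 : ℂ).re = s.re + 1 / 2 := by simp
  have e4 : (s + 1 / 2 : ℂ).im = s.im := by simp
  refine ⟨s + 1 / 2, s1, by rw [e3]; linarith, by rw [e3]; linarith, ?_⟩
  rw [e4]
  exact s4.trans (by linarith [Real.add_one_le_exp X])

/-- **Both sides, for a family.** -/
theorem both_k {n : ℕ} (hn : 1 ≤ n) {M0 : ℝ} (hM0 : 1 ≤ M0) (P : ℂ[X]) (hP : P ≠ 0) (S : Finset ℝ) (B β : ℝ)
    (hB : 0 ≤ B) (hβ : β ≤ 1) {ι : Type*} (A : ι → ℝ) (Λ : ι → ℂ → ℂ)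
    (hO : ∀ i, WL M0 (A i) (mu n) (sdk n (A i) (Λ i)))
    (c : ι → ℝ → ℂ) (hc : ∀ i, ∀ l ∈ S, ‖c i l‖ ≤ B) :
    (∀ ε : ℝ, 0 < ε → ∃ X : ℝ, ∀ i, ∀ ρ : ℂ, Λ i ρ = 0 → X ≤ cdk n (A i) ρ.im → ρ.re < 2 - β + ε) ↔
    (∀ ε : ℝ, 0 < ε → ∃ X : ℝ, ∀ i, ∀ ρ : ℂ, LD (LK n (A i) (Λ i)) P S (c i) ρ = 0 →
      X ≤ cdk n (A i) ρ.im → 1 / 4 ≤ ρ.re → β - ε < ρ.re) := by
  have hS0 : 0 ≤ ∑ l ∈ S, Real.exp (-(l * (1 / 2))) := Finset.sum_nonneg fun _ _ => (Real.exp_pos _).le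
  have hA1 : ∀ i, 1 ≤ A i := fun i => (hO i).one_le
  have hA : ∀ i, 0 < A i := fun i => by linarith [hA1 i]
  have key := bothNW (m := n + n) (by omega) hM0 P hP S (B * ∑ l ∈ S, Real.exp (-(l * (1 / 2)))) (β - 1 / 2)
    (by positivity) (by linarith) A (fun _ => mu n) (fun i => sdk n (A i) (Λ i)) hO
    (fun _ => mu_le) (fun i => hf (c i)) (fun i => hf_bound S hB (hc i))
  constructor
  · intro h ε hε
    obtain ⟨X, hX⟩ := key.1 (fun ε hε => by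
      obtain ⟨X, hX⟩ := h ε hε
      refine ⟨Real.log (max X 1) + 3 * n, fun i ρ hρ hfar => ?_⟩
      have h1 := hX i (ρ + 1 / 2) ((sdk_zero (hA i) (Λ i) ρ).1 hρ) (by
        have e : (ρ + 1 / 2 : ℂ).im = ρ.im := by simp
        rw [e]
        exact log_bigk (hA1 i) hfar)
      have e : (ρ + 1 / 2 : ℂ).re = ρ.re + 1 / 2 := by simp
      rw [e] at h1
      linarith) ε hε
    refine ⟨Real.exp X, fun i ρ hρ hfar h1 => ?_⟩
    have e1 : (ρ - 1 / 2 : ℂ).re = ρ.re - 1 / 2 := by simp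
    have e2 : (ρ - 1 / 2 : ℂ).im = ρ.im := by simp
    have h2 := hX i (ρ - 1 / 2) (by
      show FF (mu n) (sdk n (A i) (Λ i)) P S (hf (c i)) (ρ - 1 / 2) = 0
      rw [FF_halfk (hA i), sub_add_cancel]; exact hρ)
      (by rw [e2]; exact big_logk (hA1 i) hfar) (by rw [e1]; linarith)
    rw [e1] at h2
    linarith
  · intro h ε hε
    obtain ⟨X, hX⟩ := key.2 (fun ε hε => by
      obtain ⟨X, hX⟩ := h ε hε
      refine ⟨Real.log (max X 1) + 3 * n, fun i ρ hρ hfar h1 => ?_⟩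
      have h2 := hX i (ρ + 1 / 2) (by
        have hρ' : FF (mu n) (sdk n (A i) (Λ i)) P S (hf (c i)) ρ = 0 := hρ
        rw [FF_halfk (hA i)] at hρ'
        exact hρ') (by
        have e : (ρ + 1 / 2 : ℂ).im = ρ.im := by simp
        rw [e]
        exact log_bigk (hA1 i) hfar) (by
        have e : (ρ + 1 / 2 : ℂ).re = ρ.re + 1 / 2 := by simp
        rw [e]; linarith)
      have e : (ρ + 1 / 2 : ℂ).re = ρ.re + 1 / 2 := by simp
      rw [e] at h2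
      linarith) ε hε
    refine ⟨Real.exp X, fun i ρ hρ hfar => ?_⟩
    have e1 : (ρ - 1 / 2 : ℂ).re = ρ.re - 1 / 2 := by simp
    have e2 : (ρ - 1 / 2 : ℂ).im = ρ.im := by simp
    have h2 := hX i (ρ - 1 / 2) ((sdk_zero (hA i) (Λ i) _).2 (by rw [sub_add_cancel]; exact hρ))
      (by rw [e2]; exact big_logk (hA1 i) hfar)
    rw [e1] at h2
    linarith

end Q240.OW
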