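import Pool.Agent.Q240.OW.K4

/-!
# Shadows for L-functions of degree at most `2 d`
-/

set_option autoImplicit false

open Complex Filter Topology Set Polynomial
open scoped ComplexConjugate

namespace Q240.OW

open Pool.Agent.W169.HF hiding cnd
open H353.E hiding LD
open Pool.Agent.W355.UN Pool.Agent.TH839.UH Q240.GS

/-- shifting the height in the conductor -/
lemma cdk_shift {n : ℕ} {A : ℝ} (hA : 0 ≤ A) {y y' X : ℝ} (hX : 0 ≤ X) (h : |y' - y| ≤ X) :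
    cdk n A y ≤ cdk n A y' * (1 + X) ^ (2 * n) := by
  unfold cdk
  have h0 := abs_nonneg y'
  have h1 : 1 + |y| ≤ (1 + |y'|) * (1 + X) := by
    have h2 : |y| ≤ |y'| + X := by
      calc |y| = |y' - (y' - y)| := by congr 1; ring
        _ ≤ |y'| + |y' - y| := abs_sub _ _
        _ ≤ _ := by linarith
    nlinarith
  have h2 : (1 + |y|) ^ (2 * n) ≤ ((1 + |y'|) * (1 + X)) ^ (2 * n) :=
    pow_le_pow_left₀ (by positivity) h1 _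
  rw [mul_pow] at h2
  calc A * (1 + |y|) ^ (2 * n) ≤ A * ((1 + |y'|) ^ (2 * n) * (1 + X) ^ (2 * n)) :=
        mul_le_mul_of_nonneg_left h2 hA
    _ = _ := by ring

/-- **Shadows, all degrees up to `d`.** -/
theorem shadow_d (d : ℕ) {M0 : ℝ} (hM0 : 1 ≤ M0) (P Q : ℂ[X]) (hP : P ≠ 0) (hQ : Q ≠ 0)
    (S R : Finset ℝ) (B β ε : ℝ) (hB : 0 ≤ B)
    (hβ : β ≤ 1) (hε : 0 < ε) : ∃ X : ℝ, 1 ≤ X ∧ ∀ (n : ℕ) (A : ℝ) (Λ : ℂ → ℂ), 1 ≤ n → n ≤ d →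
    WL M0 A (mu n) (sdk n A Λ) →
    ∀ c c' : ℝ → ℂ, (∀ l ∈ S, ‖c l‖ ≤ B) → (∀ l ∈ R, ‖c' l‖ ≤ B) → ∀ ρ : ℂ, X ≤ cdk n A ρ.im →
    LD (LK n A Λ) P S c ρ = 0 → 1 / 4 ≤ ρ.re → ρ.re ≤ β - ε →
      ∃ s : ℂ, LD (LK n A Λ) Q R c' s = 0 ∧ 1 / 4 < s.re ∧ s.re < β ∧ |s.im - ρ.im| ≤ X := by
  induction d with
  | zero =>
    refine ⟨1, le_rfl, fun n A Λ h1 h2 => ?_⟩
    omega
  | succ d ih =>
    obtain ⟨X1, hX1, H1⟩ := ih
    obtain ⟨X2, hX2, H2⟩ := shadow_k (n := d + 1) (by omega) hM0 P Q hP hQ S R B β ε hB hβ hε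
    refine ⟨max X1 X2, hX1.trans (le_max_left _ _), fun n A Λ h1 h2 hW c c' hc hc' ρ hfar hρ k1 k2 => ?_⟩
    rcases Nat.lt_or_ge n (d + 1) with h3 | h3
    · obtain ⟨s, s1, s2, s3, s4⟩ := H1 n A Λ h1 (by omega) hW c c' hc hc' ρ ((le_max_left _ _).trans hfar) hρ k1 k2
      exact ⟨s, s1, s2, s3, s4.trans (le_max_left _ _)⟩
    · have h4 : n = d + 1 := by omega
      subst h4
      obtain ⟨s, s1, s2, s3, s4⟩ := H2 A Λ hW c c' hc hc' ρ ((le_max_right _ _).trans hfar) hρ k1 k2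
      exact ⟨s, s1, s2, s3, s4.trans (le_max_right _ _)⟩

section
variable {n : ℕ} {A M0 : ℝ} {Λ : ℂ → ℂ}

lemma refl_k (h : WL M0 A (mu n) (sdk n A Λ)) {s : ℂ} (hs : Λ s = 0) : Λ (2 - conj s) = 0 := by
  have hA : 0 < A := by linarith [h.one_le]
  have h1 := h.refl (s := s - 1 / 2) ((sdk_zero hA Λ _).2 (by rw [sub_add_cancel]; exact hs))
  rw [sdk_zero hA] at h1
  have e1 : (1 - conj (s - 1 / 2) + 1 / 2 : ℂ) = 2 - conj s := by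
    rw [map_sub]
    have : conj (1 / 2 : ℂ) = 1 / 2 := by rw [map_div₀, map_one, map_ofNat]
    rw [this]; ring
  rwa [e1] at h1

lemma strip_k (h : WL M0 A (mu n) (sdk n A Λ)) {s : ℂ} (hs : Λ s = 0) : s.re ≤ 3 / 2 := by
  have hA : 0 < A := by linarith [h.one_le]
  by_contra hcon
  push Not at hcon
  refine h.nz (s - 1 / 2) (by simp; linarith) ?_
  rw [sdk_zero hA, sub_add_cancel]
  exact hs

lemma LK_zero (hA : 0 < A) {s : ℂ} (hs : 0 < s.re) : LK n A Λ s = 0 ↔ Λ s = 0 := by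
  have h1 : ((A : ℂ) ^ (s / 2) * ((2 * (Real.pi : ℂ)) ^ (-s) * Gamma s) ^ n)⁻¹ ≠ 0 := by
    refine inv_ne_zero (mul_ne_zero (cA hA _) (pow_ne_zero _ (mul_ne_zero ?_
      (Complex.Gamma_ne_zero_of_re_pos hs))))
    have hpi : (2 * (Real.pi : ℂ)) ≠ 0 := by
      have := Real.pi_ne_zero
      simp [this]
    rw [Ne, Complex.cpow_eq_zero_iff]
    exact fun h => hpi h.1
  unfold LK
  constructor
  · intro h
    exact (mul_eq_zero.1 h).resolve_left h1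
  · intro h
    rw [h, mul_zero]

lemma LK_one (c : ℝ → ℂ) (s : ℂ) : LD (LK n A Λ) 1 ∅ c s = LK n A Λ s := by
  unfold LD
  simp

end

/-- zeros of `F` give zeros off the line -/
theorem toL (d : ℕ) {M0 : ℝ} (hM0 : 1 ≤ M0) (P : ℂ[X]) (hP : P ≠ 0) (S : Finset ℝ) (B β ε : ℝ) (hB : 0 ≤ B)
    (hβ : β ≤ 1) (hε : 0 < ε) : ∃ X : ℝ, 1 ≤ X ∧ ∀ (n : ℕ) (A : ℝ) (Λ : ℂ → ℂ), 1 ≤ n → n ≤ d →
    WL M0 A (mu n) (sdk n A Λ) → ∀ c : ℝ → ℂ, (∀ l ∈ S, ‖c l‖ ≤ B) → ∀ ρ : ℂ, X ≤ cdk n A ρ.im →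
    LD (LK n A Λ) P S c ρ = 0 → 1 / 4 ≤ ρ.re → ρ.re ≤ β - ε →
      ∃ s : ℂ, Λ s = 0 ∧ 1 / 4 < s.re ∧ s.re < β ∧ |s.im - ρ.im| ≤ X := by
  obtain ⟨X, hX, H⟩ := shadow_d d hM0 P 1 hP one_ne_zero S ∅ B β ε hB hβ hε
  refine ⟨X, hX, fun n A Λ h1 h2 hW c hc ρ hfar hρ k1 k2 => ?_⟩
  obtain ⟨s, s1, s2, s3, s4⟩ := H n A Λ h1 h2 hW c (fun _ => 0) hc (by simp) ρ hfar hρ k1 k2
  rw [LK_one] at s1
  exact ⟨s, (LK_zero (by linarith [hW.one_le]) (by linarith)).1 s1, s2, s3, s4⟩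

/-- zeros off the line give zeros of `F` -/
theorem ofL (d : ℕ) {M0 : ℝ} (hM0 : 1 ≤ M0) (P : ℂ[X]) (hP : P ≠ 0) (S : Finset ℝ) (B β ε : ℝ) (hB : 0 ≤ B)
    (hβ : β ≤ 1) (hε : 0 < ε) : ∃ X : ℝ, 1 ≤ X ∧ ∀ (n : ℕ) (A : ℝ) (Λ : ℂ → ℂ), 1 ≤ n → n ≤ d →
    WL M0 A (mu n) (sdk n A Λ) → ∀ c : ℝ → ℂ, (∀ l ∈ S, ‖c l‖ ≤ B) → ∀ ρ : ℂ, X ≤ cdk n A ρ.im →
    Λ ρ = 0 → 1 - β + ε ≤ |ρ.re - 1| →
      ∃ s : ℂ, LD (LK n A Λ) P S c s = 0 ∧ 1 / 4 < s.re ∧ s.re < β ∧ |s.im - ρ.im| ≤ X := by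
  obtain ⟨X, hX, H⟩ := shadow_d d hM0 1 P one_ne_zero hP ∅ S B β ε hB hβ hε
  refine ⟨X, hX, fun n A Λ h1 h2 hW c hc ρ hfar hρ k1 => ?_⟩
  have hA : 0 < A := by linarith [hW.one_le]
  have key : ∀ ρ : ℂ, X ≤ cdk n A ρ.im → Λ ρ = 0 → ρ.re ≤ β - ε →
      ∃ s : ℂ, LD (LK n A Λ) P S c s = 0 ∧ 1 / 4 < s.re ∧ s.re < β ∧ |s.im - ρ.im| ≤ X := by
    intro ρ hfar hρ k2
    have h3 := strip_k hW (refl_k hW hρ)
    rw [sub_re, conj_re] at h3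
    norm_num at h3
    refine H n A Λ h1 h2 hW (fun _ => 0) c (by simp) hc ρ hfar ?_ (by linarith) k2
    rw [LK_one, LK_zero hA (by linarith)]
    exact hρ
  rcases le_total ρ.re 1 with h2 | h2
  · rw [abs_of_nonpos (by linarith)] at k1
    exact key ρ hfar hρ (by linarith)
  · rw [abs_of_nonneg (by linarith)] at k1
    have e1 : (2 - conj ρ : ℂ).re = 2 - ρ.re := by simp
    have e2 : (2 - conj ρ : ℂ).im = ρ.im := by simp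
    have := key (2 - conj ρ) (by rw [e2]; exact hfar) (refl_k hW hρ) (by rw [e1]; linarith)
    rwa [e2] at this

/-- **Both sides, for a family of L-functions of degree at most `2 d`.** -/
theorem both_d (d : ℕ) {M0 : ℝ} (hM0 : 1 ≤ M0) (P : ℂ[X]) (hP : P ≠ 0) (S : Finset ℝ) (B β : ℝ)
    (hB : 0 ≤ B) (hβ : β ≤ 1) {ι : Type*} (n : ι → ℕ) (A : ι → ℝ) (Λ : ι → ℂ → ℂ) (h1 : ∀ i, 1 ≤ n i)
    (h2 : ∀ i, n i ≤ d) (hO : ∀ i, WL M0 (A i) (mu (n i)) (sdk (n i) (A i) (Λ i)))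
    (c : ι → ℝ → ℂ) (hc : ∀ i, ∀ l ∈ S, ‖c i l‖ ≤ B) :
    (∀ ε : ℝ, 0 < ε → ∃ X : ℝ, ∀ i, ∀ ρ : ℂ, Λ i ρ = 0 → X ≤ cdk (n i) (A i) ρ.im → |ρ.re - 1| < 1 - β + ε) ↔
    (∀ ε : ℝ, 0 < ε → ∃ X : ℝ, ∀ i, ∀ ρ : ℂ, LD (LK (n i) (A i) (Λ i)) P S (c i) ρ = 0 →
      X ≤ cdk (n i) (A i) ρ.im → 1 / 4 ≤ ρ.re → β - ε < ρ.re) := by
  have hshift : ∀ i, ∀ X X0 y y' : ℝ, 1 ≤ X → |y' - y| ≤ X → |X0| * (1 + X) ^ (2 * d) ≤ cdk (n i) (A i) y →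
      X0 ≤ cdk (n i) (A i) y' := by
    intro i X X0 y y' hX hy h
    have hA := (hO i).one_le
    have h3 := cdk_shift (n := n i) (A := A i) (by linarith) (by linarith) hy
    have h4 : (1 + X) ^ (2 * n i) ≤ (1 + X) ^ (2 * d) :=
      pow_le_pow_right₀ (by linarith) (by have := h2 i; omega)
    have h5 := cdk_one (n := n i) hA y'
    have h6 : |X0| * (1 + X) ^ (2 * d) ≤ cdk (n i) (A i) y' * (1 + X) ^ (2 * d) :=
      h.trans (h3.trans (mul_le_mul_of_nonneg_left h4 (by linarith)))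
    exact (le_abs_self _).trans (le_of_mul_le_mul_right h6 (by positivity))
  constructor
  · intro h ε hε
    obtain ⟨X0, hX0⟩ := h (ε / 2) (by positivity)
    obtain ⟨X, hX, H⟩ := toL d hM0 P hP S B (β - ε / 2) (ε / 2) hB (by linarith) (by positivity)
    refine ⟨max X (|X0| * (1 + X) ^ (2 * d)), fun i ρ hρ hfar k1 => ?_⟩
    by_contra hcon
    push Not at hcon
    obtain ⟨s, s1, s2, s3, s4⟩ := H (n i) (A i) (Λ i) (h1 i) (h2 i) (hO i) (c i) (hc i) ρ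
      ((le_max_left _ _).trans hfar) hρ k1 (by linarith)
    have h5 := hX0 i s s1 (hshift i X X0 _ _ hX s4 ((le_max_right _ _).trans hfar))
    rw [abs_sub_comm, abs_of_pos (by linarith)] at h5
    linarith
  · intro h ε hε
    obtain ⟨X0, hX0⟩ := h (ε / 2) (by positivity)
    obtain ⟨X, hX, H⟩ := ofL d hM0 P hP S B (β - ε / 2) (ε / 2) hB (by linarith) (by positivity)
    refine ⟨max X (|X0| * (1 + X) ^ (2 * d)), fun i ρ hρ hfar => ?_⟩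
    by_contra hcon
    push Not at hcon
    obtain ⟨s, s1, s2, s3, s4⟩ := H (n i) (A i) (Λ i) (h1 i) (h2 i) (hO i) (c i) (hc i) ρ
      ((le_max_left _ _).trans hfar) hρ (by linarith)
    have h5 := hX0 i s s1 (hshift i X X0 _ _ hX s4 ((le_max_right _ _).trans hfar)) s2.le
    linarith

end Q240.OW
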