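import Pool.Agent.Q240.OW.W1

/-!
# A class of L-functions with poles at `s = 1`; the local data
-/

set_option autoImplicit false

open Complex Set MeasureTheory Filter Topology Metric
open scoped ComplexConjugate NNReal ENNReal

namespace Q240.OW

open Pool.Agent.W169.HF H353.E H353.F Q240.GS

variable {m r : ℕ}

/-- `(s (s - 1))^r` -/
noncomputable def pp (r : ℕ) (s : ℂ) : ℂ := (s * (s - 1)) ^ r

lemma pp_ratio (r : ℕ) {s t : ℂ} {b : ℝ} (hb : 0 ≤ b) (h1 : 1 / 2 ≤ ‖s‖) (h2 : 1 / 2 ≤ ‖s - 1‖) (h3 : ‖s - t‖ ≤ b) :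
    ‖pp r t‖ ≤ Real.exp (4 * r * b) * ‖pp r s‖ := by
  unfold pp
  rw [norm_pow, norm_pow, norm_mul, norm_mul]
  have e1 : ‖t‖ ≤ (1 + 2 * b) * ‖s‖ := by
    have : ‖t‖ ≤ ‖s‖ + b := by
      calc ‖t‖ = ‖s - (s - t)‖ := by congr 1; ring
        _ ≤ ‖s‖ + ‖s - t‖ := norm_sub_le _ _
        _ ≤ _ := by linarith
    nlinarith
  have e2 : ‖t - 1‖ ≤ (1 + 2 * b) * ‖s - 1‖ := by
    have : ‖t - 1‖ ≤ ‖s - 1‖ + b := by
      calc ‖t - 1‖ = ‖(s - 1) - (s - t)‖ := by congr 1; ring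
        _ ≤ ‖s - 1‖ + ‖s - t‖ := norm_sub_le _ _
        _ ≤ _ := by linarith
    nlinarith
  have e3 : 1 + 2 * b ≤ Real.exp (2 * b) := by
    have := Real.add_one_le_exp (2 * b)
    linarith
  have e4 : ‖t‖ * ‖t - 1‖ ≤ Real.exp (4 * b) * (‖s‖ * ‖s - 1‖) := by
    calc ‖t‖ * ‖t - 1‖ ≤ ((1 + 2 * b) * ‖s‖) * ((1 + 2 * b) * ‖s - 1‖) := by gcongr
      _ = ((1 + 2 * b) * (1 + 2 * b)) * (‖s‖ * ‖s - 1‖) := by ring
      _ ≤ (Real.exp (2 * b) * Real.exp (2 * b)) * (‖s‖ * ‖s - 1‖) := by gcongr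
      _ = _ := by rw [← Real.exp_add]; congr 2; ring
  calc (‖t‖ * ‖t - 1‖) ^ r ≤ (Real.exp (4 * b) * (‖s‖ * ‖s - 1‖)) ^ r := by gcongr
    _ = _ := by
      rw [mul_pow, ← Real.exp_nat_mul]
      congr 2
      ring

lemma pp_ne (r : ℕ) {s : ℂ} (h1 : s ≠ 0) (h2 : s ≠ 1) : pp r s ≠ 0 :=
  pow_ne_zero _ (mul_ne_zero h1 (sub_ne_zero.2 h2))

/-- entire functions with a functional equation, and two-sided bounds for `Re s ≥ 2` -/
structure WP (r : ℕ) (B N : ℝ) (μ : Fin m → ℂ) (X : ℂ → ℂ) : Prop where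
  one_le : 1 ≤ N
  re_le : ∀ j, (μ j).re ≤ 1 / 2
  slow : Slow X
  fe : ∃ ε : ℂ, ‖ε‖ = 1 ∧ ∀ s : ℂ, X s = ε * conj (X (1 - conj s))
  hi : ∀ s : ℂ, 2 ≤ s.re → ‖X s‖ ≤ B * (‖pp r s‖ * ‖gaf N μ s‖)
  lo : ∀ s : ℂ, 2 ≤ s.re → ‖pp r s‖ * ‖gaf N μ s‖ ≤ B * ‖X s‖
  nz : ∀ s : ℂ, 1 < s.re → X s ≠ 0

variable {B N : ℝ} {μ : Fin m → ℂ} {X : ℂ → ℂ}

theorem WP.mono (h : WP r B N μ X) {B' : ℝ} (hB : B ≤ B') : WP r B' N μ X :=
  ⟨h.one_le, h.re_le, h.slow, h.fe,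
    fun s hs => (h.hi s hs).trans (mul_le_mul_of_nonneg_right hB (by positivity)),
    fun s hs => (h.lo s hs).trans (mul_le_mul_of_nonneg_right hB (norm_nonneg _)), h.nz⟩

/-- the normaliser of `X` at height `y` -/
noncomputable def p0 (r : ℕ) (y : ℝ) : ℝ := ‖pp r (3 / 2 + y * I)‖

lemma p0_pos (r : ℕ) (y : ℝ) : 0 < p0 r y := by
  refine norm_pos_iff.2 (pp_ne r (fun h => ?_) (fun h => ?_))
  · have := congrArg Complex.re h
    simp at this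
  · have := congrArg Complex.re h
    simp at this
    norm_num at this

lemma s0_le (y : ℝ) : 1 / 2 ≤ ‖(3 / 2 + y * I : ℂ)‖ ∧ 1 / 2 ≤ ‖(3 / 2 + y * I - 1 : ℂ)‖ := by
  constructor
  · refine le_trans ?_ (abs_re_le_norm _)
    simp
    rw [abs_of_pos] <;> norm_num
  · refine le_trans ?_ (abs_re_le_norm _)
    simp
    rw [abs_of_pos] <;> norm_num

/-- the unconditional data of `X(1/2 + i y + u)` -/
theorem ud_ofP (hm : 1 ≤ m) (hB : 1 ≤ B) (h : WP r B N μ X) (y : ℝ) :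
    UD (11 / 2 * (Real.log B + 24 * m + 8 * r)) (3 / 2) (gaD N μ (3 / 2 + y * I)).re
      (p0 r y * (‖gaf N μ (3 / 2 + y * I)‖ * Real.exp (-(gaD N μ (3 / 2 + y * I)).re)))
      (fun u : ℂ => X (1 / 2 + (y : ℂ) * I + u)) := by
  have hm' : (1 : ℝ) ≤ m := by exact_mod_cast hm
  have gp := gaf_GP hm h.one_le h.re_le
  have hlogB : 0 ≤ Real.log B := Real.log_nonneg hB
  have hBexp : B = Real.exp (Real.log B) := (Real.exp_log (by linarith)).symm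
  obtain ⟨ε, hε, hfe⟩ := h.fe
  obtain ⟨ℓ, hℓ⟩ : ∃ ℓ : ℝ, ℓ = (gaD N μ (3 / 2 + y * I)).re := ⟨_, rfl⟩
  obtain ⟨G, hG⟩ : ∃ G : ℝ, G = ‖gaf N μ (3 / 2 + y * I)‖ * Real.exp (-ℓ) := ⟨_, rfl⟩
  obtain ⟨k, hk⟩ : ∃ k : ℝ, k = Real.log B + 24 * m + 8 * r := ⟨_, rfl⟩
  obtain ⟨q, hq⟩ : ∃ q : ℝ, q = p0 r y := ⟨_, rfl⟩
  have hq0 : 0 < q := by rw [hq]; exact p0_pos r y
  have hr0 : (0 : ℝ) ≤ r := Nat.cast_nonneg r
  have hk0 : 0 < k := by rw [hk]; positivity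
  have hre : ∀ u : ℂ, (1 / 2 + (y : ℂ) * I + u : ℂ).re = 1 / 2 + u.re := fun u => by simp
  have hfe' : ∀ u : ℂ, X (1 / 2 + (y : ℂ) * I + u) =
      ε * conj (X (1 / 2 + (y : ℂ) * I + -conj u)) := by
    intro u
    rw [hfe]
    congr 3
    simp only [map_add, map_mul, map_div₀, map_one, map_ofNat, conj_ofReal, conj_I]
    ring
  rw [← hℓ, ← hG, ← hk, ← hq]
  have hGpos : 0 < G := by
    rw [hG]
    have := norm_pos_iff.2 (gp.ne (3 / 2 + y * I) (by simp; norm_num))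
    positivity
  have hqG : 0 < q * G := mul_pos hq0 hGpos
  -- the polynomial factor
  have hdist : ∀ u : ℂ, ‖(3 / 2 + y * I : ℂ) - (1 / 2 + (y : ℂ) * I + u)‖ ≤ 1 + ‖u‖ := by
    intro u
    rw [show (3 / 2 + y * I : ℂ) - (1 / 2 + (y : ℂ) * I + u) = 1 - u by ring]
    calc ‖(1 : ℂ) - u‖ ≤ ‖(1 : ℂ)‖ + ‖u‖ := norm_sub_le _ _
      _ = _ := by rw [norm_one]
  have hexp8 : ∀ u : ℂ, 4 * (r : ℝ) * (1 + ‖u‖) ≤ 8 * r * (1 + ‖u‖ ^ 2) := by
    intro u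
    have : 1 + ‖u‖ ≤ 2 * (1 + ‖u‖ ^ 2) := by nlinarith [sq_nonneg (‖u‖ - 1), norm_nonneg u]
    nlinarith
  have hpu : ∀ u : ℂ, ‖pp r (1 / 2 + (y : ℂ) * I + u)‖ ≤ q * Real.exp (8 * r * (1 + ‖u‖ ^ 2)) := by
    intro u
    have h1 := pp_ratio r (b := 1 + ‖u‖) (by positivity) (s0_le y).1 (s0_le y).2 (hdist u)
    rw [mul_comm q, hq]
    exact h1.trans (mul_le_mul_of_nonneg_right (Real.exp_le_exp.2 (hexp8 u)) (norm_nonneg _))
  have hpl : ∀ u : ℂ, 3 / 2 ≤ u.re →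
      q * Real.exp (-(8 * r * (1 + ‖u‖ ^ 2))) ≤ ‖pp r (1 / 2 + (y : ℂ) * I + u)‖ := by
    intro u hu
    have h0 : 1 / 2 ≤ ‖(1 / 2 + (y : ℂ) * I + u : ℂ)‖ := by
      refine le_trans ?_ (abs_re_le_norm _)
      rw [hre, abs_of_pos (by linarith)]
      linarith
    have h0' : 1 / 2 ≤ ‖(1 / 2 + (y : ℂ) * I + u - 1 : ℂ)‖ := by
      refine le_trans ?_ (abs_re_le_norm _)
      rw [sub_re, hre, one_re, abs_of_pos (by linarith)]
      linarith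
    have h1 := pp_ratio r (b := 1 + ‖u‖) (by positivity) h0 h0' (by rw [norm_sub_rev]; exact hdist u)
    have h2 : q ≤ Real.exp (8 * r * (1 + ‖u‖ ^ 2)) * ‖pp r (1 / 2 + (y : ℂ) * I + u)‖ := by
      rw [hq]
      exact h1.trans (mul_le_mul_of_nonneg_right (Real.exp_le_exp.2 (hexp8 u)) (norm_nonneg _))
    calc q * Real.exp (-(8 * r * (1 + ‖u‖ ^ 2))) ≤
        (Real.exp (8 * r * (1 + ‖u‖ ^ 2)) * ‖pp r (1 / 2 + (y : ℂ) * I + u)‖) *
          Real.exp (-(8 * r * (1 + ‖u‖ ^ 2))) := mul_le_mul_of_nonneg_right h2 (Real.exp_pos _).le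
      _ = ‖pp r (1 / 2 + (y : ℂ) * I + u)‖ * (Real.exp (8 * r * (1 + ‖u‖ ^ 2)) *
          Real.exp (-(8 * r * (1 + ‖u‖ ^ 2)))) := by ring
      _ = _ := by rw [← Real.exp_add, add_neg_cancel, Real.exp_zero, mul_one]
  -- far to the right
  have hup0 : ∀ u : ℂ, 3 / 2 ≤ u.re → ‖X (1 / 2 + (y : ℂ) * I + u)‖ ≤
      (q * G) * Real.exp (ℓ * u.re + k * (1 + ‖u‖ ^ 2)) := by
    intro u hu
    have hu2 : 0 ≤ ‖u‖ ^ 2 := by positivity
    have h1 := h.hi (1 / 2 + (y : ℂ) * I + u) (by rw [hre]; linarith)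
    have h2 := (gam_loc gp y (u := u) (by linarith)).1
    rw [← hℓ, ← hG] at h2
    calc ‖X (1 / 2 + (y : ℂ) * I + u)‖ ≤
        B * (‖pp r (1 / 2 + (y : ℂ) * I + u)‖ * ‖gaf N μ (1 / 2 + (y : ℂ) * I + u)‖) := h1
      _ ≤ B * ((q * Real.exp (8 * r * (1 + ‖u‖ ^ 2))) *
          (G * Real.exp (ℓ * u.re + 4 * (6 * m) * (1 + ‖u‖ ^ 2)))) := by
          have := hpu u
          gcongr
      _ = (q * G) * Real.exp (Real.log B + (8 * r * (1 + ‖u‖ ^ 2) +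
          (ℓ * u.re + 4 * (6 * m) * (1 + ‖u‖ ^ 2)))) := by
          rw [Real.exp_add (Real.log B), ← hBexp, Real.exp_add (8 * r * (1 + ‖u‖ ^ 2))]; ring
      _ ≤ _ := by
          apply mul_le_mul_of_nonneg_left _ hqG.le
          apply Real.exp_le_exp.2
          rw [hk]
          nlinarith [mul_nonneg hlogB hu2]
  have hup1 : ∀ u : ℂ, 3 / 2 ≤ |u.re| → ‖X (1 / 2 + (y : ℂ) * I + u)‖ ≤
      (q * G) * Real.exp (ℓ * |u.re| + k * (1 + ‖u‖ ^ 2)) := by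
    intro u hu
    rcases le_total 0 u.re with h0 | h0
    · rw [abs_of_nonneg h0] at hu ⊢
      exact hup0 u hu
    · rw [abs_of_nonpos h0] at hu ⊢
      have h1 := hup0 (-conj u) (by rw [neg_re, conj_re]; exact hu)
      rw [norm_neg, Complex.norm_conj, neg_re, conj_re] at h1
      rw [hfe' u, norm_mul, hε, one_mul, Complex.norm_conj]
      exact h1
  have hslow : Slow (fun u : ℂ => X (1 / 2 + (y : ℂ) * I + u)) := by
    have := slow_shift h.slow (1 / 2 + (y : ℂ) * I)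
    have e : (fun w : ℂ => X (w + (1 / 2 + (y : ℂ) * I))) =
        fun u : ℂ => X (1 / 2 + (y : ℂ) * I + u) := by
      funext w
      rw [add_comm]
    rw [← e]
    exact this
  refine { slow := hslow, fe := ⟨ε, hε, fun u => hfe' u⟩, hG := hqG, up := fun u => ?_, lo := fun u hu => ?_ }
  · show ‖X (1 / 2 + (y : ℂ) * I + u)‖ ≤ _
    have hu2 : 0 ≤ ‖u‖ ^ 2 := by positivity
    rcases le_total (3 / 2) |u.re| with h0 | h0
    · rw [max_eq_left h0]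
      refine (hup1 u h0).trans ?_
      apply mul_le_mul_of_nonneg_left _ hqG.le
      apply Real.exp_le_exp.2
      have : 0 ≤ k * (1 + ‖u‖ ^ 2) := by positivity
      linarith
    · rw [max_eq_right h0]
      have h1 := strip hslow (K := k) (ϑ0 := 3 / 2) (A := (q * G) * Real.exp (ℓ * (3 / 2))) hk0 (by norm_num)
        (fun u hu => by
          have := hup1 u hu.symm.le
          rw [hu, Real.exp_add, ← mul_assoc] at this
          exact this) h0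
      refine h1.trans ?_
      rw [mul_assoc, ← Real.exp_add]
      apply mul_le_mul_of_nonneg_left _ hqG.le
      apply Real.exp_le_exp.2
      nlinarith
  · show _ ≤ ‖X (1 / 2 + (y : ℂ) * I + u)‖
    have hu2 : 0 ≤ ‖u‖ ^ 2 := by positivity
    have h1 := h.lo (1 / 2 + (y : ℂ) * I + u) (by rw [hre]; linarith)
    have h2 := (gam_loc gp y (u := u) (by linarith)).2
    rw [← hℓ, ← hG] at h2
    have h3 : (q * Real.exp (-(8 * r * (1 + ‖u‖ ^ 2)))) *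
        (G * Real.exp (ℓ * u.re - 4 * (6 * m) * (1 + ‖u‖ ^ 2))) ≤ B * ‖X (1 / 2 + (y : ℂ) * I + u)‖ := by
      refine le_trans ?_ h1
      have := hpl u hu
      gcongr
    have h4 : (q * G) * Real.exp (ℓ * u.re - 11 / 2 * k * (1 + ‖u‖ ^ 2)) * B ≤
        (q * Real.exp (-(8 * r * (1 + ‖u‖ ^ 2)))) *
        (G * Real.exp (ℓ * u.re - 4 * (6 * m) * (1 + ‖u‖ ^ 2))) := by
      calc (q * G) * Real.exp (ℓ * u.re - 11 / 2 * k * (1 + ‖u‖ ^ 2)) * B =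
          (q * G) * Real.exp (ℓ * u.re - 11 / 2 * k * (1 + ‖u‖ ^ 2) + Real.log B) := by
            rw [Real.exp_add, ← hBexp]; ring
        _ ≤ (q * G) * Real.exp (-(8 * r * (1 + ‖u‖ ^ 2)) + (ℓ * u.re - 4 * (6 * m) * (1 + ‖u‖ ^ 2))) := by
            apply mul_le_mul_of_nonneg_left _ hqG.le
            apply Real.exp_le_exp.2
            rw [hk]
            nlinarith [mul_nonneg hlogB hu2, mul_nonneg hr0 hu2]
        _ = _ := by rw [Real.exp_add]; ring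
    have hB0 : 0 < B := by linarith
    rw [← mul_le_mul_iff_left₀ hB0]
    refine h4.trans (h3.trans (le_of_eq (mul_comm _ _)))

/-- the normalised function at height `y` -/
noncomputable def fnP (r : ℕ) (N : ℝ) (μ : Fin m → ℂ) (X : ℂ → ℂ) (y : ℝ) (u : ℂ) : ℂ :=
  (((p0 r y * (‖gaf N μ (3 / 2 + y * I)‖ * Real.exp (-(gaD N μ (3 / 2 + y * I)).re)))⁻¹ : ℝ) : ℂ) *
    X (1 / 2 + (y : ℂ) * I + u)

/-- the local data -/
theorem ndP (m r : ℕ) (hm : 1 ≤ m) (B : ℝ) (hB : 1 ≤ B) : ∃ K : ℝ, 1 ≤ K ∧ ∀ (N : ℝ) (μ : Fin m → ℂ)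
    (X : ℂ → ℂ), WP r B N μ X → ∀ y : ℝ, ND K (el N μ y) (fnP r N μ X y) := by
  have hm' : (1 : ℝ) ≤ m := by exact_mod_cast hm
  have hr' : (0 : ℝ) ≤ r := Nat.cast_nonneg r
  have hlogB : 0 ≤ Real.log B := Real.log_nonneg hB
  refine ⟨11 / 2 * (Real.log B + 24 * m + 8 * r), by linarith, fun N μ X h y => ?_⟩
  have ud1 := ud_scale (ud_ofP hm hB h y)
  have hright : ∀ u : ℂ, fnP r N μ X y u = 0 → u.re ≤ 1 / 2 := by
    intro u hu
    by_contra hcon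
    push Not at hcon
    unfold fnP at hu
    rcases mul_eq_zero.1 hu with h1 | h1
    · rw [ofReal_eq_zero, inv_eq_zero] at h1
      exact (mul_pos (p0_pos r y) (gpos hm h.one_le h.re_le y)).ne' h1
    · refine h.nz _ ?_ h1
      simp
      linarith
  refine ⟨ud1, fun u hu => ?_⟩
  rw [abs_le]
  refine ⟨?_, hright u hu⟩
  obtain ⟨ε, hε, h1⟩ := ud1.fe
  have h2 : fnP r N μ X y (-conj u) = 0 := by
    have h3 := h1 (-conj u)
    have e1 : -conj (-conj u) = u := by simp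
    rw [e1] at h3
    have h4 : fnP r N μ X y (-conj u) = ε * conj (fnP r N μ X y u) := h3
    rw [h4, hu, map_zero, mul_zero]
  have h3 := hright _ h2
  simp at h3
  linarith

/-- the reflected zero -/
theorem WP.refl (h : WP r B N μ X) {s : ℂ} (hs : X s = 0) : X (1 - conj s) = 0 := by
  obtain ⟨ε, hε, hfe⟩ := h.fe
  rw [hfe]
  have e1 : 1 - conj (1 - conj s) = s := by simp
  rw [e1, hs, map_zero, mul_zero]

end Q240.OW
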