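import Pool.Agent.Q240.OW.P2

/-!
# Shadows, for L-functions with poles
-/

set_option autoImplicit false

open Complex Filter Topology Set Polynomial
open scoped ComplexConjugate

namespace Q240.OW

open Pool.Agent.W169.HF
open H353.E hiding LD
open Q240.GS

variable {m r : ℕ}

lemma LQ_zero {N : ℝ} (hN : 1 ≤ N) {μ : Fin m → ℂ} {X : ℂ → ℂ} {s : ℂ} (h : ∀ j, s.im ≠ (μ j).im) (h0 : s ≠ 0)
    (h1 : s ≠ 1) : LQ r N μ X s = 0 ↔ X s = 0 := by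
  have hN0 : (N : ℂ) ≠ 0 := by
    have : N ≠ 0 := by linarith
    exact_mod_cast this
  unfold LQ
  rw [mul_eq_zero, LL_zero h, inv_eq_zero]
  unfold la
  rw [mul_eq_zero, cpow_eq_zero_iff]
  constructor
  · rintro ((⟨h2, -⟩ | h2) | h2)
    · exact absurd h2 hN0
    · exact h2
    · exact absurd h2 (pp_ne r h0 h1)
  · exact fun h2 => Or.inl (Or.inr h2)

/-- **Shadows.** -/
theorem shadow_WP (hm : 1 ≤ m) {M0 : ℝ} (hM0 : 1 ≤ M0) (P Q : ℂ[X]) (hP : P ≠ 0) (hQ : Q ≠ 0) (S R : Finset ℝ)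
    (B α ε : ℝ) (hB : 0 ≤ B) (hα : α ≤ 1 / 2) (hε : 0 < ε) : ∃ X0 : ℝ, 1 ≤ X0 ∧
    ∀ (N : ℝ) (μ : Fin m → ℂ) (X : ℂ → ℂ), WP r M0 N μ X →
    ∀ c d : ℝ → ℂ, (∀ l ∈ S, ‖c l‖ ≤ B) → (∀ l ∈ R, ‖d l‖ ≤ B) → ∀ ρ : ℂ, X0 ≤ |ρ.im| → (∀ j, X0 ≤ |ρ.im - (μ j).im|) →
    LD (LQ r N μ X) P S c ρ = 0 → -1 / 4 ≤ ρ.re → ρ.re ≤ α - ε →
      ∃ s : ℂ, LD (LQ r N μ X) Q R d s = 0 ∧ -1 / 4 < s.re ∧ s.re < α ∧ |s.im - ρ.im| ≤ X0 := by
  obtain ⟨e, L0, C, he, hL0, hC, H⟩ := shadow P Q hP hQ S R B 9 hB (by norm_num) α ε hε hα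
  obtain ⟨C0, hC0, HB⟩ := base_WP m r hm M0 hM0 C e (by linarith) he
  have hm0 : (0 : ℝ) ≤ m := Nat.cast_nonneg m
  obtain ⟨V, hV⟩ : ∃ V : ℝ, V = L0 + C0 + 28 * m := ⟨_, rfl⟩
  have hV0 : 0 ≤ V := by rw [hV]; positivity
  refine ⟨C + 1 + Real.exp V, by linarith [Real.exp_pos V], ?_⟩
  intro N μ X D c d hc hd ρ hfar0 hfar hρ h1 h2
  obtain ⟨T, hT⟩ : ∃ T : ℝ, T = ρ.im := ⟨_, rfl⟩
  have hexp := Real.exp_pos V
  have hcnd := cnd_far hm D.one_le μ (by linarith : 0 ≤ C + 1 + Real.exp V) hfar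
  have hlog : V ≤ Real.log (cnd N μ T) := by
    have h3 : Real.exp V ≤ cnd N μ T := by rw [hT]; linarith
    have := Real.log_le_log hexp h3
    rwa [Real.log_exp] at this
  obtain ⟨b1, b2⟩ := el_bd D.one_le D.re_le T
  obtain ⟨hb, -⟩ := HB N μ X D T (by linarith) (by rw [hT]; linarith) (fun j => by
    have := hfar j
    rw [hT]
    linarith)
  obtain ⟨s, s1, s2, s3, s4⟩ := H (fun s => LQ r N μ X (s + T * I)) (tw (ext0 S c) T) (tw (ext0 R d) T)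
    (2 * el N μ T) C (by linarith) (fun l => by rw [tw_norm]; exact ext0_le S c hB hc l)
    (fun l => by rw [tw_norm]; exact ext0_le R d hB hd l) hb (ρ - T * I)
    (by
      rw [LD_shift, sub_add_cancel, LD_congr (LQ r N μ X) P S (fun l hl => ext0_mem S c hl)]
      exact hρ)
    (by simpa using h1) (by simpa using h2) (by simp [hT])
  refine ⟨s + T * I, ?_, by simpa using s2, by simpa using s3, ?_⟩
  · rw [LD_shift, LD_congr (LQ r N μ X) Q R (fun l hl => ext0_mem R d hl)] at s1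
    exact s1
  · have e1 : (s + T * I).im - ρ.im = s.im - (ρ - T * I).im := by simp; ring
    rw [e1]
    linarith

lemma LD_one (f : ℂ → ℂ) (c : ℝ → ℂ) (s : ℂ) : LD f 1 ∅ c s = f s := by
  unfold LD
  simp

/-- **Zeros on both sides, for a family.** -/
theorem bothWP (hm : 1 ≤ m) {M0 : ℝ} (hM0 : 1 ≤ M0) (P : ℂ[X]) (hP : P ≠ 0) (S : Finset ℝ) (B α : ℝ) (hB : 0 ≤ B)
    (hα : α ≤ 1 / 2) : ∀ ε : ℝ, 0 < ε → ∃ X1 : ℝ, 1 ≤ X1 ∧ ∀ (N : ℝ) (μ : Fin m → ℂ) (X : ℂ → ℂ), WP r M0 N μ X →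
    ∀ c : ℝ → ℂ, (∀ l ∈ S, ‖c l‖ ≤ B) →
    (∀ ρ : ℂ, LD (LQ r N μ X) P S c ρ = 0 → X1 ≤ |ρ.im| → (∀ j, X1 ≤ |ρ.im - (μ j).im|) → -1 / 4 ≤ ρ.re →
      ρ.re ≤ α - ε → ∃ s : ℂ, X s = 0 ∧ 1 - α < s.re ∧ |s.im - ρ.im| ≤ X1) ∧
    (∀ ρ : ℂ, X ρ = 0 → X1 ≤ |ρ.im| → (∀ j, X1 ≤ |ρ.im - (μ j).im|) → 1 - α + ε ≤ ρ.re →
      ∃ s : ℂ, LD (LQ r N μ X) P S c s = 0 ∧ -1 / 4 < s.re ∧ s.re < α ∧ |s.im - ρ.im| ≤ X1) := by
  intro ε hε
  obtain ⟨X1, hX1, H1⟩ := shadow_WP (r := r) hm hM0 P 1 hP one_ne_zero S ∅ B α ε hB hα hε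
  obtain ⟨X2, hX2, H2⟩ := shadow_WP (r := r) hm hM0 1 P one_ne_zero hP ∅ S B α ε hB hα hε
  refine ⟨X1 + X2 + 1, by linarith, fun N μ X D c hc => ⟨fun ρ h1 h2 h3 h4 h5 => ?_, fun ρ h1 h2 h3 h4 => ?_⟩⟩
  · obtain ⟨s, s1, s2, s3, s4⟩ := H1 N μ X D c (fun _ => 0) hc (by simp) ρ (by linarith)
      (fun j => by have := h3 j; linarith) h1 h4 h5
    rw [LD_one] at s1
    have hs0 : 1 ≤ |s.im| := by
      have : |ρ.im| ≤ |s.im| + |s.im - ρ.im| := by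
        calc |ρ.im| = |s.im - (s.im - ρ.im)| := by congr 1; ring
          _ ≤ _ := abs_sub _ _
      linarith
    have hsj : ∀ j, 1 ≤ |s.im - (μ j).im| := fun j => by
      have h6 := h3 j
      have h7 : |ρ.im - (μ j).im| ≤ |s.im - (μ j).im| + |s.im - ρ.im| := by
        calc |ρ.im - (μ j).im| = |(s.im - (μ j).im) - (s.im - ρ.im)| := by congr 1; ring
          _ ≤ _ := abs_sub _ _
      linarith
    have hz : X s = 0 := (LQ_zero D.one_le (fun j h8 => by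
      have := hsj j
      rw [h8, sub_self, abs_zero] at this
      linarith) (fun h8 => by
      rw [h8, zero_im, abs_zero] at hs0
      linarith) (fun h8 => by
      rw [h8, one_im, abs_zero] at hs0
      linarith)).1 s1
    refine ⟨1 - conj s, D.refl hz, ?_, ?_⟩
    · simp only [sub_re, one_re, conj_re]
      linarith
    · simp only [sub_im, one_im, conj_im, zero_sub, neg_neg]
      linarith
  · have e1 : (1 - conj ρ : ℂ).re = 1 - ρ.re := by simp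
    have e2 : (1 - conj ρ : ℂ).im = ρ.im := by simp
    have hρ1 : ρ.re ≤ 1 := by
      by_contra h5
      push Not at h5
      exact D.nz ρ h5 h1
    have hne : ∀ x : ℝ, (1 - conj ρ : ℂ) ≠ x := by
      intro x hx
      have := congrArg Complex.im hx
      rw [e2, ofReal_im] at this
      rw [this, abs_zero] at h2
      linarith
    have hz : LD (LQ r N μ X) 1 ∅ (fun _ => 0) (1 - conj ρ) = 0 := by
      rw [LD_one]
      refine (LQ_zero D.one_le (fun j h8 => ?_) (by simpa using hne 0) (by simpa using hne 1)).2 (D.refl h1)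
      have := h3 j
      rw [e2] at h8
      rw [h8, sub_self, abs_zero] at this
      linarith
    obtain ⟨s, s1, s2, s3, s4⟩ := H2 N μ X D (fun _ => 0) c (by simp) hc (1 - conj ρ) (by rw [e2]; linarith)
      (fun j => by rw [e2]; have := h3 j; linarith) hz (by rw [e1]; linarith) (by rw [e1]; linarith)
    rw [e2] at s4
    exact ⟨s, s1, s2, s3, by linarith⟩

end Q240.OW
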